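import Pool.Agent.GrO.Cfg

/-!
MODULE St0 (M). Membership, cardinality, elementary moves of the point sets `St z`.

`mem_St`: unfold. `card_St`: the three parts are disjoint, the first has `∑_a cl (z a)` elements
(injective image; `cl ≤ W`), the second `|G| W - ∑_a cl (z a)`.
`W1_insert`: `Pool.Agent.KhN.W1_le_map` with the map that sends `p` to `q` and fixes `C`.
`W1_step`: if `z a < 0` or `z a ≥ W` then `St (z + e_a) = St z` and the distance is `0`
(`W1_le_map` with the identity). Else `St (z + e_a) = insert (P a ⟨z a⟩) C`,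
`St z = insert (Q t) C`, where `t = |G| W - 1 - ∑ cl (z b)` and `C` is `St z` without `Q t`.
`W1_adj`: for `a ≠ a'`, `0 ≤ z < W`: `St (z + e_a') = insert (P a' ⟨z a'⟩) C`,
`St (z + e_a) = insert (P a ⟨z a⟩) C` with the same `C`.
-/

set_option autoImplicit false

namespace Pool.Agent.GrO

open Finset Pool.Agent.MP_12e089_an Pool.Agent.KhN

private theorem cl_le (W : ℕ) (t : ℤ) : cl W t ≤ W := min_le_right _ _

private theorem cl_add_one {W : ℕ} {t : ℤ} (h0 : 0 ≤ t) (h1 : t < W) :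
    cl W (t + 1) = cl W t + 1 := by
  unfold cl
  omega

private theorem cl_out {W : ℕ} {t : ℤ} (h : ¬ (0 ≤ t ∧ t < W)) : cl W (t + 1) = cl W t := by
  unfold cl
  omega

variable {G : Type} [Fintype G] [DecidableEq G] {W : ℕ} {M : Type} [Fintype M] [DecidableEq M]
  {s : ℕ}

omit [DecidableEq G] in
private theorem sum_cl_le (z : G → ℤ) : ∑ a, cl W (z a) ≤ Fintype.card G * W := by
  refine (Finset.sum_le_card_nsmul univ _ W fun a _ => cl_le W _).trans ?_
  simp

theorem mem_St (c : Cfg G W M s) (z : G → ℤ) (x : M) :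
    x ∈ c.St z ↔ (∃ (a : G) (j : Fin W), (j : ℕ) < cl W (z a) ∧ c.P a j = x) ∨
      (∃ t : Fin (Fintype.card G * W), (t : ℕ) < Fintype.card G * W - ∑ a, cl W (z a) ∧
        c.Q t = x) ∨ x ∈ c.Z := by
  unfold Cfg.St
  simp only [mem_union, mem_image, mem_filter, mem_univ, true_and, Prod.exists, or_assoc]

theorem card_St (c : Cfg G W M s) (z : G → ℤ) : (c.St z).card = s := by
  have hA : ((univ.filter fun p : G × Fin W => (p.2 : ℕ) < cl W (z p.1)).image
      (fun p => c.P p.1 p.2)).card = ∑ a, cl W (z a) := by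
    rw [card_image_of_injOn]
    · rw [card_filter, Fintype.sum_prod_type]
      refine sum_congr rfl fun a _ => ?_
      have h1 : (∑ y : Fin W, if ((a, y).2 : ℕ) < cl W (z (a, y).1) then 1 else 0) =
          (univ.filter fun y : Fin W => (y : ℕ) < cl W (z a)).card := (card_filter _ _).symm
      rw [h1, Fin.card_filter_val_lt]
      exact min_eq_right (cl_le W _)
    · intro p _ q _ h
      obtain ⟨h1, h2⟩ := c.P_inj _ _ _ _ h
      exact Prod.ext h1 h2
  have hB : ((univ.filter fun t : Fin (Fintype.card G * W) =>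
      (t : ℕ) < Fintype.card G * W - ∑ a, cl W (z a)).image c.Q).card =
      Fintype.card G * W - ∑ a, cl W (z a) := by
    rw [card_image_of_injective _ c.Q_inj, Fin.card_filter_val_lt]
    exact min_eq_right (Nat.sub_le _ _)
  unfold Cfg.St
  rw [card_union_of_disjoint, card_union_of_disjoint, hA, hB]
  · have h1 := c.card_Z
    have h2 := sum_cl_le (W := W) z
    omega
  · rw [disjoint_left]
    intro x hx hx'
    obtain ⟨p, -, rfl⟩ := mem_image.1 hx
    obtain ⟨t, -, h⟩ := mem_image.1 hx'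
    exact c.PQ _ _ _ h.symm
  · rw [disjoint_left]
    intro x hx hx'
    rcases mem_union.1 hx with h | h
    · obtain ⟨p, -, rfl⟩ := mem_image.1 h
      exact c.PZ _ _ hx'
    · obtain ⟨t, -, rfl⟩ := mem_image.1 h
      exact c.QZ _ hx'


theorem W1_insert {ρ : M → M → ℝ} (hρ : IsMet ρ) {p q : M} {C : Finset M} (hp : p ∉ C)
    (hq : q ∉ C) : W1 ρ (unif s (insert p C)) (unif s (insert q C)) ≤ ρ p q / s := by
  have hne : ∀ x ∈ C, x ≠ p := fun x hx h => hp (h ▸ hx)
  refine (W1_le_map hρ.nonneg (fun x => if x = p then q else x) ?_ ?_ ?_).trans (le_of_eq ?_)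
  · intro x hx
    rcases mem_insert.1 hx with h | h
    · rw [if_pos h]
      exact mem_insert_self _ _
    · rw [if_neg (hne x h)]
      exact mem_insert_of_mem h
  · intro y hy
    rcases mem_insert.1 hy with h | h
    · exact ⟨p, mem_insert_self _ _, by rw [if_pos rfl, h]⟩
    · exact ⟨y, mem_insert_of_mem h, if_neg (hne y h)⟩
  · intro x hx x' hx' h
    rcases mem_insert.1 hx with h1 | h1
    · rcases mem_insert.1 hx' with h2 | h2
      · rw [h1, h2]
      · rw [if_pos h1, if_neg (hne x' h2)] at h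
        exact absurd (h ▸ h2) hq
    · rcases mem_insert.1 hx' with h2 | h2
      · rw [if_neg (hne x h1), if_pos h2] at h
        exact absurd (h ▸ h1) hq
      · rwa [if_neg (hne x h1), if_neg (hne x' h2)] at h
  · rw [sum_insert hp]
    have h1 : ∑ x ∈ C, ρ x (if x = p then q else x) = 0 := by
      refine sum_eq_zero fun x hx => ?_
      rw [if_neg (hne x hx)]
      exact hρ.self x
    rw [h1, if_pos rfl]
    ring

private theorem W1_self_le {ρ : M → M → ℝ} (hρ : IsMet ρ) (S : Finset M) :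
    W1 ρ (unif s S) (unif s S) ≤ 0 := by
  refine (W1_le_map hρ.nonneg (fun x => x) (fun x hx => hx) (fun y hy => ⟨y, hy, rfl⟩)
    (fun x _ x' _ h => h)).trans (le_of_eq ?_)
  rw [sum_eq_zero fun x _ => hρ.self x, mul_zero]

private theorem St_congr (c : Cfg G W M s) {z z' : G → ℤ} (h : ∀ a, cl W (z a) = cl W (z' a)) :
    c.St z = c.St z' := by
  unfold Cfg.St
  simp only [h]

omit [Fintype G] in
private theorem add_single (z : G → ℤ) (a b : G) :
    (z + Pi.single a 1 : G → ℤ) b = if b = a then z b + 1 else z b := by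
  rw [Pi.add_apply, Pi.single_apply]
  split_ifs <;> simp

private theorem cl_add_single {z : G → ℤ} {a : G} (ha : 0 ≤ z a ∧ z a < W) (b : G) :
    cl W ((z + Pi.single a 1 : G → ℤ) b) = cl W (z b) + if b = a then 1 else 0 := by
  rw [add_single]
  split_ifs with h
  · subst h
    exact cl_add_one ha.1 ha.2
  · rfl

private theorem sum_cl_add {z : G → ℤ} {a : G} (ha : 0 ≤ z a ∧ z a < W) :
    ∑ b, cl W ((z + Pi.single a 1 : G → ℤ) b) = ∑ b, cl W (z b) + 1 := by
  simp only [cl_add_single ha, sum_add_distrib]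
  simp

private theorem exists_t {z : G → ℤ} {a : G} (ha : 0 ≤ z a ∧ z a < W) :
    ∃ t : Fin (Fintype.card G * W), (t : ℕ) + 1 + ∑ b, cl W (z b) = Fintype.card G * W := by
  have h1 := sum_cl_le (W := W) (z + Pi.single a 1)
  rw [sum_cl_add ha] at h1
  exact ⟨⟨Fintype.card G * W - 1 - ∑ b, cl W (z b), by omega⟩, by dsimp only; omega⟩

private theorem St_add (c : Cfg G W M s) {z : G → ℤ} {a : G} (ha : 0 ≤ z a ∧ z a < W)
    {t : Fin (Fintype.card G * W)} (ht : (t : ℕ) + 1 + ∑ b, cl W (z b) = Fintype.card G * W)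
    {j : Fin W} (hj : (j : ℕ) = cl W (z a)) :
    c.St (z + Pi.single a 1) = insert (c.P a j) ((c.St z).erase (c.Q t)) := by
  ext x
  rw [mem_insert, mem_erase, mem_St, mem_St, sum_cl_add ha]
  constructor
  · rintro (⟨b, i, hi, rfl⟩ | ⟨t', ht', rfl⟩ | h)
    · rw [cl_add_single ha] at hi
      by_cases hba : b = a
      · subst hba
        rw [if_pos rfl] at hi
        by_cases hij : i = j
        · exact Or.inl (by rw [hij])
        · have h1 : (i : ℕ) ≠ j := fun h => hij (Fin.ext h)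
          exact Or.inr ⟨c.PQ _ _ _, Or.inl ⟨b, i, by omega, rfl⟩⟩
      · rw [if_neg hba, add_zero] at hi
        exact Or.inr ⟨c.PQ _ _ _, Or.inl ⟨b, i, hi, rfl⟩⟩
    · refine Or.inr ⟨?_, Or.inr (Or.inl ⟨t', by omega, rfl⟩)⟩
      intro h
      have h1 := congrArg Fin.val (c.Q_inj h)
      omega
    · refine Or.inr ⟨?_, Or.inr (Or.inr h)⟩
      rintro rfl
      exact c.QZ _ h
  · rintro (rfl | ⟨h0, (⟨b, i, hi, rfl⟩ | ⟨t', ht', rfl⟩ | h)⟩)
    · refine Or.inl ⟨a, j, ?_, rfl⟩
      rw [cl_add_single ha, if_pos rfl, hj]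
      omega
    · refine Or.inl ⟨b, i, ?_, rfl⟩
      rw [cl_add_single ha]
      exact lt_of_lt_of_le hi (Nat.le_add_right _ _)
    · refine Or.inr (Or.inl ⟨t', ?_, rfl⟩)
      have h1 : (t' : ℕ) ≠ t := fun h => h0 (by rw [Fin.ext h])
      omega
    · exact Or.inr (Or.inr h)

omit [Fintype G] [DecidableEq G] in
private theorem exists_j {z : G → ℤ} {a : G} (ha : 0 ≤ z a ∧ z a < W) :
    ∃ j : Fin W, (j : ℕ) = cl W (z a) := by
  refine ⟨⟨cl W (z a), ?_⟩, rfl⟩
  have h1 := ha.1
  have h2 := ha.2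
  unfold cl
  omega

private theorem P_notMem (c : Cfg G W M s) {z : G → ℤ} {a : G} {j : Fin W}
    (hj : (j : ℕ) = cl W (z a)) (q : M) : c.P a j ∉ (c.St z).erase q := by
  intro h
  rcases (mem_St c z _).1 (mem_of_mem_erase h) with ⟨b, i, hi, h1⟩ | ⟨t', -, h1⟩ | h1
  · obtain ⟨rfl, rfl⟩ := c.P_inj _ _ _ _ h1
    omega
  · exact c.PQ _ _ _ h1.symm
  · exact c.PZ _ _ h1

theorem W1_step {ρ : M → M → ℝ} (hρ : IsMet ρ) (c : Cfg G W M s) {H : ℝ} (hH0 : 0 ≤ H)
    (hH : ∀ a j t, ρ (c.P a j) (c.Q t) ≤ H) (z : G → ℤ) (a : G) :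
    W1 ρ (unif s (c.St (z + Pi.single a 1))) (unif s (c.St z)) ≤ H / s := by
  by_cases ha : 0 ≤ z a ∧ z a < W
  · obtain ⟨t, ht⟩ := exists_t ha
    obtain ⟨j, hj⟩ := exists_j ha
    have h1 : c.Q t ∈ c.St z := (mem_St c z _).2 (Or.inr (Or.inl ⟨t, by omega, rfl⟩))
    have h2 := W1_insert (s := s) hρ (P_notMem c hj (c.Q t)) (notMem_erase (c.Q t) (c.St z))
    rw [insert_erase h1] at h2
    rw [St_add c ha ht hj]
    refine h2.trans ?_
    exact div_le_div_of_nonneg_right (hH _ _ _) (Nat.cast_nonneg _)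
  · have h1 : c.St (z + Pi.single a 1) = c.St z := by
      refine St_congr c fun b => ?_
      rw [add_single]
      split_ifs with h
      · subst h
        exact cl_out ha
      · rfl
    rw [h1]
    exact (W1_self_le hρ _).trans (div_nonneg hH0 (Nat.cast_nonneg _))

theorem W1_adj {ρ : M → M → ℝ} (hρ : IsMet ρ) (c : Cfg G W M s) {B : ℝ} {a a' : G}
    (haa : a ≠ a') (hB : ∀ j j', ρ (c.P a' j') (c.P a j) ≤ B) {z : G → ℤ}
    (ha : 0 ≤ z a ∧ z a < W) (ha' : 0 ≤ z a' ∧ z a' < W) :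
    W1 ρ (unif s (c.St (z + Pi.single a' 1))) (unif s (c.St (z + Pi.single a 1))) ≤ B / s := by
  obtain ⟨t, ht⟩ := exists_t ha
  obtain ⟨j, hj⟩ := exists_j ha
  obtain ⟨j', hj'⟩ := exists_j ha'
  rw [St_add c ha ht hj, St_add c ha' ht hj']
  refine (W1_insert (s := s) hρ (P_notMem c hj' (c.Q t)) (P_notMem c hj (c.Q t))).trans ?_
  exact div_le_div_of_nonneg_right (hB _ _) (Nat.cast_nonneg _)

end Pool.Agent.GrO
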