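import Pool.Agent.GrO.Basic

/-!
MODULE Coa (M). Coarea: from sets to real functions and to functions with values in `L_1`.

`coa_real`: for `φ : X → ℝ` choose `M > |φ|`. For `t ∈ (-M, M)` let `A_t = {x | φ x > t}`. Then
`φ x = -M + ∫_{-M}^{M} 1_{A_t}(x) dt`, so (as `∑_x a s x = 0`)
`∑_x a s x φ x = ∫ (∑_{x ∈ A_t} a s x) dt`, `|φ p - φ q| = ∫ |1_{A_t}(p) - 1_{A_t}(q)| dt`; integrate
the hypothesis over `t`. (Alternative without integrals: induction on the number of values of `φ`:
subtract a multiple of the indicator of a top level set; both sides are additive there.)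
`coa_L1`: apply `coa_real` to `x ↦ φ x t` for almost every `t` and integrate:
`‖f‖ = ∫ |f|` (`MeasureTheory.L1.norm_eq_integral_norm`), and the coercion of a finite linear
combination is almost everywhere the linear combination (`MeasureTheory.Lp.coeFn_sub`, `coeFn_smul`,
`coeFn_finset_sum` or induction).
-/

set_option autoImplicit false

namespace Pool.Agent.GrO

open Finset Pool.Agent.MP_12e089_an

variable {X S T : Type} [Fintype X] [DecidableEq X] [Fintype S] [Fintype T]

/-- subtracting a multiple of the indicator of the top level set is additive for differences -/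
private theorem coa_step (m m' : ℝ) (hm : m' ≤ m) (x y : ℝ) (hx : x = m ∨ x ≤ m')
    (hy : y = m ∨ y ≤ m') (hmm : m' < m) :
    |x - y| = |(x - (m - m') * (if x = m then 1 else 0)) - (y - (m - m') * (if y = m then 1 else 0))|
      + (m - m') * |(if x = m then (1 : ℝ) else 0) - (if y = m then 1 else 0)| := by
  rcases hx with hx | hx <;> rcases hy with hy | hy
  · subst hx; subst hy; simp
  · have hy' : y ≠ m := by intro h; linarith
    rw [if_pos hx, if_neg hy']
    subst hx
    rw [abs_of_nonneg (by linarith), abs_of_nonneg (by linarith)]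
    simp
  · have hx' : x ≠ m := by intro h; linarith
    rw [if_pos hy, if_neg hx']
    subst hy
    rw [abs_of_nonpos (by linarith), abs_of_nonpos (by linarith)]
    simp
  · have hy' : y ≠ m := by intro h; linarith
    have hx' : x ≠ m := by intro h; linarith
    rw [if_neg hy', if_neg hx']
    simp

private theorem coa_ind (w : S → ℝ) (hw : ∀ s, 0 ≤ w s) (a : S → X → ℝ) (ha : ∀ s, ∑ x, a s x = 0)
    (u : T → ℝ) (hu : ∀ t, 0 ≤ u t) (p q : T → X)
    (h : ∀ A : Finset X, ∑ s, w s * |∑ x, a s x * ind A x| ≤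
      ∑ t, u t * |ind A (p t) - ind A (q t)|) :
    ∀ n : ℕ, ∀ φ : X → ℝ, (univ.image φ).card ≤ n →
    ∑ s, w s * |∑ x, a s x * φ x| ≤ ∑ t, u t * |φ (p t) - φ (q t)| := by
  intro n
  induction n with
  | zero =>
    intro φ hc
    have he : (univ.image φ) = ∅ := Finset.card_eq_zero.1 (Nat.le_zero.1 hc)
    have hX : IsEmpty X := by
      rw [Finset.image_eq_empty] at he
      exact Finset.univ_eq_empty_iff.1 he
    have hl : ∑ s, w s * |∑ x, a s x * φ x| = 0 := by simp
    rw [hl]
    exact Finset.sum_nonneg fun t _ => mul_nonneg (hu t) (abs_nonneg _)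
  | succ n ih =>
    intro φ hc
    by_cases hX : IsEmpty X
    · have hl : ∑ s, w s * |∑ x, a s x * φ x| = 0 := by simp
      rw [hl]
      exact Finset.sum_nonneg fun t _ => mul_nonneg (hu t) (abs_nonneg _)
    rw [not_isEmpty_iff] at hX
    have hne : (univ.image φ).Nonempty := Finset.univ_nonempty.image φ
    set m := (univ.image φ).max' hne with hmdef
    have hmx : ∀ x, φ x ≤ m := fun x => Finset.le_max' _ _ (Finset.mem_image_of_mem φ (mem_univ x))
    have hmm : m ∈ univ.image φ := Finset.max'_mem _ _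
    by_cases he : ((univ.image φ).erase m).Nonempty
    · set m' := ((univ.image φ).erase m).max' he with hm'def
      have hm'mem : m' ∈ (univ.image φ).erase m := Finset.max'_mem _ _
      have hm'lt : m' < m := by
        have h1 := Finset.mem_erase.1 hm'mem
        have h2 : m' ≤ m := Finset.le_max' _ _ h1.2
        exact lt_of_le_of_ne h2 h1.1
      have hdich : ∀ x, φ x = m ∨ φ x ≤ m' := by
        intro x
        by_cases hx : φ x = m
        · exact Or.inl hx
        · exact Or.inr (Finset.le_max' _ _ (Finset.mem_erase.2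
            ⟨hx, Finset.mem_image_of_mem φ (mem_univ x)⟩))
      set A : Finset X := univ.filter fun x => φ x = m with hA
      have hind : ∀ x, ind A x = if φ x = m then 1 else 0 := by
        intro x; simp [ind, hA]
      set ψ : X → ℝ := fun x => φ x - (m - m') * ind A x with hψ
      have hcard : (univ.image ψ).card ≤ n := by
        have hsub : univ.image ψ ⊆ (univ.image φ).erase m := by
          intro v hv
          obtain ⟨x, -, rfl⟩ := Finset.mem_image.1 hv
          simp only [hψ, hind]
          by_cases hx : φ x = m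
          · rw [if_pos hx, hx]
            have : m - (m - m') * 1 = m' := by ring
            rw [this]; exact hm'mem
          · rw [if_neg hx]
            have : φ x - (m - m') * 0 = φ x := by ring
            rw [this]
            exact Finset.mem_erase.2 ⟨hx, Finset.mem_image_of_mem φ (mem_univ x)⟩
        have h1 := Finset.card_le_card hsub
        rw [Finset.card_erase_of_mem hmm] at h1
        omega
      have h1 := ih ψ hcard
      have h2 := h A
      have hc0 : 0 ≤ m - m' := by linarith
      have hL : ∑ s, w s * |∑ x, a s x * φ x| ≤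
          ∑ s, w s * |∑ x, a s x * ψ x| + (m - m') * ∑ s, w s * |∑ x, a s x * ind A x| := by
        rw [Finset.mul_sum, ← Finset.sum_add_distrib]
        refine Finset.sum_le_sum fun s _ => ?_
        have e1 : ∑ x, a s x * φ x = ∑ x, a s x * ψ x + (m - m') * ∑ x, a s x * ind A x := by
          rw [Finset.mul_sum, ← Finset.sum_add_distrib]
          refine Finset.sum_congr rfl fun x _ => ?_
          simp only [hψ]; ring
        have e2 : |∑ x, a s x * φ x| ≤ |∑ x, a s x * ψ x| + (m - m') * |∑ x, a s x * ind A x| := by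
          rw [e1]
          refine (abs_add_le _ _).trans ?_
          rw [abs_mul, abs_of_nonneg hc0]
        calc w s * |∑ x, a s x * φ x|
            ≤ w s * (|∑ x, a s x * ψ x| + (m - m') * |∑ x, a s x * ind A x|) :=
              mul_le_mul_of_nonneg_left e2 (hw s)
          _ = _ := by ring
      have hR : ∑ t, u t * |φ (p t) - φ (q t)| =
          ∑ t, u t * |ψ (p t) - ψ (q t)| + (m - m') * ∑ t, u t * |ind A (p t) - ind A (q t)| := by
        rw [Finset.mul_sum, ← Finset.sum_add_distrib]
        refine Finset.sum_congr rfl fun t _ => ?_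
        have e3 := coa_step m m' hm'lt.le (φ (p t)) (φ (q t)) (hdich _) (hdich _) hm'lt
        simp only [hψ, hind]
        rw [e3]; ring
      rw [hR]
      refine hL.trans (add_le_add h1 (mul_le_mul_of_nonneg_left h2 hc0))
    · rw [Finset.not_nonempty_iff_eq_empty] at he
      have hconst : ∀ x, φ x = m := by
        intro x
        by_contra hx
        have : φ x ∈ (univ.image φ).erase m := Finset.mem_erase.2
          ⟨hx, Finset.mem_image_of_mem φ (mem_univ x)⟩
        rw [he] at this
        exact absurd this (Finset.notMem_empty _)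
      have hl : ∑ s, w s * |∑ x, a s x * φ x| = 0 := by
        refine Finset.sum_eq_zero fun s _ => ?_
        have : ∑ x, a s x * φ x = 0 := by
          simp only [hconst]
          rw [← Finset.sum_mul, ha s, zero_mul]
        rw [this]; simp
      rw [hl]
      exact Finset.sum_nonneg fun t _ => mul_nonneg (hu t) (abs_nonneg _)

theorem coa_real (w : S → ℝ) (hw : ∀ s, 0 ≤ w s) (a : S → X → ℝ) (ha : ∀ s, ∑ x, a s x = 0)
    (u : T → ℝ) (hu : ∀ t, 0 ≤ u t) (p q : T → X)
    (h : ∀ A : Finset X, ∑ s, w s * |∑ x, a s x * ind A x| ≤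
      ∑ t, u t * |ind A (p t) - ind A (q t)|) (φ : X → ℝ) :
    ∑ s, w s * |∑ x, a s x * φ x| ≤ ∑ t, u t * |φ (p t) - φ (q t)| :=
  coa_ind w hw a ha u hu p q h _ φ le_rfl

theorem coa_L1 (w : S → ℝ) (hw : ∀ s, 0 ≤ w s) (a : S → X → ℝ) (ha : ∀ s, ∑ x, a s x = 0)
    (u : T → ℝ) (hu : ∀ t, 0 ≤ u t) (p q : T → X)
    (h : ∀ A : Finset X, ∑ s, w s * |∑ x, a s x * ind A x| ≤
      ∑ t, u t * |ind A (p t) - ind A (q t)|) (φ : X → L1) :
    ∑ s, w s * ‖∑ x, a s x • φ x‖ ≤ ∑ t, u t * ‖φ (p t) - φ (q t)‖ := by
  set μ := MeasureTheory.volume.restrict (Set.Icc (0 : ℝ) 1) with hμ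
  have hs1 : ∀ s, ((∑ x, a s x • φ x : L1) : ℝ → ℝ) =ᵐ[μ]
      fun r => ∑ x, a s x * (φ x : ℝ → ℝ) r := by
    intro s
    have h1 := MeasureTheory.Lp.coeFn_finsetSum (μ := μ) (univ : Finset X)
      (fun x => a s x • φ x)
    have h2 : ∀ᵐ r ∂μ, ∀ x, ((a s x • φ x : L1) : ℝ → ℝ) r = a s x * (φ x : ℝ → ℝ) r := by
      rw [MeasureTheory.ae_all_iff]
      intro x
      filter_upwards [MeasureTheory.Lp.coeFn_smul (a s x) (φ x)] with r hr
      rw [hr]; rfl
    filter_upwards [h1, h2] with r hr1 hr2
    rw [hr1]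
    simp only [Finset.sum_apply]
    exact Finset.sum_congr rfl fun x _ => hr2 x
  have hs2 : ∀ t, ((φ (p t) - φ (q t) : L1) : ℝ → ℝ) =ᵐ[μ]
      fun r => (φ (p t) : ℝ → ℝ) r - (φ (q t) : ℝ → ℝ) r := by
    intro t
    filter_upwards [MeasureTheory.Lp.coeFn_sub (φ (p t)) (φ (q t))] with r hr
    rw [hr]; rfl
  have hi : ∀ x, MeasureTheory.Integrable (φ x : ℝ → ℝ) μ := fun x =>
    MeasureTheory.L1.integrable_coeFn (φ x)
  have hn1 : ∀ s, ‖∑ x, a s x • φ x‖ = ∫ r, |∑ x, a s x * (φ x : ℝ → ℝ) r| ∂μ := by
    intro s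
    rw [MeasureTheory.L1.norm_eq_integral_norm]
    refine MeasureTheory.integral_congr_ae ?_
    filter_upwards [hs1 s] with r hr
    rw [hr, Real.norm_eq_abs]
  have hn2 : ∀ t, ‖φ (p t) - φ (q t)‖ =
      ∫ r, |(φ (p t) : ℝ → ℝ) r - (φ (q t) : ℝ → ℝ) r| ∂μ := by
    intro t
    rw [MeasureTheory.L1.norm_eq_integral_norm]
    refine MeasureTheory.integral_congr_ae ?_
    filter_upwards [hs2 t] with r hr
    rw [hr, Real.norm_eq_abs]
  have hi1 : ∀ s, MeasureTheory.Integrable
      (fun r => w s * |∑ x, a s x * (φ x : ℝ → ℝ) r|) μ := fun s =>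
    ((MeasureTheory.integrable_finsetSum _ fun x _ => (hi x).const_mul (a s x)).abs).const_mul _
  have hi2 : ∀ t, MeasureTheory.Integrable
      (fun r => u t * |(φ (p t) : ℝ → ℝ) r - (φ (q t) : ℝ → ℝ) r|) μ := fun t =>
    (((hi (p t)).sub (hi (q t))).abs).const_mul _
  calc ∑ s, w s * ‖∑ x, a s x • φ x‖
      = ∫ r, ∑ s, w s * |∑ x, a s x * (φ x : ℝ → ℝ) r| ∂μ := by
        rw [MeasureTheory.integral_finsetSum _ fun s _ => hi1 s]
        refine Finset.sum_congr rfl fun s _ => ?_
        rw [MeasureTheory.integral_const_mul, hn1 s]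
    _ ≤ ∫ r, ∑ t, u t * |(φ (p t) : ℝ → ℝ) r - (φ (q t) : ℝ → ℝ) r| ∂μ := by
        refine MeasureTheory.integral_mono (MeasureTheory.integrable_finsetSum _ fun s _ => hi1 s)
          (MeasureTheory.integrable_finsetSum _ fun t _ => hi2 t) fun r => ?_
        exact coa_real w hw a ha u hu p q h fun x => (φ x : ℝ → ℝ) r
    _ = ∑ t, u t * ‖φ (p t) - φ (q t)‖ := by
        rw [MeasureTheory.integral_finsetSum _ fun t _ => hi2 t]
        refine Finset.sum_congr rfl fun t _ => ?_
        rw [MeasureTheory.integral_const_mul, hn2 t]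

end Pool.Agent.GrO
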