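import Pool.Agent.GrO.Fin
import Pool.Agent.GrU.Emb

/-!
The orders of the distortion.
-/

set_option autoImplicit false

namespace Pool.Agent.GrO

open Finset Pool.Agent.MP_12e089_an Pool.Agent.KhN

theorem log_ratio {Δ k : ℕ} (hΔ : 2 ≤ Δ) (hk : 1 ≤ k) :
    Real.log Δ ≤ (1 + Real.logb 2 k) * Real.log (2 + (Δ : ℝ) / k) := by
  have hk0 : (0 : ℝ) < k := by exact_mod_cast hk
  have hΔ0 : (0 : ℝ) < Δ := by exact_mod_cast (by omega : 0 < Δ)
  have hq : 0 < (Δ : ℝ) / k := by positivity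
  have h2 : 0 < Real.log 2 := Real.log_pos (by norm_num)
  have h1 : Real.log Δ ≤ Real.log k + Real.log (2 + (Δ : ℝ) / k) := by
    rw [← Real.log_mul hk0.ne' (by positivity)]
    refine Real.log_le_log hΔ0 ?_
    rw [mul_add, mul_div_cancel₀ _ hk0.ne']
    linarith
  have h3 : Real.log k = Real.logb 2 k * Real.log 2 := by
    unfold Real.logb
    field_simp
  have h4 : Real.log 2 ≤ Real.log (2 + (Δ : ℝ) / k) := Real.log_le_log (by norm_num) (by linarith)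
  have h5 : 0 ≤ Real.logb 2 k := Real.logb_nonneg (by norm_num) (by exact_mod_cast hk)
  have h6 : Real.logb 2 k * Real.log 2 ≤ Real.logb 2 k * Real.log (2 + (Δ : ℝ) / k) :=
    mul_le_mul_of_nonneg_left h4 h5
  rw [add_mul, one_mul]
  linarith

theorem up2 {Δ d s : ℕ} (hΔ : 2 ≤ Δ) (hd : 1 ≤ d) (hs : 1 ≤ s) :
    cY2 Δ d s ≤ 70 * (Real.sqrt d * Real.log Δ) := by
  have hΔ0 : (0 : ℝ) < Δ := by exact_mod_cast (by omega : 0 < Δ)
  have h2 : 0 < Real.log 2 := Real.log_pos (by norm_num)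
  have h2a := Real.log_two_gt_d9
  have h2b := Real.log_two_lt_d9
  have hJ : Δ ≤ 2 ^ Nat.clog 2 Δ := Nat.le_pow_clog (by norm_num) Δ
  have hJ1 : 1 ≤ Nat.clog 2 Δ := Nat.clog_pos (by norm_num) hΔ
  have h3 := c1_le (GrU.embed2 (Δ := Δ) (d := d) (s := s) (by omega) hJ hJ1 hd hs)
  refine le_trans h3 ?_
  -- the exponent
  have h4 : ((Nat.clog 2 Δ : ℕ) : ℝ) ≤ 1 + Real.log Δ / Real.log 2 := by
    have h5 : 2 ^ (Nat.clog 2 Δ - 1) < Δ := by
      have := Nat.pow_pred_clog_lt_self (b := 2) (by norm_num) (by omega : 1 < Δ)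
      simpa using this
    have h6 : ((2 : ℝ) ^ (Nat.clog 2 Δ - 1)) < Δ := by exact_mod_cast h5
    have h7 := Real.log_lt_log (by positivity) h6
    rw [Real.log_pow] at h7
    have h8 : ((Nat.clog 2 Δ - 1 : ℕ) : ℝ) ≤ Real.log Δ / Real.log 2 := by
      rw [le_div_iff₀ h2]
      exact h7.le
    have h9 : ((Nat.clog 2 Δ : ℕ) : ℝ) = ((Nat.clog 2 Δ - 1 : ℕ) : ℝ) + 1 := by
      rw [← Nat.cast_succ]
      congr 1
      omega
    linarith
  have h10 : Real.log 2 ≤ Real.log Δ := Real.log_le_log (by norm_num) (by exact_mod_cast hΔ)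
  have h11 : Real.log Δ / Real.log 2 ≤ 1.45 * Real.log Δ := by
    rw [div_le_iff₀ h2]
    have : 0 < Real.log Δ := by linarith
    nlinarith
  have h12 := Real.sqrt_nonneg (d : ℝ)
  have h13 : 16 * (((Nat.clog 2 Δ : ℕ) : ℝ) + 1) ≤ 70 * Real.log Δ := by
    nlinarith
  calc 16 * Real.sqrt d * (((Nat.clog 2 Δ : ℕ) : ℝ) + 1)
      = Real.sqrt d * (16 * (((Nat.clog 2 Δ : ℕ) : ℝ) + 1)) := by ring
    _ ≤ Real.sqrt d * (70 * Real.log Δ) := mul_le_mul_of_nonneg_left h13 h12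
    _ = _ := by ring

theorem one_le {Δ d s m : ℕ} (hΔ : 2 ≤ Δ) (hd : 1 ≤ d) (hs : 1 ≤ s) (hs' : s < Δ ^ d)
    (hm : m = min s (Δ ^ d - s)) : 1 ≤ cY1 Δ d s ∧ 1 ≤ cY2 Δ d s := by
  have h := Order.main hΔ hd hs hs' hm
  exact ⟨(le_max_left _ _).trans h.1.1, (le_max_left _ _).trans h.2.1⟩

theorem up_both {Δ d s m : ℕ} (hΔ : 2 ≤ Δ) (hd : 1 ≤ d) (hs : 1 ≤ s) (hs' : s < Δ ^ d)
    (hm : m = min s (Δ ^ d - s)) :
    cY1 Δ d s ≤ 180 * (1 + Real.log m) ∧ cY2 Δ d s ≤ 180 * (1 + Real.log m) := by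
  have h := Order.main hΔ hd hs hs' hm
  have h1 : cY1 Δ d s ≤ 6 + 180 * Real.log m := h.1.2
  have h2 : cY2 Δ d s ≤ 6 + 180 * Real.log m := h.2.2.trans (min_le_left _ _)
  exact ⟨by linarith, by linarith⟩

/-- The order for fixed `d ≥ 3`. -/
theorem fixed_d {d : ℕ} (hd : 3 ≤ d) : ∃ c C : ℝ, 0 < c ∧ 0 < C ∧ ∀ Δ s m : ℕ,
    2 ≤ Δ → 1 ≤ s → s < Δ ^ d → m = min s (Δ ^ d - s) →
    (c * (1 + Real.log m) ≤ cY1 Δ d s ∧ cY1 Δ d s ≤ C * (1 + Real.log m)) ∧
    (c * (1 + Real.log m) ≤ cY2 Δ d s ∧ cY2 Δ d s ≤ C * (1 + Real.log m)) := by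
  have hd0 : (0 : ℝ) < d := by exact_mod_cast (by omega : 0 < d)
  have hd1 : (1 : ℝ) ≤ d := by exact_mod_cast (by omega : 1 ≤ d)
  have hlb : 0 ≤ Real.logb 2 d := Real.logb_nonneg (by norm_num) hd1
  obtain ⟨K, hK⟩ : ∃ K, K = 1 + Real.logb 2 (d : ℝ) := ⟨_, rfl⟩
  have hK1 : 1 ≤ K := by linarith
  have hK0 : 0 < K := by linarith
  have hdK : 1 ≤ d * K := one_le_mul_of_one_le_of_one_le hd1 hK1
  refine ⟨1 / (400000 * (d * K)), 180, by positivity, by norm_num, fun Δ s m hΔ hs hs' hm => ?_⟩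
  obtain ⟨hm1, hL0, hLd⟩ := Order.m_facts hs hs' hm
  obtain ⟨hu1, hu2⟩ := up_both hΔ (by omega) hs hs' hm
  obtain ⟨ho1, ho2⟩ := one_le hΔ (by omega) hs hs' hm
  have hr := log_ratio (Δ := Δ) (k := d) hΔ (by omega)
  rw [← hK] at hr
  have hlow1 := low1 hΔ hd hs hs' hm
  have hlow2 := low2 hΔ (le_refl 3) hd hs hs' hm
  have key : ∀ X : ℝ, 1 ≤ X → Real.log m / (200000 * (d * K)) ≤ X →
      1 / (400000 * (d * K)) * (1 + Real.log m) ≤ X := by
    intro X h1 h2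
    have h3 : 1 / (400000 * (d * K)) ≤ 1 / 2 := by
      refine div_le_div_of_nonneg_left (by norm_num) (by norm_num) (by linarith)
    have h4 : 1 / (400000 * (d * K)) * Real.log m = Real.log m / (200000 * (d * K)) / 2 := by
      field_simp
      ring
    rw [mul_add, mul_one, h4]
    linarith
  refine ⟨⟨key _ ho1 ?_, hu1⟩, ⟨key _ ho2 ?_, hu2⟩⟩
  · refine le_trans ?_ hlow1
    have h1 : Real.log m / (d * K) ≤ min (Real.log m) (d * Real.log (2 + (Δ : ℝ) / d)) := by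
      refine le_min (div_le_self hL0 hdK) ?_
      rw [div_le_iff₀ (by positivity)]
      have h2 : (d : ℝ) * Real.log Δ ≤ d * (K * Real.log (2 + (Δ : ℝ) / d)) :=
        mul_le_mul_of_nonneg_left hr hd0.le
      have h3 : 0 ≤ (d : ℝ) * (K * Real.log (2 + (Δ : ℝ) / d)) := by
        refine le_trans ?_ h2
        exact le_trans hL0 hLd
      nlinarith
    calc Real.log m / (200000 * (d * K)) = 1 / 200000 * (Real.log m / (d * K)) := by
          field_simp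
      _ ≤ _ := mul_le_mul_of_nonneg_left h1 (by norm_num)
  · refine le_trans ?_ hlow2
    have hr3 := log_ratio (Δ := Δ) (k := 3) hΔ (by omega)
    have hK3 : 1 + Real.logb 2 ((3 : ℕ) : ℝ) ≤ K := by
      rw [hK]
      have : Real.logb 2 ((3 : ℕ) : ℝ) ≤ Real.logb 2 (d : ℝ) :=
        Real.logb_le_logb_of_le (by norm_num) (by norm_num) (by exact_mod_cast hd)
      linarith
    have hl3 : 0 ≤ Real.log (2 + (Δ : ℝ) / ((3 : ℕ) : ℝ)) := Real.log_nonneg (by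
      have : 0 ≤ (Δ : ℝ) / ((3 : ℕ) : ℝ) := by positivity
      linarith)
    have hr3' : Real.log Δ ≤ K * Real.log (2 + (Δ : ℝ) / ((3 : ℕ) : ℝ)) :=
      hr3.trans (mul_le_mul_of_nonneg_right hK3 hl3)
    have h1 : Real.log m / (d * K) ≤
        min (Real.log m / ((3 : ℕ) : ℝ)) (Real.log (2 + (Δ : ℝ) / ((3 : ℕ) : ℝ))) := by
      refine le_min ?_ ?_
      · refine div_le_div_of_nonneg_left hL0 (by norm_num) ?_
        have : (3 : ℝ) ≤ d := by exact_mod_cast hd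
        push_cast
        nlinarith
      · rw [div_le_iff₀ (by positivity)]
        have h2 : (d : ℝ) * Real.log Δ ≤ d * (K * Real.log (2 + (Δ : ℝ) / ((3 : ℕ) : ℝ))) :=
          mul_le_mul_of_nonneg_left hr3' hd0.le
        linarith
    have h4 : 1 ≤ Real.sqrt ((3 : ℕ) : ℝ) := Real.one_le_sqrt.2 (by norm_num)
    have h5 : 0 ≤ Real.log m / (d * K) := by positivity
    calc Real.log m / (200000 * (d * K)) = 1 / 200000 * (1 * (Real.log m / (d * K))) := by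
          field_simp
      _ ≤ 1 / 200000 * (Real.sqrt ((3 : ℕ) : ℝ) *
          min (Real.log m / ((3 : ℕ) : ℝ)) (Real.log (2 + (Δ : ℝ) / ((3 : ℕ) : ℝ)))) := by
          refine mul_le_mul_of_nonneg_left ?_ (by norm_num)
          exact mul_le_mul h4 h1 h5 (Real.sqrt_nonneg _)

/-- The order for the `ℓ_1` metric if `Δ ≥ d^(1+ε)`. -/
theorem large_Δ {ε : ℝ} (hε : 0 < ε) : ∃ c C : ℝ, 0 < c ∧ 0 < C ∧ ∀ Δ d s m : ℕ,
    2 ≤ Δ → 3 ≤ d → (d : ℝ) ^ (1 + ε) ≤ Δ → 1 ≤ s → s < Δ ^ d → m = min s (Δ ^ d - s) →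
    c * (1 + Real.log m) ≤ cY1 Δ d s ∧ cY1 Δ d s ≤ C * (1 + Real.log m) := by
  obtain ⟨K, hK⟩ : ∃ K, K = (1 + ε) / ε := ⟨_, rfl⟩
  have hK1 : 1 ≤ K := by
    rw [hK, le_div_iff₀ hε]
    linarith
  have hK0 : 0 < K := by linarith
  refine ⟨1 / (400000 * K), 180, by positivity, by norm_num,
    fun Δ d s m hΔ hd hdΔ hs hs' hm => ?_⟩
  have hd0 : (0 : ℝ) < d := by exact_mod_cast (by omega : 0 < d)
  have hΔ0 : (0 : ℝ) < Δ := by exact_mod_cast (by omega : 0 < Δ)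
  obtain ⟨hm1, hL0, hLd⟩ := Order.m_facts hs hs' hm
  obtain ⟨hu1, _⟩ := up_both hΔ (by omega) hs hs' hm
  obtain ⟨ho1, _⟩ := one_le hΔ (by omega) hs hs' hm
  have hlow1 := low1 hΔ hd hs hs' hm
  have h1 : (1 + ε) * Real.log d ≤ Real.log Δ := by
    rw [← Real.log_rpow hd0]
    exact Real.log_le_log (by positivity) hdΔ
  have h2 : Real.log Δ - Real.log d ≤ Real.log (2 + (Δ : ℝ) / d) := by
    rw [← Real.log_div hΔ0.ne' hd0.ne']
    exact Real.log_le_log (by positivity) (by linarith)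
  have h3 : Real.log Δ ≤ K * Real.log (2 + (Δ : ℝ) / d) := by
    have h4 : Real.log Δ * ε ≤ (1 + ε) * (Real.log Δ - Real.log d) := by nlinarith
    have h5 : Real.log Δ ≤ K * (Real.log Δ - Real.log d) := by
      rw [hK, div_mul_eq_mul_div, le_div_iff₀ hε]
      exact h4
    exact h5.trans (mul_le_mul_of_nonneg_left h2 hK0.le)
  refine ⟨?_, hu1⟩
  have h6 : Real.log m / K ≤ min (Real.log m) (d * Real.log (2 + (Δ : ℝ) / d)) := by
    refine le_min (div_le_self hL0 hK1) ?_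
    rw [div_le_iff₀ hK0]
    have : (d : ℝ) * Real.log Δ ≤ d * (K * Real.log (2 + (Δ : ℝ) / d)) :=
      mul_le_mul_of_nonneg_left h3 hd0.le
    linarith
  have h7 : 1 / (400000 * K) * (1 + Real.log m) =
      1 / (400000 * K) + 1 / 200000 * (Real.log m / K) / 2 := by
    field_simp
    ring
  have h8 : 1 / (400000 * K) ≤ 1 / 2 :=
    div_le_div_of_nonneg_left (by norm_num) (by norm_num) (by linarith)
  rw [h7]
  linarith

/-- The lower bound for the `ℓ_2` metric if `Δ ≥ d^2`. -/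
theorem low2_sqrt {Δ d s m : ℕ} (hd : 3 ≤ d) (hdΔ : d ^ 2 ≤ Δ) (hs : 1 ≤ s)
    (hs' : s < Δ ^ d) (hm : m = min s (Δ ^ d - s)) :
    1 / 2000000 * Real.sqrt (Real.log m * min (Real.log m) (Real.log Δ)) ≤ cY2 Δ d s := by
  have hΔ9 : 9 ≤ Δ := le_trans (by nlinarith) hdΔ
  have hΔ : 2 ≤ Δ := by omega
  have hd0 : (0 : ℝ) < d := by exact_mod_cast (by omega : 0 < d)
  have hΔ0 : (0 : ℝ) < Δ := by exact_mod_cast (by omega : 0 < Δ)
  obtain ⟨hm1, hL0, hLd⟩ := Order.m_facts hs hs' hm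
  obtain ⟨L, hL⟩ : ∃ L, L = Real.log m := ⟨_, rfl⟩
  obtain ⟨l, hl⟩ : ∃ l, l = Real.log Δ := ⟨_, rfl⟩
  rw [← hL] at hL0 hLd ⊢
  rw [← hl] at hLd ⊢
  have hl0 : 0 < l := by
    rw [hl]
    exact Real.log_pos (by exact_mod_cast (by omega : 1 < Δ))
  rcases le_or_gt L (3 * l) with hA | hA
  · have h1 := low2 hΔ (le_refl 3) hd hs hs' hm
    rw [← hL] at h1
    have hr3 := log_ratio (Δ := Δ) (k := 3) hΔ (by omega)
    rw [← hl] at hr3
    have hb3 : Real.logb 2 ((3 : ℕ) : ℝ) ≤ 2 := by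
      rw [Real.logb_le_iff_le_rpow (by norm_num) (by norm_num)]
      norm_num
    have hX0 : 0 ≤ Real.log (2 + (Δ : ℝ) / ((3 : ℕ) : ℝ)) := Real.log_nonneg (by
      have : 0 ≤ (Δ : ℝ) / ((3 : ℕ) : ℝ) := by positivity
      linarith)
    have hX : l / 3 ≤ Real.log (2 + (Δ : ℝ) / ((3 : ℕ) : ℝ)) := by
      have : (1 + Real.logb 2 ((3 : ℕ) : ℝ)) * Real.log (2 + (Δ : ℝ) / ((3 : ℕ) : ℝ)) ≤
          3 * Real.log (2 + (Δ : ℝ) / ((3 : ℕ) : ℝ)) :=
        mul_le_mul_of_nonneg_right (by linarith) hX0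
      linarith
    have h2 : L / 9 ≤ min (L / ((3 : ℕ) : ℝ)) (Real.log (2 + (Δ : ℝ) / ((3 : ℕ) : ℝ))) := by
      refine le_min ?_ (by linarith)
      push_cast
      linarith
    have h3 : (1.7 : ℝ) ≤ Real.sqrt ((3 : ℕ) : ℝ) := by
      refine Real.le_sqrt_of_sq_le ?_
      norm_num
    have h4 : 1.7 * (L / 9) ≤ Real.sqrt ((3 : ℕ) : ℝ) *
        min (L / ((3 : ℕ) : ℝ)) (Real.log (2 + (Δ : ℝ) / ((3 : ℕ) : ℝ))) :=
      mul_le_mul h3 h2 (by positivity) (Real.sqrt_nonneg _)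
    have h5 : Real.sqrt (L * min L l) ≤ L := by
      refine Real.sqrt_le_iff.2 ⟨hL0, ?_⟩
      have := min_le_left L l
      nlinarith
    linarith
  · -- many points
    have hq : 3 < L / l := by
      rw [lt_div_iff₀ hl0]
      exact hA
    have hk3 : 3 ≤ ⌊L / l⌋₊ := Nat.le_floor (by exact_mod_cast hq.le)
    have hkd : ⌊L / l⌋₊ ≤ d := by
      have h1 : L / l ≤ d := by
        rw [div_le_iff₀ hl0]
        exact hLd
      exact_mod_cast (Nat.floor_le (by positivity)).trans h1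
    obtain ⟨k, hk⟩ : ∃ k, k = ⌊L / l⌋₊ := ⟨_, rfl⟩
    rw [← hk] at hk3 hkd
    have hk0 : (0 : ℝ) < k := by exact_mod_cast (by omega : 0 < k)
    have hkle : (k : ℝ) ≤ L / l := by
      rw [hk]
      exact Nat.floor_le (by positivity)
    have hkge : L / l < k + 1 := by
      rw [hk]
      exact Nat.lt_floor_add_one _
    have h1 := low2 hΔ hk3 hkd hs hs' hm
    rw [← hL] at h1
    have h2 : l / 2 ≤ L / k := by
      rw [le_div_iff₀ hk0]
      have : (k : ℝ) * l ≤ L := by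
        rwa [le_div_iff₀ hl0] at hkle
      nlinarith
    have h3 : l / 2 ≤ Real.log (2 + (Δ : ℝ) / k) := by
      have h4 : Real.log k ≤ l / 2 := by
        have h5 : (k : ℝ) ^ 2 ≤ Δ := by
          have : k ^ 2 ≤ Δ := le_trans (Nat.pow_le_pow_left hkd 2) hdΔ
          exact_mod_cast this
        have h6 := Real.log_le_log (by positivity) h5
        rw [Real.log_pow, ← hl] at h6
        push_cast at h6
        linarith
      have h5 : l - Real.log k ≤ Real.log (2 + (Δ : ℝ) / k) := by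
        rw [hl, ← Real.log_div hΔ0.ne' hk0.ne']
        exact Real.log_le_log (by positivity) (by linarith)
      linarith
    have h4 : Real.sqrt (L / (2 * l)) ≤ Real.sqrt k := by
      refine Real.sqrt_le_sqrt ?_
      have : L / (2 * l) = L / l / 2 := by
        field_simp
      rw [this]
      linarith
    have h5 : Real.sqrt (L / (2 * l)) * (l / 2) ≤
        Real.sqrt k * min (L / k) (Real.log (2 + (Δ : ℝ) / k)) :=
      mul_le_mul h4 (le_min h2 h3) (by positivity) (Real.sqrt_nonneg _)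
    have h6 : Real.sqrt (L * min L l) ≤ 5 * (Real.sqrt (L / (2 * l)) * (l / 2)) := by
      refine Real.sqrt_le_iff.2 ⟨by positivity, ?_⟩
      have h7 : Real.sqrt (L / (2 * l)) ^ 2 = L / (2 * l) := Real.sq_sqrt (by positivity)
      have h8 : (5 * (Real.sqrt (L / (2 * l)) * (l / 2))) ^ 2 =
          25 / 4 * l ^ 2 * Real.sqrt (L / (2 * l)) ^ 2 := by ring
      rw [h8, h7]
      have h9 : 25 / 4 * l ^ 2 * (L / (2 * l)) = 25 / 8 * (L * l) := by
        field_simp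
        ring
      rw [h9]
      have h10 : L * min L l ≤ L * l := mul_le_mul_of_nonneg_left (min_le_right _ _) hL0
      nlinarith [mul_nonneg hL0 hl0.le]
    have h11 : 0 ≤ Real.sqrt (L / (2 * l)) * (l / 2) := by positivity
    linarith

/-- The order for the `ℓ_2` metric if `Δ ≥ d^2` and `log m ≥ θ d log Δ`. -/
theorem dense2 {θ : ℝ} (hθ : 0 < θ) : ∃ c C : ℝ, 0 < c ∧ 0 < C ∧ ∀ Δ d s m : ℕ,
    3 ≤ d → d ^ 2 ≤ Δ → 1 ≤ s → s < Δ ^ d → m = min s (Δ ^ d - s) →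
    θ * (d * Real.log Δ) ≤ Real.log m →
    c * (Real.sqrt d * Real.log Δ) ≤ cY2 Δ d s ∧
      cY2 Δ d s ≤ C * (Real.sqrt d * Real.log Δ) := by
  refine ⟨1 / 2000000 * min θ (Real.sqrt θ), 70, by
    have := Real.sqrt_pos.2 hθ
    have : 0 < min θ (Real.sqrt θ) := lt_min hθ this
    positivity, by norm_num, fun Δ d s m hd hdΔ hs hs' hm h => ?_⟩
  have hΔ9 : 9 ≤ Δ := le_trans (by nlinarith) hdΔ
  have hd1 : (1 : ℝ) ≤ d := by exact_mod_cast (by omega : 1 ≤ d)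
  refine ⟨?_, up2 (by omega) (by omega) hs⟩
  refine le_trans ?_ (low2_sqrt hd hdΔ hs hs' hm)
  obtain ⟨hm1, hL0, hLd⟩ := Order.m_facts hs hs' hm
  obtain ⟨L, hL⟩ : ∃ L, L = Real.log m := ⟨_, rfl⟩
  obtain ⟨l, hl⟩ : ∃ l, l = Real.log Δ := ⟨_, rfl⟩
  rw [← hL] at h hL0 ⊢
  rw [← hl] at h ⊢
  have hl0 : 0 < l := by
    rw [hl]
    exact Real.log_pos (by exact_mod_cast (by omega : 1 < Δ))
  have hsd := Real.sqrt_nonneg (d : ℝ)
  have hsd2 : Real.sqrt (d : ℝ) ^ 2 = d := Real.sq_sqrt (by linarith)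
  have key : min θ (Real.sqrt θ) * (Real.sqrt d * l) ≤ Real.sqrt (L * min L l) := by
    rcases le_total L l with h1 | h1
    · rw [min_eq_left h1, Real.sqrt_mul_self hL0]
      have h2 : min θ (Real.sqrt θ) * (Real.sqrt d * l) ≤ θ * (Real.sqrt d * l) :=
        mul_le_mul_of_nonneg_right (min_le_left _ _) (by positivity)
      have h3 : Real.sqrt (d : ℝ) ≤ d := by
        refine Real.sqrt_le_iff.2 ⟨by linarith, ?_⟩
        nlinarith
      have h4 : θ * (Real.sqrt d * l) ≤ θ * (d * l) :=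
        mul_le_mul_of_nonneg_left (mul_le_mul_of_nonneg_right h3 hl0.le) hθ.le
      linarith
    · rw [min_eq_right h1]
      have h2 : min θ (Real.sqrt θ) * (Real.sqrt d * l) ≤ Real.sqrt θ * (Real.sqrt d * l) :=
        mul_le_mul_of_nonneg_right (min_le_right _ _) (by positivity)
      refine h2.trans (Real.le_sqrt_of_sq_le ?_)
      have h3 : (Real.sqrt θ * (Real.sqrt d * l)) ^ 2 =
          Real.sqrt θ ^ 2 * Real.sqrt (d : ℝ) ^ 2 * l ^ 2 := by ring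
      rw [h3, Real.sq_sqrt hθ.le, hsd2]
      nlinarith
  calc 1 / 2000000 * min θ (Real.sqrt θ) * (Real.sqrt d * l)
      = 1 / 2000000 * (min θ (Real.sqrt θ) * (Real.sqrt d * l)) := by ring
    _ ≤ _ := mul_le_mul_of_nonneg_left key (by norm_num)

end Pool.Agent.GrO
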