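import Pool.Agent.GrO.Low
import Pool.Agent.MP_12e089_an.Order

/-!
Choice of the parameters: the multi-scale lower bounds in terms of `Δ`, `d` and `m`.
-/

set_option autoImplicit false

namespace Pool.Agent.GrO

open Finset Pool.Agent.MP_12e089_an Pool.Agent.KhN

/-- The choice of `J`. -/
theorem choose_J {Δ k m : ℕ} (hΔ : 1 ≤ Δ) (hk : 1 ≤ k) (hm : 1 ≤ m) {T : ℝ} (hT : 22 ≤ T)
    (h1 : 11 * k * T ≤ Real.logb 2 m) (h2 : 11 * T ≤ Real.logb 2 ((Δ : ℝ) / (4 * k))) :
    ∃ J : ℕ, 11 ≤ J ∧ 4 * k * 2 ^ (11 * J) ≤ Δ ∧ 2 ^ (11 * (J * k)) ≤ m ∧ T / 2 ≤ (J : ℝ) - 10 := by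
  have hT0 : 0 ≤ T := by linarith
  have hk0 : (0 : ℝ) < k := by exact_mod_cast hk
  have hm0 : (0 : ℝ) < m := by exact_mod_cast hm
  have hΔ0 : (0 : ℝ) < Δ := by exact_mod_cast hΔ
  have hfl : ((⌊T⌋₊ : ℕ) : ℝ) ≤ T := Nat.floor_le hT0
  have hfl2 : T < (⌊T⌋₊ : ℕ) + 1 := Nat.lt_floor_add_one T
  refine ⟨⌊T⌋₊, ?_, ?_, ?_, ?_⟩
  · have : (22 : ℕ) ≤ ⌊T⌋₊ := Nat.le_floor (by exact_mod_cast hT)
    omega
  · have h3 : (11 : ℝ) * (⌊T⌋₊ : ℕ) ≤ Real.logb 2 ((Δ : ℝ) / (4 * k)) := by linarith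
    have h4 : (2 : ℝ) ^ ((11 : ℝ) * (⌊T⌋₊ : ℕ)) ≤ (Δ : ℝ) / (4 * k) :=
      (Real.le_logb_iff_rpow_le (by norm_num) (by positivity)).1 h3
    have h5 : (2 : ℝ) ^ ((11 : ℝ) * (⌊T⌋₊ : ℕ)) = (2 : ℝ) ^ (11 * ⌊T⌋₊) := by
      rw [← Real.rpow_natCast]
      push_cast
      ring_nf
    rw [h5, le_div_iff₀ (by positivity)] at h4
    have h6 : (4 * (k : ℝ)) * 2 ^ (11 * ⌊T⌋₊) ≤ Δ := by linarith
    exact_mod_cast h6
  · have h3 : (11 : ℝ) * ((⌊T⌋₊ : ℕ) * k) ≤ Real.logb 2 m := by
      have : (11 : ℝ) * ((⌊T⌋₊ : ℕ) * k) ≤ 11 * k * T := by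
        nlinarith
      linarith
    have h4 : (2 : ℝ) ^ ((11 : ℝ) * ((⌊T⌋₊ : ℕ) * k)) ≤ m :=
      (Real.le_logb_iff_rpow_le (by norm_num) hm0).1 h3
    have h5 : (2 : ℝ) ^ ((11 : ℝ) * ((⌊T⌋₊ : ℕ) * k)) = (2 : ℝ) ^ (11 * (⌊T⌋₊ * k)) := by
      rw [← Real.rpow_natCast]
      push_cast
      ring_nf
    rw [h5] at h4
    exact_mod_cast h4
  · linarith

theorem log_le_logb {m : ℕ} (hm : 1 ≤ m) : Real.log m ≤ Real.logb 2 m := by
  have h2 : 0 < Real.log 2 := Real.log_pos (by norm_num)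
  have h2' : Real.log 2 ≤ 1 := by linarith [Real.log_two_lt_d9]
  have h1 : 0 ≤ Real.log m := Real.log_nonneg (by exact_mod_cast hm)
  unfold Real.logb
  rw [le_div_iff₀ h2]
  nlinarith

theorem logb_nonneg' {m : ℕ} (hm : 1 ≤ m) : 0 ≤ Real.logb 2 m :=
  Real.logb_nonneg (by norm_num) (by exact_mod_cast hm)

/-- Large quotient. -/
theorem log_big {x : ℝ} (hx : 242 ≤ Real.logb 2 (x / 4)) (hx0 : 0 < x) :
    Real.log (2 + x) ≤ 2 * Real.logb 2 (x / 4) := by
  have h2 : 0 < Real.log 2 := Real.log_pos (by norm_num)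
  have h2' : Real.log 2 ≤ 1 := by linarith [Real.log_two_lt_d9]
  have hx4 : 0 < x / 4 := by positivity
  have h1 : (2 : ℝ) ^ (242 : ℝ) ≤ x / 4 :=
    (Real.le_logb_iff_rpow_le (by norm_num) hx4).1 hx
  have h1' : (1 : ℝ) ≤ x / 4 := by
    refine le_trans ?_ h1
    exact Real.one_le_rpow (by norm_num) (by norm_num)
  have h8 : (8 : ℝ) ≤ x / 4 := by
    refine le_trans ?_ h1
    have : (8 : ℝ) = (2 : ℝ) ^ (3 : ℝ) := by
      rw [show (3 : ℝ) = ((3 : ℕ) : ℝ) by norm_num, Real.rpow_natCast]; norm_num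
    rw [this]
    exact Real.rpow_le_rpow_of_exponent_le (by norm_num) (by norm_num)
  have h3 : Real.log (2 + x) ≤ Real.log ((x / 4) ^ 2) := by
    refine Real.log_le_log (by positivity) ?_
    nlinarith
  rw [Real.log_pow] at h3
  have h4 : Real.log (x / 4) ≤ Real.logb 2 (x / 4) := by
    have h5 : 0 ≤ Real.log (x / 4) := Real.log_nonneg h1'
    unfold Real.logb
    rw [le_div_iff₀ h2]
    nlinarith
  push_cast at h3
  linarith

/-- Small quotient. -/
theorem log_small {x : ℝ} (hx : Real.logb 2 (x / 4) < 242) (hx0 : 0 < x) :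
    Real.log (2 + x) ≤ 170 := by
  have hx4 : 0 < x / 4 := by positivity
  have h1 : x / 4 < (2 : ℝ) ^ (242 : ℝ) :=
    (Real.logb_lt_iff_lt_rpow (by norm_num) hx4).1 hx
  rw [show (242 : ℝ) = ((242 : ℕ) : ℝ) by norm_num, Real.rpow_natCast] at h1
  have h2 : Real.log (2 + x) ≤ Real.log (2 ^ 245) := by
    refine Real.log_le_log (by positivity) ?_
    have : (2 : ℝ) ^ 245 = 8 * 2 ^ 242 := by norm_num
    rw [this]
    have h3 : (2 : ℝ) ≤ 2 ^ 242 := by norm_num
    linarith
  rw [Real.log_pow] at h2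
  have := Real.log_two_lt_d9
  push_cast at h2
  linarith

theorem low1 {Δ d s m : ℕ} (hΔ : 2 ≤ Δ) (hd : 3 ≤ d) (hs : 1 ≤ s) (hs' : s < Δ ^ d)
    (hm : m = min s (Δ ^ d - s)) :
    1 / 200000 * min (Real.log m) (d * Real.log (2 + (Δ : ℝ) / d)) ≤ cY1 Δ d s := by
  have hm1 : 1 ≤ m := by omega
  have hm2 : 2 * m ≤ Δ ^ d := by omega
  have hd0 : (0 : ℝ) < d := by exact_mod_cast (by omega : 0 < d)
  have hΔ0 : (0 : ℝ) < Δ := by exact_mod_cast (by omega : 0 < Δ)
  have hq0 : (0 : ℝ) < (Δ : ℝ) / d := by positivity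
  have hland := (Order.main hΔ (by omega) hs hs' hm).1.1
  have hland' : min (d : ℝ) (Real.logb 2 m) / 256 ≤ cY1 Δ d s := (le_max_right _ _).trans hland
  have hc1 : (1 : ℝ) ≤ cY1 Δ d s := (le_max_left _ _).trans hland
  have hlm := log_le_logb hm1
  have hL0 := logb_nonneg' hm1
  set L := Real.logb 2 m with hL
  have hlog0 : 0 ≤ Real.log (2 + (Δ : ℝ) / d) := Real.log_nonneg (by linarith)
  rcases lt_or_ge L (242 * d) with hA | hA
  · -- small `m`
    have h1 : min (Real.log m) (d * Real.log (2 + (Δ : ℝ) / d)) ≤ L := (min_le_left _ _).trans hlm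
    have h2 : L / 242 ≤ min (d : ℝ) L := by
      refine le_min ?_ ?_ <;> linarith
    linarith
  · rcases lt_or_ge (Real.logb 2 ((Δ : ℝ) / d / 4)) 242 with hB | hB
    · have h1 := log_small hB hq0
      have h2 : min (Real.log m) (d * Real.log (2 + (Δ : ℝ) / d)) ≤ d * 170 :=
        (min_le_right _ _).trans (by nlinarith)
      have h3 : (d : ℝ) ≤ min (d : ℝ) L := le_min le_rfl (by linarith)
      linarith
    · have h1 := log_big hB hq0
      have e : (Δ : ℝ) / (4 * d) = (Δ : ℝ) / d / 4 := by field_simp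
      set X := Real.logb 2 ((Δ : ℝ) / d / 4) with hX
      obtain ⟨J, hJ1, hJ2, hJ3, hJ4⟩ := choose_J (Δ := Δ) (k := d) (m := m) (by omega) (by omega)
        hm1 (T := min (L / (11 * d)) (X / 11))
        (by
          refine le_min ?_ (by linarith)
          rw [le_div_iff₀ (by positivity)]
          linarith)
        (by
          have := min_le_left (L / (11 * d)) (X / 11)
          calc 11 * (d : ℝ) * min (L / (11 * d)) (X / 11) ≤ 11 * d * (L / (11 * d)) := by
                refine mul_le_mul_of_nonneg_left this (by positivity)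
            _ = L := by field_simp)
        (by
          rw [e]
          have := min_le_right (L / (11 * d)) (X / 11)
          linarith)
      have hne := (Order.to_m isMet_rho1 hs hs').2
        (hm ▸ (Order.up_log (Δ := Δ) (d := d) (s := m) hΔ (by omega) hm1).1)
      have hfin : (d : ℝ) * ((J : ℝ) - 10) / 3264 ≤ cY1 Δ d s := by
        refine (le_max_right 1 _).trans (Order.lower hne fun D hD => ?_)
        have hD' := (Order.to_m isMet_rho1 hs hs').1 hD
        rw [← hm] at hD'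
        exact (main_low hJ1 hd le_rfl hJ2 hJ3 hm2).1 hD'
      have h5 : (d : ℝ) * min (L / (11 * d)) (X / 11) = min L (d * X) / 11 := by
        rw [mul_min_of_nonneg _ _ hd0.le, ← min_div_div_right (by norm_num : (0:ℝ) ≤ 11)]
        congr 1
        · field_simp
        · ring
      have h6 : min (Real.log m) (d * Real.log (2 + (Δ : ℝ) / d)) ≤ 2 * min L (d * X) := by
        rw [mul_min_of_nonneg _ _ (by norm_num : (0:ℝ) ≤ 2)]
        refine min_le_min (by linarith) ?_
        nlinarith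
      nlinarith

theorem sqrt_aux {d k : ℕ} {L : ℝ} (hk : 3 ≤ k) (hkd : k ≤ d) (hL : 0 ≤ L) {c : ℝ} (hc : 1 ≤ c) :
    Real.sqrt k * min (L / k) c ≤ c * Real.sqrt (min (d : ℝ) L) := by
  have hk0 : (0 : ℝ) < k := by exact_mod_cast (by omega : 0 < k)
  have hkd' : (k : ℝ) ≤ d := by exact_mod_cast hkd
  have hsk : 0 < Real.sqrt k := Real.sqrt_pos.2 hk0
  rcases le_total L k with h | h
  · have e : min (d : ℝ) L = L := min_eq_right (by linarith)
    rw [e]
    have h1 : Real.sqrt k * min (L / k) c ≤ Real.sqrt k * (L / k) :=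
      mul_le_mul_of_nonneg_left (min_le_left _ _) hsk.le
    have h2 : Real.sqrt k * (L / k) = L / Real.sqrt k := by
      rw [eq_div_iff hsk.ne']
      have := Real.mul_self_sqrt hk0.le
      field_simp
      nlinarith
    have h3 : L / Real.sqrt k ≤ Real.sqrt L := by
      rw [div_le_iff₀ hsk]
      calc L = Real.sqrt L * Real.sqrt L := (Real.mul_self_sqrt hL).symm
        _ ≤ Real.sqrt L * Real.sqrt k :=
          mul_le_mul_of_nonneg_left (Real.sqrt_le_sqrt h) (Real.sqrt_nonneg _)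
    have h4 := Real.sqrt_nonneg L
    nlinarith
  · have h1 : Real.sqrt k * min (L / k) c ≤ Real.sqrt k * c :=
      mul_le_mul_of_nonneg_left (min_le_right _ _) hsk.le
    have h2 : Real.sqrt k ≤ Real.sqrt (min (d : ℝ) L) := Real.sqrt_le_sqrt (le_min hkd' h)
    nlinarith

theorem low2 {Δ d s m k : ℕ} (hΔ : 2 ≤ Δ) (hk : 3 ≤ k) (hkd : k ≤ d) (hs : 1 ≤ s)
    (hs' : s < Δ ^ d) (hm : m = min s (Δ ^ d - s)) :
    1 / 200000 * (Real.sqrt k * min (Real.log m / k) (Real.log (2 + (Δ : ℝ) / k))) ≤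
      cY2 Δ d s := by
  have hm1 : 1 ≤ m := by omega
  have hm2 : 2 * m ≤ Δ ^ d := by omega
  have hk0 : (0 : ℝ) < k := by exact_mod_cast (by omega : 0 < k)
  have hsk : 0 < Real.sqrt k := Real.sqrt_pos.2 hk0
  have hΔ0 : (0 : ℝ) < Δ := by exact_mod_cast (by omega : 0 < Δ)
  have hq0 : (0 : ℝ) < (Δ : ℝ) / k := by positivity
  have hland := (Order.main hΔ (by omega) hs hs' hm).2.1
  have hland' : Real.sqrt (min (d : ℝ) (Real.logb 2 m)) / 64 ≤ cY2 Δ d s :=
    (le_max_right _ _).trans hland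
  have hlm := log_le_logb hm1
  have hL0 := logb_nonneg' hm1
  set L := Real.logb 2 m with hL
  have hlog0 : 0 ≤ Real.log (2 + (Δ : ℝ) / k) := Real.log_nonneg (by linarith)
  have hlmk : Real.log m / k ≤ L / k := div_le_div_of_nonneg_right hlm hk0.le
  rcases lt_or_ge L (242 * k) with hA | hA
  · have h1 : Real.log m / k ≤ min (L / k) 242 := by
      refine le_min hlmk (hlmk.trans ?_)
      rw [div_le_iff₀ hk0]
      linarith
    have h2 : Real.sqrt k * min (Real.log m / k) (Real.log (2 + (Δ : ℝ) / k)) ≤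
        Real.sqrt k * min (L / k) 242 :=
      mul_le_mul_of_nonneg_left ((min_le_left _ _).trans h1) hsk.le
    have h3 := sqrt_aux hk hkd hL0 (c := 242) (by norm_num)
    have h4 := Real.sqrt_nonneg (min (d : ℝ) L)
    linarith
  · rcases lt_or_ge (Real.logb 2 ((Δ : ℝ) / k / 4)) 242 with hB | hB
    · have h1 := log_small hB hq0
      have h2 : Real.sqrt k * min (Real.log m / k) (Real.log (2 + (Δ : ℝ) / k)) ≤
          Real.sqrt k * min (L / k) 170 :=
        mul_le_mul_of_nonneg_left (min_le_min hlmk h1) hsk.le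
      have h3 := sqrt_aux hk hkd hL0 (c := 170) (by norm_num)
      have h4 := Real.sqrt_nonneg (min (d : ℝ) L)
      linarith
    · have h1 := log_big hB hq0
      have e : (Δ : ℝ) / (4 * k) = (Δ : ℝ) / k / 4 := by field_simp
      set X := Real.logb 2 ((Δ : ℝ) / k / 4) with hX
      obtain ⟨J, hJ1, hJ2, hJ3, hJ4⟩ := choose_J (Δ := Δ) (k := k) (m := m) (by omega) (by omega)
        hm1 (T := min (L / (11 * k)) (X / 11))
        (by
          refine le_min ?_ (by linarith)
          rw [le_div_iff₀ (by positivity)]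
          linarith)
        (by
          have := min_le_left (L / (11 * k)) (X / 11)
          calc 11 * (k : ℝ) * min (L / (11 * k)) (X / 11) ≤ 11 * k * (L / (11 * k)) := by
                refine mul_le_mul_of_nonneg_left this (by positivity)
            _ = L := by field_simp)
        (by
          rw [e]
          have := min_le_right (L / (11 * k)) (X / 11)
          linarith)
      have hne := (Order.to_m isMet_rho2 hs hs').2
        (hm ▸ (Order.up_log (Δ := Δ) (d := d) (s := m) hΔ (by omega) hm1).2)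
      have hfin : Real.sqrt k * ((J : ℝ) - 10) / 3264 ≤ cY2 Δ d s := by
        refine (le_max_right 1 _).trans (Order.lower hne fun D hD => ?_)
        have hD' := (Order.to_m isMet_rho2 hs hs').1 hD
        rw [← hm] at hD'
        exact (main_low hJ1 hk hkd hJ2 hJ3 hm2).2 hD'
      have h5 : min (L / (11 * k)) (X / 11) = min (L / k) X / 11 := by
        rw [← min_div_div_right (by norm_num : (0:ℝ) ≤ 11)]
        congr 1
        field_simp
      have h6 : min (Real.log m / k) (Real.log (2 + (Δ : ℝ) / k)) ≤ 2 * min (L / k) X := by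
        rw [mul_min_of_nonneg _ _ (by norm_num : (0:ℝ) ≤ 2)]
        have hLk : 0 ≤ L / k := by positivity
        exact min_le_min (by linarith) h1
      rw [h5] at hJ4
      have h7 : Real.sqrt k * min (Real.log m / k) (Real.log (2 + (Δ : ℝ) / k)) ≤
          Real.sqrt k * (2 * min (L / k) X) := mul_le_mul_of_nonneg_left h6 hsk.le
      have h8 : Real.sqrt k * (min (L / k) X / 11 / 2) ≤ Real.sqrt k * ((J : ℝ) - 10) :=
        mul_le_mul_of_nonneg_left hJ4 hsk.le
      have h9 : 0 ≤ min (L / k) X := le_min (by positivity) (by linarith)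
      have h10 : 0 ≤ Real.sqrt k * min (L / k) X := by positivity
      nlinarith

end Pool.Agent.GrO
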