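import Pool.Agent.GrO.Basic

/-!
MODULE Ball (M). Balls of radius `k 2^i / 17` (`ℓ_1`) and `√k 2^i / 17` (`ℓ_2`) in the grid `[n]^k` have
at most `2^(i k) / 2` points, for `i ≥ 5`.

Proof of `ball1`. Put `ℓ = 2^i ≥ 32`, `r = k ℓ / 17`, `λ = k / r = 17 / ℓ ≤ 17/32`. For every `y` with
`rho1 x y < r`: `1 ≤ exp (λ (r - rho1 x y))`, so the number of such `y` is at most
`exp (λ r) ∑_y ∏_i exp (-λ |x_i - y_i|) = e^k ∏_i ∑_{t < n} exp (-λ |x_i - t|)
≤ e^k (∑_{m ∈ ℤ} e^(-λ|m|))^k = e^k ((1+e^(-λ))/(1-e^(-λ)))^k ≤ (3 e / λ)^k = (3 e ℓ / 17)^k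
≤ (ℓ/2)^k ≤ ℓ^k / 2`. Here `(1+e^(-λ))/(1-e^(-λ)) ≤ 3/λ` for `0 < λ ≤ 1` (e.g.
`1 - e^(-λ) ≥ λ - λ^2/2`, `1 + e^(-λ) ≤ 2 - λ + λ^2/2`, and `λ (2 - λ + λ^2/2) ≤ 3 (λ - λ^2/2)`),
and `6 e ≤ 17` (`Real.exp_one_lt_d9`: `e < 2.7182818286`, `6 e < 16.31`).
`ball2`: `rho1 x y ≤ √k rho2 x y` (Cauchy-Schwarz), so the `ℓ_2` ball of radius `√k ℓ / 17` is contained
in the `ℓ_1` ball of radius `k ℓ / 17`.
-/

set_option autoImplicit false

namespace Pool.Agent.GrO

open Finset Pool.Agent.MP_12e089_an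

private theorem Ball_geom {q : ℝ} (hq0 : 0 ≤ q) (hq1 : q < 1) (M : ℕ) :
    ∑ m ∈ Finset.range M, q ^ m ≤ 1 / (1 - q) := by
  have h := geom_sum_mul_neg q M
  have h1 : 0 < 1 - q := by linarith
  rw [le_div_iff₀ h1, h]
  have : 0 ≤ q ^ M := by positivity
  linarith

private theorem Ball_line {q : ℝ} (hq0 : 0 ≤ q) (hq1 : q < 1) {n a : ℕ} (ha : a < n) :
    ∑ t ∈ Finset.range n, (if t ≤ a then q ^ (a - t) else q ^ (t - a)) ≤ (1 + q) / (1 - q) := by
  have h1 : 0 < 1 - q := by linarith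
  obtain ⟨m, rfl⟩ : ∃ m, n = (a + 1) + m := ⟨n - (a + 1), by omega⟩
  rw [Finset.sum_range_add]
  have e1 : ∑ t ∈ Finset.range (a + 1), (if t ≤ a then q ^ (a - t) else q ^ (t - a)) =
      ∑ t ∈ Finset.range (a + 1), q ^ t := by
    rw [← Finset.sum_range_reflect (fun t => q ^ t) (a + 1)]
    refine Finset.sum_congr rfl fun t ht => ?_
    have ht' : t ≤ a := by
      have := Finset.mem_range.mp ht
      omega
    rw [if_pos ht']
    congr 1
  have e2 : ∑ t ∈ Finset.range m, (if a + 1 + t ≤ a then q ^ (a - (a + 1 + t)) else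
      q ^ (a + 1 + t - a)) = q * ∑ t ∈ Finset.range m, q ^ t := by
    rw [Finset.mul_sum]
    refine Finset.sum_congr rfl fun t _ => ?_
    rw [if_neg (by omega), ← pow_succ']
    congr 1
    omega
  rw [e1, e2]
  have g1 := Ball_geom hq0 hq1 (a + 1)
  have g2 := Ball_geom hq0 hq1 m
  calc _ ≤ 1 / (1 - q) + q * (1 / (1 - q)) := by gcongr
    _ = (1 + q) / (1 - q) := by field_simp

private theorem Ball_abs {n : ℕ} {lam : ℝ} (hlam : 0 < lam) (hlam1 : lam ≤ 1) (a : Fin n) :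
    ∑ t : Fin n, Real.exp (-(lam * |((a : ℕ) : ℝ) - ((t : ℕ) : ℝ)|)) ≤ 3 / lam := by
  set q := Real.exp (-lam) with hq
  have hq0 : 0 < q := Real.exp_pos _
  have hq1 : q < 1 := by
    rw [hq, Real.exp_lt_one_iff]
    linarith
  have e : ∀ t : Fin n, Real.exp (-(lam * |((a : ℕ) : ℝ) - ((t : ℕ) : ℝ)|)) =
      (fun t : ℕ => if t ≤ (a : ℕ) then q ^ ((a : ℕ) - t) else q ^ (t - (a : ℕ))) (t : ℕ) := by
    intro t
    show _ = if (t : ℕ) ≤ (a : ℕ) then q ^ ((a : ℕ) - (t : ℕ)) else q ^ ((t : ℕ) - (a : ℕ))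
    split_ifs with h
    · have h' : ((t : ℕ) : ℝ) ≤ ((a : ℕ) : ℝ) := by exact_mod_cast h
      rw [abs_of_nonneg (by linarith), hq, ← Real.exp_nat_mul]
      congr 1
      push_cast [Nat.cast_sub h]
      ring
    · have h2 : (a : ℕ) ≤ (t : ℕ) := by omega
      have h' : ((a : ℕ) : ℝ) ≤ ((t : ℕ) : ℝ) := by exact_mod_cast h2
      rw [abs_of_nonpos (by linarith), hq, ← Real.exp_nat_mul]
      congr 1
      push_cast [Nat.cast_sub h2]
      ring
  rw [Finset.sum_congr rfl fun t _ => e t,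
    Fin.sum_univ_eq_sum_range (fun t : ℕ =>
      if t ≤ (a : ℕ) then q ^ ((a : ℕ) - t) else q ^ (t - (a : ℕ))) n]
  refine (Ball_line hq0.le hq1 a.2).trans ?_
  rw [div_le_div_iff₀ (by linarith) hlam]
  have h3 : q * (1 + lam) ≤ 1 := by
    have h4 := Real.add_one_le_exp lam
    have h5 : q * Real.exp lam = 1 := by
      rw [hq, ← Real.exp_add]
      simp
    have h6 : q * (1 + lam) ≤ q * Real.exp lam := by
      apply mul_le_mul_of_nonneg_left _ hq0.le
      linarith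
    linarith
  have h7 : (3 - lam) * (q * (1 + lam)) ≤ (3 - lam) * 1 :=
    mul_le_mul_of_nonneg_left h3 (by linarith)
  have h8 : 0 ≤ q * (lam * (1 - lam)) := by
    have : 0 ≤ lam * (1 - lam) := mul_nonneg hlam.le (by linarith)
    positivity
  nlinarith [h7, h8]

open scoped Classical in
theorem ball1 {n k i : ℕ} (hk : 1 ≤ k) (hi : 5 ≤ i) (x : Grid n k) :
    2 * ((univ.filter fun y => rho1 x y < (k : ℝ) * 2 ^ i / 17).card : ℝ) ≤
      (2 : ℝ) ^ (i * k) := by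
  set L : ℝ := 2 ^ i with hL
  have hL32 : (32 : ℝ) ≤ L := by
    have : (2 : ℝ) ^ 5 ≤ 2 ^ i := pow_le_pow_right₀ (by norm_num) hi
    rw [hL]
    linarith
  have hL0 : 0 < L := by linarith
  set lam : ℝ := 17 / L with hlam
  have hlam0 : 0 < lam := by positivity
  have hlam1 : lam ≤ 1 := by
    rw [hlam, div_le_one hL0]
    linarith
  have hcard : ((univ.filter fun y => rho1 x y < (k : ℝ) * L / 17).card : ℝ) ≤
      ∑ y : Grid n k, Real.exp ((k : ℝ) - lam * rho1 x y) := by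
    rw [Finset.card_eq_sum_ones, Nat.cast_sum, Finset.sum_filter]
    refine Finset.sum_le_sum fun y _ => ?_
    split_ifs with h
    · have h1 : lam * rho1 x y ≤ k := by
        calc lam * rho1 x y ≤ lam * ((k : ℝ) * L / 17) := by gcongr
          _ = k := by rw [hlam]; field_simp
      push_cast
      exact Real.one_le_exp (by linarith)
    · exact (Real.exp_pos _).le
  have hprod : ∑ y : Grid n k, Real.exp ((k : ℝ) - lam * rho1 x y) =
      Real.exp k * ∏ i : Fin k, ∑ t : Fin n,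
        Real.exp (-(lam * |((x i : ℕ) : ℝ) - ((t : ℕ) : ℝ)|)) := by
    rw [Finset.prod_univ_sum, Fintype.piFinset_univ, Finset.mul_sum]
    refine Finset.sum_congr rfl fun y _ => ?_
    rw [← Real.exp_sum, ← Real.exp_add, rho1, Finset.mul_sum, Finset.sum_neg_distrib]
    congr 1
  have hp2 : ∏ i : Fin k, ∑ t : Fin n,
        Real.exp (-(lam * |((x i : ℕ) : ℝ) - ((t : ℕ) : ℝ)|)) ≤ (3 / lam) ^ k := by
    calc _ ≤ ∏ i : Fin k, (3 / lam) :=
          Finset.prod_le_prod (fun i _ => Finset.sum_nonneg fun t _ => (Real.exp_pos _).le)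
            fun i _ => Ball_abs hlam0 hlam1 (x i)
      _ = (3 / lam) ^ k := by rw [Finset.prod_const, Finset.card_univ, Fintype.card_fin]
  have hexp : Real.exp k = (Real.exp 1) ^ k := by
    rw [← Real.exp_nat_mul]
    simp
  have h3 : ((univ.filter fun y => rho1 x y < (k : ℝ) * L / 17).card : ℝ) ≤ (L / 2) ^ k := by
    calc _ ≤ Real.exp k * ∏ i : Fin k, ∑ t : Fin n,
        Real.exp (-(lam * |((x i : ℕ) : ℝ) - ((t : ℕ) : ℝ)|)) := by rw [← hprod]; exact hcard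
      _ ≤ (Real.exp 1) ^ k * (3 / lam) ^ k := by
          rw [hexp]
          gcongr
      _ = (Real.exp 1 * (3 / lam)) ^ k := by rw [mul_pow]
      _ ≤ (L / 2) ^ k := by
          have he := Real.exp_one_lt_d9
          have h4 : Real.exp 1 * (3 / lam) = 3 * Real.exp 1 / 17 * L := by
            rw [hlam]
            field_simp
          have h5 : Real.exp 1 * (3 / lam) ≤ L / 2 := by
            rw [h4]
            nlinarith
          gcongr
  have h6 : (L / 2) ^ k ≤ L ^ k / 2 := by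
    rw [div_pow]
    have h7 : (2 : ℝ) ≤ 2 ^ k := by
      calc (2 : ℝ) = 2 ^ 1 := by norm_num
        _ ≤ 2 ^ k := pow_le_pow_right₀ (by norm_num) hk
    have : 0 ≤ L ^ k := by positivity
    gcongr
  have h8 : (2 : ℝ) ^ (i * k) = L ^ k := by rw [hL, ← pow_mul]
  rw [h8]
  linarith

open scoped Classical in
theorem ball2 {n k i : ℕ} (hk : 1 ≤ k) (hi : 5 ≤ i) (x : Grid n k) :
    2 * ((univ.filter fun y => rho2 x y < Real.sqrt k * 2 ^ i / 17).card : ℝ) ≤
      (2 : ℝ) ^ (i * k) := by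
  refine le_trans ?_ (ball1 hk hi x)
  have hsub : (univ.filter fun y : Grid n k => rho2 x y < Real.sqrt k * 2 ^ i / 17) ⊆
      univ.filter fun y => rho1 x y < (k : ℝ) * 2 ^ i / 17 := by
    intro y hy
    rw [Finset.mem_filter] at hy ⊢
    refine ⟨Finset.mem_univ _, ?_⟩
    have hkr : (0 : ℝ) < k := by exact_mod_cast hk
    have hsk : 0 < Real.sqrt k := Real.sqrt_pos.mpr hkr
    have hcs : rho1 x y ≤ Real.sqrt k * rho2 x y := by
      have h1 := sq_sum_le_card_mul_sum_sq (s := (Finset.univ : Finset (Fin k)))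
        (f := fun i => |((x i : ℕ) : ℝ) - ((y i : ℕ) : ℝ)|)
      have h2 : rho1 x y ^ 2 ≤ (k : ℝ) * ∑ i, (((x i : ℕ) : ℝ) - ((y i : ℕ) : ℝ)) ^ 2 := by
        rw [rho1]
        refine h1.trans_eq ?_
        simp only [Finset.card_univ, Fintype.card_fin, sq_abs]
      have h0 : 0 ≤ rho1 x y := Finset.sum_nonneg fun i _ => abs_nonneg _
      calc rho1 x y = Real.sqrt (rho1 x y ^ 2) := (Real.sqrt_sq h0).symm
        _ ≤ Real.sqrt ((k : ℝ) * ∑ i, (((x i : ℕ) : ℝ) - ((y i : ℕ) : ℝ)) ^ 2) :=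
            Real.sqrt_le_sqrt h2
        _ = Real.sqrt k * rho2 x y := by rw [Real.sqrt_mul hkr.le, rho2]
    calc rho1 x y ≤ Real.sqrt k * rho2 x y := hcs
      _ < Real.sqrt k * (Real.sqrt k * 2 ^ i / 17) := by
          exact mul_lt_mul_of_pos_left hy.2 hsk
      _ = (Real.sqrt k * Real.sqrt k) * 2 ^ i / 17 := by ring
      _ = (k : ℝ) * 2 ^ i / 17 := by rw [Real.mul_self_sqrt hkr.le]
  have := Finset.card_le_card hsub
  have h2 : ((univ.filter fun y : Grid n k => rho2 x y < Real.sqrt k * 2 ^ i / 17).card : ℝ) ≤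
      ((univ.filter fun y : Grid n k => rho1 x y < (k : ℝ) * 2 ^ i / 17).card : ℝ) := by
    exact_mod_cast this
  linarith

end Pool.Agent.GrO
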