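import Pool.Agent.KhN.Compl

/-!
Multi-scale lower bounds for the `L_1` distortion: definitions.

`G = Grid n k` is the coarse grid. `grad` is the sum of the norms of the differences along the
edges, `tst K` is the mean of `‖∑_j (φ (x_j) - φ (y_j))‖` over all `K`-tuples `x`, `y` of points.
-/

set_option autoImplicit false

namespace Pool.Agent.GrO

open Finset Pool.Agent.MP_12e089_an

/-- One step up in direction `j`. -/
def upd {n k : ℕ} (x : Grid n k) (j : Fin k) (h : (x j : ℕ) + 1 < n) : Grid n k :=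
  Function.update x j ⟨(x j : ℕ) + 1, h⟩

/-- The sum of `‖φ (x + e_j) - φ x‖` over all edges of the grid. -/
noncomputable def grad {n k : ℕ} {E : Type} [SeminormedAddCommGroup E] (φ : Grid n k → E) : ℝ :=
  ∑ x, ∑ j, if h : (x j : ℕ) + 1 < n then ‖φ (upd x j h) - φ x‖ else 0

/-- The mean of `‖∑_j (φ (x_j) - φ (y_j))‖` over all `x, y : Fin K → G`. -/
noncomputable def tst {G : Type} [Fintype G] {E : Type} [SeminormedAddCommGroup E] (K : ℕ)
    (φ : G → E) : ℝ :=
  (∑ x : Fin K → G, ∑ y : Fin K → G, ‖∑ j, (φ (x j) - φ (y j))‖) /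
    (Fintype.card G : ℝ) ^ (2 * K)

/-- The indicator function. -/
noncomputable def ind {G : Type} [DecidableEq G] (A : Finset G) (x : G) : ℝ :=
  if x ∈ A then 1 else 0

/-- The number of the `x_j` which have distance at least `r` from all `y_l`. -/
noncomputable def far {G : Type} (δ : G → G → ℝ) (r : ℝ) {K : ℕ} (x y : Fin K → G) : ℕ :=
  open scoped Classical in (univ.filter fun j => ∀ l, r ≤ δ (x j) (y l)).card

/-- The signed multiplicity function `∑_j (e_{x_j} - e_{y_j})`. -/
def mu {G : Type} [DecidableEq G] {K : ℕ} (x y : Fin K → G) : G → ℤ :=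
  ∑ j, (Pi.single (x j) 1 - Pi.single (y j) 1)

/-- The box `[0, ρ)^G`. -/
noncomputable def box (G : Type) [Fintype G] [DecidableEq G] (a b : ℤ) : Finset (G → ℤ) :=
  Fintype.piFinset fun _ => Finset.Ico a b

/-- The mean of `ϕ` over `z + [0, ρ)^G`. -/
noncomputable def smo {G : Type} [Fintype G] [DecidableEq G] {E : Type} [NormedAddCommGroup E]
    [NormedSpace ℝ E] (ρ : ℕ) (ϕ : (G → ℤ) → E) (z : G → ℤ) : E :=
  ((ρ : ℝ) ^ Fintype.card G)⁻¹ • ∑ u ∈ box G 0 ρ, ϕ (z + u)

/-- The discrete derivative of the mean. -/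
noncomputable def Ld {G : Type} [Fintype G] [DecidableEq G] {E : Type} [NormedAddCommGroup E]
    [NormedSpace ℝ E] (ρ : ℕ) (ϕ : (G → ℤ) → E) (z : G → ℤ) (a : G) : E :=
  smo ρ ϕ (z + Pi.single a 1) - smo ρ ϕ z

end Pool.Agent.GrO
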