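import Pool.Agent.GrO.Basic

/-!
The clusters, the reservoir and the point sets `St z` (definitions only).

The cluster of `a : G` consists of the `W` points `P a j`; the set `St z` contains the first
`z a` (clamped to `[0, W]`) points of the cluster of `a`, the first `|G| W - ∑_a z a` points of the
reservoir `Q`, and the fixed points `Z`.
-/

set_option autoImplicit false

namespace Pool.Agent.GrO

open Finset Pool.Agent.MP_12e089_an

/-- Disjoint clusters, reservoir and fixed points. -/
structure Cfg (G : Type) [Fintype G] (W : ℕ) (M : Type) (s : ℕ) where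
  P : G → Fin W → M
  Q : Fin (Fintype.card G * W) → M
  Z : Finset M
  P_inj : ∀ a j a' j', P a j = P a' j' → a = a' ∧ j = j'
  Q_inj : Function.Injective Q
  PQ : ∀ a j t, P a j ≠ Q t
  PZ : ∀ a j, P a j ∉ Z
  QZ : ∀ t, Q t ∉ Z
  card_Z : Z.card + Fintype.card G * W = s

/-- Clamping to `[0, W]`. -/
def cl (W : ℕ) (t : ℤ) : ℕ := min t.toNat W

variable {G : Type} [Fintype G] [DecidableEq G] {W : ℕ} {M : Type} [Fintype M] [DecidableEq M]
  {s : ℕ}

/-- The point set with the multiplicities `z`. -/
def Cfg.St (c : Cfg G W M s) (z : G → ℤ) : Finset M :=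
  (univ.filter fun p : G × Fin W => (p.2 : ℕ) < cl W (z p.1)).image
      (fun p => c.P p.1 p.2) ∪
    (univ.filter fun t : Fin (Fintype.card G * W) =>
      (t : ℕ) < Fintype.card G * W - ∑ a, cl W (z a)).image c.Q ∪ c.Z

end Pool.Agent.GrO
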