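import Pool.Agent.GrO.Basic

/-!
MODULE Far (M). Most of `K` random points are far from `K` other random points.

Proof. `K - far x y = #{j | ∃ l, δ (x j) (y l) < r} ≤ ∑_j ∑_l [δ (x j) (y l) < r]`. For fixed `j`, `l` the
number of pairs `(x, y)` with `δ (x j) (y l) < r` is `|G|^(2K-2) · #{(a,b) | δ a b < r} ≤
|G|^(2K-2) |G| |G| / (2K)`. So `∑_{x,y} (K - far x y) ≤ K^2 |G|^(2K) / (2K) = K/2 |G|^(2K)`.
-/

set_option autoImplicit false

namespace Pool.Agent.GrO

open Finset

open scoped Classical in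
/-- The sum of a function of one coordinate. -/
private theorem far_sum_apply {G : Type} [Fintype G] {K : ℕ} (l : Fin K) (f : G → ℝ) :
    ∑ y : Fin K → G, f (y l) = (Fintype.card ({j : Fin K // j ≠ l} → G) : ℝ) * ∑ a, f a := by
  rw [Fintype.sum_equiv (Equiv.funSplitAt l G) (fun y => f (y l)) (fun p => f p.1)
    (fun y => rfl), Fintype.sum_prod_type]
  simp [Finset.mul_sum]

open scoped Classical in
/-- The number of functions. -/
private theorem far_card {G : Type} [Fintype G] {K : ℕ} (l : Fin K) :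
    (Fintype.card G : ℝ) ^ K =
      (Fintype.card ({j : Fin K // j ≠ l} → G) : ℝ) * Fintype.card G := by
  have h := far_sum_apply (G := G) l (fun _ => (1 : ℝ))
  simpa using h

open scoped Classical in
private theorem far_lb {G : Type} [Fintype G] (δ : G → G → ℝ) (r : ℝ) {K : ℕ}
    (x y : Fin K → G) :
    (K : ℝ) - ∑ j, ∑ l, (if δ (x j) (y l) < r then (1 : ℝ) else 0) ≤ (far δ r x y : ℝ) := by
  have h1 : (far δ r x y : ℝ) = ∑ j : Fin K, (if ∀ l, r ≤ δ (x j) (y l) then (1 : ℝ) else 0) := by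
    rw [far, Finset.sum_boole]
  rw [h1]
  have h2 : (K : ℝ) = ∑ j : Fin K, (1 : ℝ) := by simp
  rw [h2, ← Finset.sum_sub_distrib]
  refine Finset.sum_le_sum fun j _ => ?_
  by_cases h : ∀ l, r ≤ δ (x j) (y l)
  · rw [if_pos h]
    have : 0 ≤ ∑ l, (if δ (x j) (y l) < r then (1 : ℝ) else 0) :=
      Finset.sum_nonneg fun l _ => by split_ifs <;> norm_num
    linarith
  · rw [if_neg h]
    push Not at h
    obtain ⟨l, hl⟩ := h
    have : (if δ (x j) (y l) < r then (1 : ℝ) else 0) ≤
        ∑ l, (if δ (x j) (y l) < r then (1 : ℝ) else 0) :=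
      Finset.single_le_sum (f := fun l => (if δ (x j) (y l) < r then (1 : ℝ) else 0))
        (fun l _ => by positivity) (Finset.mem_univ l)
    rw [if_pos hl] at this
    linarith

open scoped Classical in
theorem far_sum {G : Type} [Fintype G] (δ : G → G → ℝ) (r : ℝ) (K : ℕ)
    (hB : ∀ x, 2 * (K : ℝ) * ((univ.filter fun y => δ x y < r).card : ℝ) ≤ Fintype.card G) :
    (K : ℝ) / 2 * (Fintype.card G : ℝ) ^ (2 * K) ≤
      ∑ x : Fin K → G, ∑ y : Fin K → G, (far δ r x y : ℝ) := by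
  set N : ℝ := (Fintype.card G : ℝ) with hN
  -- one pair of indices
  have hjl : ∀ j l : Fin K, 2 * (K : ℝ) *
      ∑ x : Fin K → G, ∑ y : Fin K → G, (if δ (x j) (y l) < r then (1 : ℝ) else 0) ≤
        N ^ (2 * K) := by
    intro j l
    set R : ℝ := (Fintype.card ({j : Fin K // j ≠ l} → G) : ℝ) with hR
    have hR0 : 0 ≤ R := Nat.cast_nonneg _
    have h1 : ∀ x : Fin K → G, ∑ y : Fin K → G, (if δ (x j) (y l) < r then (1 : ℝ) else 0) =
        R * ((univ.filter fun b => δ (x j) b < r).card : ℝ) := by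
      intro x
      rw [far_sum_apply l (fun b => if δ (x j) b < r then (1 : ℝ) else 0), Finset.sum_boole]
    have h2 : N ^ K = R * N := far_card l
    calc 2 * (K : ℝ) *
        ∑ x : Fin K → G, ∑ y : Fin K → G, (if δ (x j) (y l) < r then (1 : ℝ) else 0)
        = ∑ x : Fin K → G, R * (2 * (K : ℝ) * ((univ.filter fun b => δ (x j) b < r).card : ℝ)) := by
          rw [Finset.mul_sum]
          refine Finset.sum_congr rfl fun x _ => ?_
          rw [h1 x]
          ring
      _ ≤ ∑ _x : Fin K → G, R * N :=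
          Finset.sum_le_sum fun x _ => mul_le_mul_of_nonneg_left (hB _) hR0
      _ = N ^ (2 * K) := by
          rw [Finset.sum_const, ← h2, nsmul_eq_mul, Finset.card_univ]
          simp only [Fintype.card_pi, Finset.prod_const, Finset.card_univ, Fintype.card_fin]
          push_cast
          rw [← hN]
          ring
  rcases Nat.eq_zero_or_pos K with hK | hK
  · subst hK
    simp only [Nat.cast_zero, zero_div, zero_mul]
    exact Finset.sum_nonneg fun x _ => Finset.sum_nonneg fun y _ => Nat.cast_nonneg _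
  have hK' : (0 : ℝ) < K := by exact_mod_cast hK
  have hswap : ∑ x : Fin K → G, ∑ y : Fin K → G,
      ∑ j : Fin K, ∑ l : Fin K, (if δ (x j) (y l) < r then (1 : ℝ) else 0) =
      ∑ j : Fin K, ∑ l : Fin K, ∑ x : Fin K → G, ∑ y : Fin K → G,
        (if δ (x j) (y l) < r then (1 : ℝ) else 0) := by
    calc _ = ∑ x : Fin K → G, ∑ j : Fin K, ∑ y : Fin K → G, ∑ l : Fin K,
          (if δ (x j) (y l) < r then (1 : ℝ) else 0) :=
          Finset.sum_congr rfl fun x _ => Finset.sum_comm
      _ = ∑ j : Fin K, ∑ x : Fin K → G, ∑ y : Fin K → G, ∑ l : Fin K,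
          (if δ (x j) (y l) < r then (1 : ℝ) else 0) := Finset.sum_comm
      _ = ∑ j : Fin K, ∑ x : Fin K → G, ∑ l : Fin K, ∑ y : Fin K → G,
          (if δ (x j) (y l) < r then (1 : ℝ) else 0) :=
          Finset.sum_congr rfl fun j _ => Finset.sum_congr rfl fun x _ => Finset.sum_comm
      _ = _ := Finset.sum_congr rfl fun j _ => Finset.sum_comm
  have hbad : 2 * (K : ℝ) * ∑ x : Fin K → G, ∑ y : Fin K → G,
      ∑ j : Fin K, ∑ l : Fin K, (if δ (x j) (y l) < r then (1 : ℝ) else 0) ≤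
        (K : ℝ) * K * N ^ (2 * K) := by
    rw [hswap, Finset.mul_sum]
    calc ∑ j : Fin K, 2 * (K : ℝ) * ∑ l : Fin K, ∑ x : Fin K → G, ∑ y : Fin K → G,
          (if δ (x j) (y l) < r then (1 : ℝ) else 0)
        = ∑ j : Fin K, ∑ l : Fin K, 2 * (K : ℝ) * ∑ x : Fin K → G, ∑ y : Fin K → G,
          (if δ (x j) (y l) < r then (1 : ℝ) else 0) :=
          Finset.sum_congr rfl fun j _ => by rw [Finset.mul_sum]
      _ ≤ ∑ _j : Fin K, ∑ _l : Fin K, N ^ (2 * K) :=
          Finset.sum_le_sum fun j _ => Finset.sum_le_sum fun l _ => hjl j l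
      _ = (K : ℝ) * K * N ^ (2 * K) := by
          simp only [Finset.sum_const, Finset.card_univ, Fintype.card_fin, nsmul_eq_mul]
          ring
  have hbad' : ∑ x : Fin K → G, ∑ y : Fin K → G,
      ∑ j : Fin K, ∑ l : Fin K, (if δ (x j) (y l) < r then (1 : ℝ) else 0) ≤
        (K : ℝ) / 2 * N ^ (2 * K) := by
    have h3 : 0 < 2 * (K : ℝ) := by positivity
    nlinarith [hbad]
  have htot : ∑ x : Fin K → G, ∑ y : Fin K → G,
      ((K : ℝ) - ∑ j, ∑ l, (if δ (x j) (y l) < r then (1 : ℝ) else 0)) =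
      (K : ℝ) * N ^ (2 * K) - ∑ x : Fin K → G, ∑ y : Fin K → G,
      ∑ j : Fin K, ∑ l : Fin K, (if δ (x j) (y l) < r then (1 : ℝ) else 0) := by
    simp only [Finset.sum_sub_distrib, Finset.sum_const, Finset.card_univ, Fintype.card_pi,
      Finset.prod_const, Fintype.card_fin, nsmul_eq_mul]
    push_cast
    rw [← hN]
    ring
  calc (K : ℝ) / 2 * N ^ (2 * K)
      = (K : ℝ) * N ^ (2 * K) - (K : ℝ) / 2 * N ^ (2 * K) := by ring
    _ ≤ _ := sub_le_sub_left hbad' _
    _ = _ := htot.symm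
    _ ≤ _ := Finset.sum_le_sum fun x _ => Finset.sum_le_sum fun y _ => far_lb δ r x y

end Pool.Agent.GrO
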