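import Pool.Agent.GrO.SetI
import Pool.Agent.GrO.Coa

/-!
MODULE L1I (M). The multi-scale inequality for functions with values in `L_1`.

Proof. `coa_L1` with `X = Grid (2^J) k`, `S` = the (finite) type of triples `(i, x, y)` with
`i ∈ Ico 5 (J - 5)`, `x y : Fin K_i → X`, `K_i = 2^(k (J-i))` (e.g. a sigma type over
`{i // i ∈ Ico 5 (J-5)}`), `w (i,x,y) = 2^(i(k-1)) / |X|^(2 K_i)`,
`a (i,x,y) v = ∑_j (if x_j = v then 1 else 0) - (if y_j = v then 1 else 0)` (sum zero), so that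
`∑_v a v • φ v = ∑_j (φ (x_j) - φ (y_j))`; `T = X × Fin k`, `u (x,j) = 12/k` if the step is possible and
`0` otherwise, `p (x,j) = upd x j h` (or `x`), `q (x,j) = x`. The hypothesis for sets is `set_ineq`.
-/

set_option autoImplicit false

namespace Pool.Agent.GrO

open Finset Pool.Agent.MP_12e089_an

/-- The index type of the left side. -/
private abbrev SIx (J k : ℕ) : Type :=
  Σ i : {i // i ∈ Finset.Ico 5 (J - 5)},
    (Fin (2 ^ (k * (J - i.1))) → Grid (2 ^ J) k) × (Fin (2 ^ (k * (J - i.1))) → Grid (2 ^ J) k)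

private noncomputable def wS (J k : ℕ) (s : SIx J k) : ℝ :=
  (2 : ℝ) ^ (s.1.1 * (k - 1)) / (Fintype.card (Grid (2 ^ J) k) : ℝ) ^ (2 * 2 ^ (k * (J - s.1.1)))

private noncomputable def aS (J k : ℕ) (s : SIx J k) (v : Grid (2 ^ J) k) : ℝ :=
  ∑ j, ((if s.2.1 j = v then 1 else 0) - (if s.2.2 j = v then 1 else 0))

private noncomputable def uT (J k : ℕ) (t : Grid (2 ^ J) k × Fin k) : ℝ :=
  if (t.1 t.2 : ℕ) + 1 < 2 ^ J then 12 / (k : ℝ) else 0

private noncomputable def pT (J k : ℕ) (t : Grid (2 ^ J) k × Fin k) : Grid (2 ^ J) k :=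
  if h : (t.1 t.2 : ℕ) + 1 < 2 ^ J then upd t.1 t.2 h else t.1

private theorem aS_sum (J k : ℕ) (s : SIx J k) : ∑ v, aS J k s v = 0 := by
  unfold aS
  rw [sum_comm]
  simp [sum_sub_distrib]

private theorem aS_smul {E : Type} [NormedAddCommGroup E] [NormedSpace ℝ E] (J k : ℕ)
    (φ : Grid (2 ^ J) k → E) (s : SIx J k) :
    ∑ v, aS J k s v • φ v = ∑ j, (φ (s.2.1 j) - φ (s.2.2 j)) := by
  unfold aS
  simp only [sum_smul]
  rw [sum_comm]
  refine sum_congr rfl fun j _ => ?_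
  simp [sub_smul, sum_sub_distrib, ite_smul]

private theorem lhs_eq {E : Type} [NormedAddCommGroup E] [NormedSpace ℝ E] (J k : ℕ)
    (φ : Grid (2 ^ J) k → E) :
    ∑ s : SIx J k, wS J k s * ‖∑ v, aS J k s v • φ v‖ =
      ∑ i ∈ Finset.Ico 5 (J - 5), (2 : ℝ) ^ (i * (k - 1)) * tst (2 ^ (k * (J - i))) φ := by
  rw [← Finset.sum_coe_sort (Finset.Ico 5 (J - 5))
    (fun i => (2 : ℝ) ^ (i * (k - 1)) * tst (2 ^ (k * (J - i))) φ)]
  rw [Fintype.sum_sigma]
  refine sum_congr rfl fun i _ => ?_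
  rw [Fintype.sum_prod_type]
  unfold tst
  rw [mul_div_assoc', div_eq_mul_inv, mul_assoc, mul_comm (∑ x, ∑ y, _) _, ← mul_assoc, mul_sum]
  refine sum_congr rfl fun x _ => ?_
  rw [mul_sum]
  refine sum_congr rfl fun y _ => ?_
  rw [aS_smul]
  unfold wS
  rw [div_eq_mul_inv]

private theorem rhs_eq {E : Type} [NormedAddCommGroup E] [NormedSpace ℝ E] (J k : ℕ)
    (φ : Grid (2 ^ J) k → E) :
    ∑ t : Grid (2 ^ J) k × Fin k, uT J k t * ‖φ (pT J k t) - φ t.1‖ =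
      12 / (k : ℝ) * grad φ := by
  rw [Fintype.sum_prod_type]
  unfold grad
  rw [mul_sum]
  refine sum_congr rfl fun x _ => ?_
  rw [mul_sum]
  refine sum_congr rfl fun j _ => ?_
  unfold uT pT
  by_cases h : (x j : ℕ) + 1 < 2 ^ J
  · simp only [h, if_true, dif_pos]
  · simp only [h, if_false, dif_neg, not_false_eq_true, zero_mul, mul_zero]

theorem l1_ineq {J k : ℕ} (hk : 3 ≤ k) (φ : Grid (2 ^ J) k → L1) :
    ∑ i ∈ Finset.Ico 5 (J - 5), (2 : ℝ) ^ (i * (k - 1)) * tst (2 ^ (k * (J - i))) φ ≤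
    12 / (k : ℝ) * grad φ := by
  rw [← lhs_eq J k φ, ← rhs_eq J k φ]
  refine coa_L1 (wS J k) ?_ (aS J k) (aS_sum J k) (uT J k) ?_ (pT J k) (fun t => t.1) ?_ φ
  · intro s
    unfold wS
    positivity
  · intro t
    unfold uT
    split_ifs
    · positivity
    · exact le_rfl
  · intro A
    have h := set_ineq (J := J) hk A
    rw [← lhs_eq J k (ind A), ← rhs_eq J k (ind A)] at h
    simpa only [smul_eq_mul, Real.norm_eq_abs] using h

end Pool.Agent.GrO
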