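import Pool.Agent.GrO.Core1
import Pool.Agent.GrO.L1I

/-!
MODULE Core2 (M). The abstract lower bound for the distortion.

Proof. `N = (2^J)^k = |G|`, `n = 2^J`, `W = N^10`, `P = ⌈D⌉₊ · k · n · N`, `ρ = 192 P`, `κ = 48 P ρ`,
`R' = 96 P κ`, `R0 = κ N`, `B = box G R0 (R0 + R')`.
Sizes: `⌈D⌉₊ ≤ N`, `k n ≤ N` (`k ≤ 2^(k-1)`), so `N ≤ P ≤ N^3`,
`R' + 2 κ N + ρ ≤ 903360 P^3 ≤ 2^20 P^3 ≤ N · N^9 = W` (`N ≥ 2^33`). With
`A = D · (k n b)`: `A N ≤ P b`.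
(1) `core1` for `i ∈ Ico 5 (J-5)`, `K = 2^(k(J-i)) ≤ N`, `r = τ 2^i / 17 ≥ 32/17`:
`2 K · #ball ≤ 2^(k(J-i)) 2^(i k) = N`; for `z ∈ B` both `z` and `z + κ mu` have values in `[0, W]`
(`|mu_a| ≤ K ≤ N`). So the mean over `z ∈ B` of `tst K (Ld ρ ϕ z)` is `≥ b (τ 2^i/17) K / 8`.
(2) For `z ∈ B` and an edge `(a, upd a j h)`:
`Ld ρ ϕ z (upd a j h) - Ld ρ ϕ z a = smo ρ ϕ (z + e_{upd a j h}) - smo ρ ϕ (z + e_a)` is a mean of terms
bounded by `D · (2 b)` (`z + u` has values in `[0, W)` for `u ∈ [0, ρ)^G`), so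
`grad (Ld ρ ϕ z) ≤ k N · 2 b D`.
(3) `l1_ineq` for `φ = Ld ρ ϕ z`, averaged over `z ∈ B` (`|B| = R'^N`):
`∑_i 2^(i(k-1)) b (τ 2^i/17) 2^(k(J-i)) / 8 ≤ 12/k · k N · 2 b D`; the left side is
`(J - 10) b τ N / 136`. Hence `τ (J - 10) ≤ 24 · 136 D = 3264 D`.
-/

set_option autoImplicit false

namespace Pool.Agent.GrO

open Finset Pool.Agent.MP_12e089_an

private theorem c2_mem_box {G : Type} [Fintype G] [DecidableEq G] {a b : ℤ} {z : G → ℤ} :
    z ∈ box G a b ↔ ∀ g, a ≤ z g ∧ z g < b := by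
  unfold box
  rw [Fintype.mem_piFinset]
  simp only [Finset.mem_Ico]

private theorem c2_card_box {G : Type} [Fintype G] [DecidableEq G] (a : ℤ) (m : ℕ) :
    (box G a (a + m)).card = m ^ Fintype.card G := by
  unfold box
  rw [Fintype.card_piFinset]
  simp

private theorem c2_mu_abs {G : Type} [DecidableEq G] {K : ℕ} (x y : Fin K → G) (a : G) :
    |mu x y a| ≤ K := by
  unfold mu
  rw [Finset.sum_apply]
  refine (Finset.abs_sum_le_sum_abs _ _).trans ?_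
  have h1 : ∀ j ∈ (univ : Finset (Fin K)),
      |(Pi.single (x j) 1 - Pi.single (y j) 1 : G → ℤ) a| ≤ 1 := by
    intro j _
    rw [Pi.sub_apply, Pi.single_apply, Pi.single_apply]
    split_ifs <;> simp
  refine (Finset.sum_le_card_nsmul _ _ 1 h1).trans ?_
  simp

private theorem c2_smo_diff {G : Type} [Fintype G] [DecidableEq G] {E : Type}
    [NormedAddCommGroup E] [NormedSpace ℝ E] {ρ : ℕ} (hρ : 1 ≤ ρ) {ϕ : (G → ℤ) → E}
    {C : ℝ} (z : G → ℤ) (a a' : G)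
    (h : ∀ u ∈ box G 0 ρ, ‖ϕ (z + u + Pi.single a' 1) - ϕ (z + u + Pi.single a 1)‖ ≤ C) :
    ‖Ld ρ ϕ z a' - Ld ρ ϕ z a‖ ≤ C := by
  unfold Ld
  rw [sub_sub_sub_cancel_right]
  unfold smo
  rw [← smul_sub, ← Finset.sum_sub_distrib, norm_smul]
  have h1 : ‖∑ u ∈ box G 0 ρ, (ϕ (z + Pi.single a' 1 + u) - ϕ (z + Pi.single a 1 + u))‖ ≤
      (ρ : ℝ) ^ Fintype.card G * C := by
    refine (norm_sum_le _ _).trans ?_
    have h2 : ∀ u ∈ box G 0 ρ,
        ‖ϕ (z + Pi.single a' 1 + u) - ϕ (z + Pi.single a 1 + u)‖ ≤ C := by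
      intro u hu
      rw [add_right_comm z (Pi.single a' 1) u, add_right_comm z (Pi.single a 1) u]
      exact h u hu
    refine (Finset.sum_le_card_nsmul _ _ C h2).trans ?_
    have h3 := c2_card_box (G := G) 0 ρ
    rw [zero_add] at h3
    rw [h3, nsmul_eq_mul]
    push_cast
    exact le_refl _
  have hρ' : (0 : ℝ) < (ρ : ℝ) ^ Fintype.card G := by positivity
  rw [norm_inv, Real.norm_of_nonneg hρ'.le]
  calc ((ρ : ℝ) ^ Fintype.card G)⁻¹ *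
        ‖∑ u ∈ box G 0 ρ, (ϕ (z + Pi.single a' 1 + u) - ϕ (z + Pi.single a 1 + u))‖
      ≤ ((ρ : ℝ) ^ Fintype.card G)⁻¹ * ((ρ : ℝ) ^ Fintype.card G * C) :=
        mul_le_mul_of_nonneg_left h1 (by positivity)
    _ = C := by
        rw [← mul_assoc, inv_mul_cancel₀ hρ'.ne', one_mul]

private theorem c2_grad_le {n k : ℕ} {E : Type} [SeminormedAddCommGroup E] {φ : Grid n k → E}
    {C : ℝ} (hC : 0 ≤ C)
    (h : ∀ (x : Grid n k) (j : Fin k) (h : (x j : ℕ) + 1 < n), ‖φ (upd x j h) - φ x‖ ≤ C) :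
    grad φ ≤ (n : ℝ) ^ k * (k * C) := by
  unfold grad
  have h1 : ∀ x ∈ (univ : Finset (Grid n k)),
      (∑ j, if h : (x j : ℕ) + 1 < n then ‖φ (upd x j h) - φ x‖ else 0) ≤ k * C := by
    intro x _
    have h2 : ∀ j ∈ (univ : Finset (Fin k)),
        (if h : (x j : ℕ) + 1 < n then ‖φ (upd x j h) - φ x‖ else 0) ≤ C := by
      intro j _
      split_ifs with hj
      · exact h x j hj
      · exact hC
    refine (Finset.sum_le_card_nsmul _ _ C h2).trans ?_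
    simp
  refine (Finset.sum_le_card_nsmul _ _ (k * C) h1).trans ?_
  simp

/-- The numerical facts about the sizes. -/
private theorem c2_sizes {J k : ℕ} (hk : 3 ≤ k) (hJ : 11 ≤ J) {M : ℕ} (hM1 : 1 ≤ M)
    (hM : M ≤ (2 ^ J) ^ k) {P : ℕ} (hP : P = M * k * 2 ^ J * (2 ^ J) ^ k) :
    (2 ^ J) ^ k ≤ P ∧ 884736 * P ^ 3 + 2 * (9216 * P ^ 2 * (2 ^ J) ^ k) + 192 * P ≤
      ((2 ^ J) ^ k) ^ 10 := by
  set N : ℕ := (2 ^ J) ^ k with hN
  have hN1 : 2 ^ 33 ≤ N := by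
    rw [hN, ← pow_mul]
    exact Nat.pow_le_pow_right (by norm_num) (by nlinarith)
  have hkn : k * 2 ^ J ≤ N := by
    have h1 : k ≤ 2 ^ (k - 1) := by
      have := Nat.lt_two_pow_self (n := k - 1)
      omega
    have h2 : 2 ^ (k - 1) ≤ 2 ^ (J * (k - 1)) :=
      Nat.pow_le_pow_right (by norm_num) (Nat.le_mul_of_pos_left _ (by omega))
    calc k * 2 ^ J ≤ 2 ^ (J * (k - 1)) * 2 ^ J := Nat.mul_le_mul_right _ (h1.trans h2)
      _ = N := by
        rw [hN, ← pow_mul, ← pow_add]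
        congr 1
        obtain ⟨c, rfl⟩ : ∃ c, k = c + 1 := ⟨k - 1, by omega⟩
        simp [Nat.mul_add]
  have hk1 : 1 ≤ k * 2 ^ J := by
    have : 0 < 2 ^ J := by positivity
    nlinarith
  have hNP : N ≤ P := by
    rw [hP]
    have : 1 ≤ M * (k * 2 ^ J) := Nat.one_le_iff_ne_zero.mpr (by positivity)
    calc N = 1 * N := (one_mul _).symm
      _ ≤ M * (k * 2 ^ J) * N := Nat.mul_le_mul_right _ this
      _ = M * k * 2 ^ J * N := by ring
  have hP3 : P ≤ N ^ 3 := by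
    rw [hP]
    calc M * k * 2 ^ J * N = M * (k * 2 ^ J) * N := by ring
      _ ≤ N * N * N := Nat.mul_le_mul_right _ (Nat.mul_le_mul hM hkn)
      _ = N ^ 3 := by ring
  have hP1 : 1 ≤ P := by omega
  refine ⟨hNP, ?_⟩
  have h3 : 9216 * P ^ 2 * N ≤ 9216 * P ^ 3 := by
    calc 9216 * P ^ 2 * N ≤ 9216 * P ^ 2 * P := Nat.mul_le_mul_left _ hNP
      _ = 9216 * P ^ 3 := by ring
  have h4 : 192 * P ≤ 192 * P ^ 3 := by
    have : P ≤ P ^ 3 := Nat.le_self_pow (by norm_num) P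
    omega
  have h5 : P ^ 3 ≤ N ^ 9 := by
    calc P ^ 3 ≤ (N ^ 3) ^ 3 := Nat.pow_le_pow_left hP3 3
      _ = N ^ 9 := by ring
  calc 884736 * P ^ 3 + 2 * (9216 * P ^ 2 * N) + 192 * P
      ≤ 2 ^ 33 * P ^ 3 := by
        have : (0:ℕ) ≤ P ^ 3 := Nat.zero_le _
        omega
    _ ≤ N * N ^ 9 := Nat.mul_le_mul hN1 h5
    _ = N ^ 10 := by ring

open scoped Classical in
theorem core2 {J k : ℕ} (hk : 3 ≤ k) (hJ : 11 ≤ J) {ϕ : (Grid (2 ^ J) k → ℤ) → L1}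
    {D b τ : ℝ} (hD : 1 ≤ D) (hDN : D ≤ ((2 : ℝ) ^ J) ^ k) (hb : 0 < b) (hτ : 1 ≤ τ)
    (δ : Grid (2 ^ J) k → Grid (2 ^ J) k → ℝ)
    (hball : ∀ i : ℕ, 5 ≤ i → ∀ x,
      2 * ((univ.filter fun y => δ x y < τ * 2 ^ i / 17).card : ℝ) ≤ (2 : ℝ) ^ (i * k))
    (hA : ∀ z a, ‖ϕ (z + Pi.single a 1) - ϕ z‖ ≤ D * (k * 2 ^ J * b))
    (hB : ∀ z : Grid (2 ^ J) k → ℤ, (∀ a, 0 ≤ z a ∧ z a < (((2 : ℤ) ^ J) ^ k) ^ 10) →
      ∀ a j (h : (a j : ℕ) + 1 < 2 ^ J),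
        ‖ϕ (z + Pi.single (upd a j h) 1) - ϕ (z + Pi.single a 1)‖ ≤ D * (2 * b))
    (hF : ∀ i : ℕ, 5 ≤ i → ∀ (K κ : ℕ) (x y : Fin K → Grid (2 ^ J) k)
      (z : Grid (2 ^ J) k → ℤ), (∀ a, 0 ≤ z a ∧ z a ≤ (((2 : ℤ) ^ J) ^ k) ^ 10) →
      (∀ a, 0 ≤ (z + (κ : ℤ) • mu x y) a ∧
        (z + (κ : ℤ) • mu x y) a ≤ (((2 : ℤ) ^ J) ^ k) ^ 10) →
      b / 2 * (τ * 2 ^ i / 17) * κ * (far δ (τ * 2 ^ i / 17) x y : ℝ) ≤
        ‖ϕ (z + (κ : ℤ) • mu x y) - ϕ z‖) :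
    τ * ((J : ℝ) - 10) / 3264 ≤ D := by
  obtain ⟨N, hN⟩ : ∃ N : ℕ, N = (2 ^ J) ^ k := ⟨_, rfl⟩
  have hcard : Fintype.card (Grid (2 ^ J) k) = N := by
    rw [hN]
    simp [Grid]
  have hNR : (N : ℝ) = ((2 : ℝ) ^ J) ^ k := by rw [hN]; push_cast; rfl
  have hNZ : (N : ℤ) = ((2 : ℤ) ^ J) ^ k := by rw [hN]; push_cast; rfl
  have hN0 : 0 < N := by rw [hN]; positivity
  have hceil1 : 1 ≤ ⌈D⌉₊ := Nat.one_le_ceil_iff.mpr (by linarith)
  have hceil2 : ⌈D⌉₊ ≤ (2 ^ J) ^ k := by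
    rw [Nat.ceil_le]
    push_cast
    exact hDN
  obtain ⟨P, hPdef⟩ : ∃ P : ℕ, P = ⌈D⌉₊ * k * 2 ^ J * (2 ^ J) ^ k := ⟨_, rfl⟩
  obtain ⟨hNP, hsize⟩ := c2_sizes hk hJ hceil1 hceil2 hPdef
  rw [← hN] at hNP hsize
  have hP1 : 1 ≤ P := le_trans hN0 hNP
  obtain ⟨ρ, hρ⟩ : ∃ ρ : ℕ, ρ = 192 * P := ⟨_, rfl⟩
  obtain ⟨κ, hκ⟩ : ∃ κ : ℕ, κ = 48 * P * ρ := ⟨_, rfl⟩
  obtain ⟨R', hR'⟩ : ∃ R' : ℕ, R' = 96 * P * κ := ⟨_, rfl⟩
  have hρ1 : 1 ≤ ρ := by omega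
  have hκ' : κ = 9216 * P ^ 2 := by rw [hκ, hρ]; ring
  have hR'' : R' = 884736 * P ^ 3 := by rw [hR', hκ']; ring
  have hsz : R' + 2 * (κ * N) + ρ ≤ N ^ 10 := by
    rw [hR'', hκ', hρ]
    exact hsize
  have hszZ : (R' : ℤ) + 2 * ((κ : ℤ) * N) + ρ ≤ (((2 : ℤ) ^ J) ^ k) ^ 10 := by
    rw [← hNZ]
    exact_mod_cast hsz
  have hR'pos : 0 < R' := by rw [hR'']; positivity
  set R0 : ℤ := (κ : ℤ) * N with hR0
  have hR0nn : 0 ≤ R0 := by positivity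
  set B := box (Grid (2 ^ J) k) R0 (R0 + R') with hBdef
  have hBcard : (B.card : ℝ) = (R' : ℝ) ^ N := by
    rw [hBdef, c2_card_box, hcard]
    push_cast
    rfl
  have hRN : (0 : ℝ) < (R' : ℝ) ^ N := by positivity
  have hk0 : (0 : ℝ) < k := by
    have : 0 < k := by omega
    exact_mod_cast this
  -- step 2: the gradient
  have hgrad : ∀ z ∈ B, grad (Ld ρ ϕ z) ≤ (N : ℝ) * (k * (D * (2 * b))) := by
    intro z hz
    rw [hBdef, c2_mem_box] at hz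
    have h := c2_grad_le (φ := Ld ρ ϕ z) (C := D * (2 * b)) (by positivity) (by
      intro x j h
      refine c2_smo_diff hρ1 z x (upd x j h) ?_
      intro u hu
      rw [c2_mem_box] at hu
      refine hB (z + u) ?_ x j h
      intro a
      have h1 := hz a
      have h2 := hu a
      rw [Pi.add_apply]
      have h3 : (0 : ℤ) ≤ (κ : ℤ) * N := by positivity
      constructor
      · linarith [h1.1, h2.1]
      · have := h1.2
        have := h2.2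
        linarith)
    refine h.trans (le_of_eq ?_)
    rw [hNR]
    push_cast
    ring
  -- step 1: core1
  have hcore : ∀ i ∈ Finset.Ico 5 (J - 5),
      b * (τ * 2 ^ i / 17) * ((2 ^ (k * (J - i)) : ℕ) : ℝ) / 8 ≤
        (∑ z ∈ B, tst (2 ^ (k * (J - i))) (Ld ρ ϕ z)) / (R' : ℝ) ^ N := by
    intro i hi
    rw [Finset.mem_Ico] at hi
    have hKN : 2 ^ (k * (J - i)) ≤ N := by
      rw [hN, ← pow_mul]
      exact Nat.pow_le_pow_right (by norm_num) (by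
        rw [mul_comm J k]
        exact Nat.mul_le_mul_left _ (Nat.sub_le _ _))
    have h2i : (32 : ℝ) ≤ 2 ^ i := by
      calc (32 : ℝ) = 2 ^ 5 := by norm_num
        _ ≤ 2 ^ i := pow_le_pow_right₀ (by norm_num) hi.1
    have hr : 1 ≤ τ * 2 ^ i / 17 := by
      rw [le_div_iff₀ (by norm_num)]
      nlinarith
    have h := core1 (G := Grid (2 ^ J) k) (E := L1) (ϕ := ϕ) (A := D * (k * 2 ^ J * b)) (b := b)
      (by positivity) hb hA hP1 (by
        rw [hcard]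
        have h1 : D ≤ (⌈D⌉₊ : ℝ) := Nat.le_ceil D
        have h2 : (P : ℝ) = (⌈D⌉₊ : ℝ) * k * 2 ^ J * N := by
          rw [hPdef, hNR]
          push_cast
          ring
        rw [h2]
        have h3 : (0 : ℝ) ≤ k * 2 ^ J * N * b := by positivity
        calc D * (k * 2 ^ J * b) * N = D * (k * 2 ^ J * N * b) := by ring
          _ ≤ (⌈D⌉₊ : ℝ) * (k * 2 ^ J * N * b) := mul_le_mul_of_nonneg_right h1 h3
          _ = _ := by ring) (K := 2 ^ (k * (J - i))) (Nat.one_le_two_pow) (by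
        rw [hcard]
        exact hKN) δ (r := τ * 2 ^ i / 17) hr (by
        intro x
        rw [hcard, hNR]
        have h1 := hball i hi.1 x
        have h2 : (0 : ℝ) ≤ (2 : ℝ) ^ (k * (J - i)) := by positivity
        have h3 := mul_le_mul_of_nonneg_left h1 h2
        push_cast
        calc 2 * (2 : ℝ) ^ (k * (J - i)) *
              ((univ.filter fun y => δ x y < τ * 2 ^ i / 17).card : ℝ)
            = (2 : ℝ) ^ (k * (J - i)) *
              (2 * ((univ.filter fun y => δ x y < τ * 2 ^ i / 17).card : ℝ)) := by ring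
          _ ≤ (2 : ℝ) ^ (k * (J - i)) * (2 : ℝ) ^ (i * k) := h3
          _ = ((2 : ℝ) ^ J) ^ k := by
            rw [← pow_add, ← pow_mul]
            congr 1
            have : J = (J - i) + i := by omega
            rw [mul_comm i k, ← Nat.mul_add, ← this, mul_comm])
      hρ hκ hR' R0 (by
        intro x y z hz
        rw [c2_mem_box] at hz
        have hz0 : ∀ a, 0 ≤ z a ∧ z a ≤ (((2 : ℤ) ^ J) ^ k) ^ 10 := by
          intro a
          have h1 := hz a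
          constructor
          · linarith [h1.1]
          · have h2 := h1.2
            have h3 : (0 : ℤ) ≤ (ρ : ℤ) := by positivity
            linarith
        refine hF i hi.1 (2 ^ (k * (J - i))) κ x y z hz0 ?_
        intro a
        have h1 := hz a
        have h2 := c2_mu_abs x y a
        rw [abs_le] at h2
        have h4 : ((2 ^ (k * (J - i)) : ℕ) : ℤ) ≤ (N : ℤ) := by exact_mod_cast hKN
        have h5 : -(N : ℤ) ≤ mu x y a := by linarith [h2.1]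
        have h6 : mu x y a ≤ (N : ℤ) := by linarith [h2.2]
        have hκ0 : (0 : ℤ) ≤ (κ : ℤ) := by positivity
        have h7 : (κ : ℤ) * -(N : ℤ) ≤ (κ : ℤ) * mu x y a := mul_le_mul_of_nonneg_left h5 hκ0
        have h8 : (κ : ℤ) * mu x y a ≤ (κ : ℤ) * (N : ℤ) := mul_le_mul_of_nonneg_left h6 hκ0
        rw [Pi.add_apply, Pi.smul_apply, smul_eq_mul]
        constructor
        · linarith [h1.1]
        · have h9 := h1.2
          have h10 : (0 : ℤ) ≤ (ρ : ℤ) := by positivity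
          linarith)
    rw [hcard] at h
    exact h
  -- step 3: the multi-scale inequality, averaged
  have hmain : ∑ i ∈ Finset.Ico 5 (J - 5), (2 : ℝ) ^ (i * (k - 1)) *
      ((∑ z ∈ B, tst (2 ^ (k * (J - i))) (Ld ρ ϕ z)) / (R' : ℝ) ^ N) ≤
      12 / (k : ℝ) * ((N : ℝ) * (k * (D * (2 * b)))) := by
    have h1 : ∑ i ∈ Finset.Ico 5 (J - 5), (2 : ℝ) ^ (i * (k - 1)) *
        ((∑ z ∈ B, tst (2 ^ (k * (J - i))) (Ld ρ ϕ z)) / (R' : ℝ) ^ N) =
        (∑ z ∈ B, ∑ i ∈ Finset.Ico 5 (J - 5), (2 : ℝ) ^ (i * (k - 1)) *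
          tst (2 ^ (k * (J - i))) (Ld ρ ϕ z)) / (R' : ℝ) ^ N := by
      rw [Finset.sum_comm, Finset.sum_div]
      refine Finset.sum_congr rfl fun i _ => ?_
      rw [← Finset.mul_sum, mul_div_assoc]
    rw [h1, div_le_iff₀ hRN]
    have h2 : ∀ z ∈ B, (∑ i ∈ Finset.Ico 5 (J - 5), (2 : ℝ) ^ (i * (k - 1)) *
        tst (2 ^ (k * (J - i))) (Ld ρ ϕ z)) ≤ 12 / (k : ℝ) * ((N : ℝ) * (k * (D * (2 * b)))) := by
      intro z hz
      refine (l1_ineq hk (Ld ρ ϕ z)).trans ?_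
      exact mul_le_mul_of_nonneg_left (hgrad z hz) (by positivity)
    refine (Finset.sum_le_card_nsmul _ _ _ h2).trans (le_of_eq ?_)
    rw [nsmul_eq_mul, hBcard]
    ring
  have hlow : ∑ i ∈ Finset.Ico 5 (J - 5), b * τ * N / 136 ≤
      12 / (k : ℝ) * ((N : ℝ) * (k * (D * (2 * b)))) := by
    refine le_trans (Finset.sum_le_sum fun i hi => ?_) hmain
    have h1 := hcore i hi
    rw [Finset.mem_Ico] at hi
    refine le_trans (le_of_eq ?_) (mul_le_mul_of_nonneg_left h1 (by positivity))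
    push_cast
    have h2 : (N : ℝ) = (2 : ℝ) ^ (i * (k - 1)) * 2 ^ i * (2 : ℝ) ^ (k * (J - i)) := by
      rw [hNR, ← pow_mul, ← pow_add, ← pow_add]
      congr 1
      have h3 : J = (J - i) + i := by omega
      obtain ⟨c, rfl⟩ : ∃ c, k = c + 1 := ⟨k - 1, by omega⟩
      simp only [Nat.add_sub_cancel]
      calc J * (c + 1) = ((J - i) + i) * (c + 1) := by rw [← h3]
        _ = _ := by ring
    rw [h2]
    ring
  rw [Finset.sum_const, Nat.card_Ico, nsmul_eq_mul] at hlow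
  have hNpos : (0 : ℝ) < N := by exact_mod_cast hN0
  have hJc : ((J - 5 - 5 : ℕ) : ℝ) = (J : ℝ) - 10 := by
    rw [show J - 5 - 5 = J - 10 by omega, Nat.cast_sub (by omega)]
    norm_num
  rw [hJc] at hlow
  have hr : 12 / (k : ℝ) * ((N : ℝ) * (k * (D * (2 * b)))) = 24 * D * (b * N) := by
    field_simp
    ring
  rw [hr] at hlow
  have hbN : 0 < b * N := by positivity
  have h5 : (τ * ((J : ℝ) - 10) / 3264) * (b * N) ≤ D * (b * N) := by
    have : ((J : ℝ) - 10) * (b * τ * N / 136) = 24 * ((τ * ((J : ℝ) - 10) / 3264) * (b * N)) := by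
      ring
    rw [this] at hlow
    linarith
  exact le_of_mul_le_mul_right h5 hbN

end Pool.Agent.GrO
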