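import Pool.Agent.GrO.Cfg

/-!
MODULE Geo (M). Existence of the clusters in the grid.

Put `b = 4 k w`. Let `q : Fin (w^k) ≃ (Fin k → Fin w)` (`finFunctionFinEquiv.symm` up to names). The point
`P a j` has the coordinates `b a_i + q_j(i)` for `i < k` and `0` for `k ≤ i < d`; the reservoir point with
index `(a, j)` (any bijection `Fin (card G * w^k) ≃ G × Fin (w^k)`) has the coordinates
`b a_i + w + q_j(i)` for `i < k` and `0` otherwise. As `2 w ≤ b` and `n b ≤ Δ` they are points of the grid,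
they are all distinct (quotient and remainder modulo `b` of the coordinates; for `P ≠ Q` the remainder
of the coordinate `0`). `Z` is any set of `s - n^k w^k` further points, which exist because
`2 n^k w^k + (s - n^k w^k) ≤ 2 s ≤ Δ^d`.
-/

set_option autoImplicit false

namespace Pool.Agent.GrO

open Finset Pool.Agent.MP_12e089_an

private theorem geo_dm {b a a' r r' : ℕ} (hr : r < b) (hr' : r' < b)
    (h : b * a + r = b * a' + r') : a = a' ∧ r = r' := by
  have h1 : a = a' := by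
    have e1 : (b * a + r) / b = a := by
      rw [Nat.mul_add_div (by omega), Nat.div_eq_of_lt hr, add_zero]
    have e2 : (b * a' + r') / b = a' := by
      rw [Nat.mul_add_div (by omega), Nat.div_eq_of_lt hr', add_zero]
    rw [← e1, ← e2, h]
  subst h1
  exact ⟨rfl, by omega⟩

/-- The point with the coordinates `b a_i + e + q_i` (`i < k`) and `0`. -/
private def gpt {Δ n k m w : ℕ} (b e : ℕ) (h0 : 0 < Δ) (hlt : ∀ x r : ℕ, x < n → r < w → b * x + e + r < Δ)
    (a : Grid n k) (q : Fin k → Fin w) : Grid Δ (k + m) :=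
  Fin.addCases (fun i => ⟨b * (a i : ℕ) + e + (q i : ℕ), hlt _ _ (a i).2 (q i).2⟩)
    (fun _ => ⟨0, h0⟩)

private theorem gpt_l {Δ n k m w b e : ℕ} (h0 : 0 < Δ)
    (hlt : ∀ x r : ℕ, x < n → r < w → b * x + e + r < Δ)
    (a : Grid n k) (q : Fin k → Fin w) (i : Fin k) :
    (gpt (m := m) b e h0 hlt a q (Fin.castAdd m i) : ℕ) = b * (a i : ℕ) + e + (q i : ℕ) := by
  simp [gpt]

private theorem gpt_r {Δ n k m w b e : ℕ} (h0 : 0 < Δ)
    (hlt : ∀ x r : ℕ, x < n → r < w → b * x + e + r < Δ)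
    (a : Grid n k) (q : Fin k → Fin w) (i : Fin m) :
    (gpt (m := m) b e h0 hlt a q (Fin.natAdd k i) : ℕ) = 0 := by
  simp [gpt]

private theorem geo_rho1 {Δ k m : ℕ} (x y : Grid Δ (k + m))
    (hx : ∀ i : Fin m, (x (Fin.natAdd k i) : ℕ) = 0) (hy : ∀ i : Fin m, (y (Fin.natAdd k i) : ℕ) = 0) :
    rho1 x y = ∑ i : Fin k, |((x (Fin.castAdd m i) : ℕ) : ℝ) - ((y (Fin.castAdd m i) : ℕ) : ℝ)| := by
  unfold rho1
  rw [Fin.sum_univ_add]
  have : ∑ i : Fin m, |((x (Fin.natAdd k i) : ℕ) : ℝ) - ((y (Fin.natAdd k i) : ℕ) : ℝ)| = 0 := by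
    refine Finset.sum_eq_zero fun i _ => ?_
    rw [hx, hy]; simp
  rw [this, add_zero]

private theorem geo_rho2 {Δ k m : ℕ} (x y : Grid Δ (k + m))
    (hx : ∀ i : Fin m, (x (Fin.natAdd k i) : ℕ) = 0) (hy : ∀ i : Fin m, (y (Fin.natAdd k i) : ℕ) = 0) :
    rho2 x y = Real.sqrt
      (∑ i : Fin k, (((x (Fin.castAdd m i) : ℕ) : ℝ) - ((y (Fin.castAdd m i) : ℕ) : ℝ)) ^ 2) := by
  unfold rho2
  rw [Fin.sum_univ_add]
  have : ∑ i : Fin m, (((x (Fin.natAdd k i) : ℕ) : ℝ) - ((y (Fin.natAdd k i) : ℕ) : ℝ)) ^ 2 = 0 := by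
    refine Finset.sum_eq_zero fun i _ => ?_
    rw [hx, hy]; simp
  rw [this, add_zero]

private theorem geo_mink {k : ℕ} (u v : Fin k → ℝ) :
    Real.sqrt (∑ i, u i ^ 2) ≤ Real.sqrt (∑ i, (u i + v i) ^ 2) + Real.sqrt (∑ i, v i ^ 2) := by
  have h := norm_sub_le (WithLp.toLp 2 (fun i => u i + v i) : EuclideanSpace ℝ (Fin k))
    (WithLp.toLp 2 v : EuclideanSpace ℝ (Fin k))
  have h1 : (WithLp.toLp 2 (fun i => u i + v i) : EuclideanSpace ℝ (Fin k)) -
      (WithLp.toLp 2 v : EuclideanSpace ℝ (Fin k)) = WithLp.toLp 2 u := by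
    ext i; simp
  rw [h1, EuclideanSpace.norm_eq, EuclideanSpace.norm_eq, EuclideanSpace.norm_eq] at h
  simpa [Real.norm_eq_abs, sq_abs] using h

/-- `ℓ_2` lower bound. -/
private theorem geo_low2 {k : ℕ} (b w : ℝ) (hb : 0 ≤ b) (hw : 0 ≤ w) (u v z : Fin k → ℝ)
    (hz : ∀ i, z i = b * u i + v i) (hv : ∀ i, |v i| ≤ w) :
    b * Real.sqrt (∑ i, u i ^ 2) - k * w ≤ Real.sqrt (∑ i, z i ^ 2) := by
  have h1 := geo_mink (fun i => b * u i) v
  have h2 : Real.sqrt (∑ i, (b * u i) ^ 2) = b * Real.sqrt (∑ i, u i ^ 2) := by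
    have : ∑ i, (b * u i) ^ 2 = b ^ 2 * ∑ i, u i ^ 2 := by
      rw [Finset.mul_sum]
      exact Finset.sum_congr rfl fun i _ => by ring
    rw [this, Real.sqrt_mul (sq_nonneg b), Real.sqrt_sq hb]
  have h3 : Real.sqrt (∑ i, v i ^ 2) ≤ k * w := by
    rw [Real.sqrt_le_left (by positivity)]
    have h4 : ∑ i, v i ^ 2 ≤ ∑ _i : Fin k, w ^ 2 :=
      Finset.sum_le_sum fun i _ => by
        rw [← sq_abs]
        exact pow_le_pow_left₀ (abs_nonneg _) (hv i) 2
    have h5 : ∑ _i : Fin k, w ^ 2 = k * w ^ 2 := by simp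
    rcases Nat.eq_zero_or_pos k with hk | hk
    · subst hk; simp
    have hk1 : (1 : ℝ) ≤ k := by exact_mod_cast hk
    have : (k : ℝ) * w ^ 2 ≤ (k * w) ^ 2 := by
      have h7 : (k : ℝ) * w ^ 2 ≤ (k : ℝ) * k * w ^ 2 := by
        have h8 : 0 ≤ (k : ℝ) * w ^ 2 := by positivity
        have h9 := mul_le_mul_of_nonneg_left hk1 h8
        linarith
      linarith [mul_pow (k : ℝ) w 2]
    linarith
  have h6 : ∑ i, z i ^ 2 = ∑ i, (b * u i + v i) ^ 2 :=
    Finset.sum_congr rfl fun i _ => by rw [hz i]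
  rw [h6]
  linarith [h1, h2, h3]

private theorem geo_abs {x y w : ℕ} (hx : x < w) (hy : y < w) : |(x : ℝ) - (y : ℝ)| ≤ (w : ℝ) := by
  have h1 : (x : ℝ) < w := by exact_mod_cast hx
  have h2 : (y : ℝ) < w := by exact_mod_cast hy
  have h3 : (0 : ℝ) ≤ x := Nat.cast_nonneg _
  have h4 : (0 : ℝ) ≤ y := Nat.cast_nonneg _
  rw [abs_le]
  constructor <;> linarith

theorem cfg_exists {Δ d s n k w : ℕ} (hn : 1 ≤ n) (hk : 1 ≤ k) (hkd : k ≤ d) (hw : 1 ≤ w)
    (hb : n * (4 * k * w) ≤ Δ) (hs : n ^ k * w ^ k ≤ s) (hs2 : 2 * s ≤ Δ ^ d) :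
    ∃ c : Cfg (Grid n k) (w ^ k) (Grid Δ d) s,
      (∀ a j t, rho1 (c.P a j) (c.Q t) ≤ (k : ℝ) * (n * (4 * k * w))) ∧
      (∀ a j a' j', rho1 (c.P a j) (c.P a' j') ≤ (4 * k * w : ℝ) * rho1 a a' + k * w) ∧
      (∀ a j a' j', (4 * k * w : ℝ) * rho1 a a' - k * w ≤ rho1 (c.P a j) (c.P a' j')) ∧
      (∀ a j a' j', (4 * k * w : ℝ) * rho2 a a' - k * w ≤ rho2 (c.P a j) (c.P a' j')) := by
  classical
  obtain ⟨m, rfl⟩ := Nat.exists_eq_add_of_le hkd
  have hb2 : 2 * w ≤ 4 * k * w := by nlinarith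
  have hbw : w < 4 * k * w := by omega
  have h0 : 0 < Δ := by
    have : 0 < n * (4 * k * w) := by positivity
    omega
  set b := 4 * k * w with hbdef
  have hlt : ∀ e, e ≤ w → ∀ x r : ℕ, x < n → r < w → b * x + e + r < Δ := by
    intro e he x r hx hr
    have h1 : b * (x + 1) ≤ b * n := Nat.mul_le_mul_left b hx
    have h2 : b * (x + 1) = b * x + b := by ring
    have h3 : b * n = n * b := by ring
    omega
  have hlt0 := hlt 0 (Nat.zero_le _)
  have hltw := hlt w le_rfl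
  -- the indexing bijections
  let q : Fin (w ^ k) ≃ (Fin k → Fin w) := finFunctionFinEquiv.symm
  let e : Fin (Fintype.card (Grid n k) * w ^ k) ≃ Grid n k × Fin (w ^ k) :=
    (Fintype.equivFinOfCardEq (by simp)).symm
  let P : Grid n k → Fin (w ^ k) → Grid Δ (k + m) := fun a j => gpt b 0 h0 hlt0 a (q j)
  let Q : Fin (Fintype.card (Grid n k) * w ^ k) → Grid Δ (k + m) :=
    fun t => gpt b w h0 hltw (e t).1 (q (e t).2)
  have hPl : ∀ a j i, (P a j (Fin.castAdd m i) : ℕ) = b * (a i : ℕ) + 0 + (q j i : ℕ) :=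
    fun a j i => gpt_l h0 hlt0 a (q j) i
  have hPr : ∀ a j i, (P a j (Fin.natAdd k i) : ℕ) = 0 := fun a j i => gpt_r h0 hlt0 a (q j) i
  have hQl : ∀ t i, (Q t (Fin.castAdd m i) : ℕ) = b * ((e t).1 i : ℕ) + w + (q (e t).2 i : ℕ) :=
    fun t i => gpt_l h0 hltw (e t).1 (q (e t).2) i
  have hQr : ∀ t i, (Q t (Fin.natAdd k i) : ℕ) = 0 :=
    fun t i => gpt_r h0 hltw (e t).1 (q (e t).2) i
  have hPinj : ∀ a j a' j', P a j = P a' j' → a = a' ∧ j = j' := by
    intro a j a' j' h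
    have hc : ∀ i : Fin k, a i = a' i ∧ q j i = q j' i := by
      intro i
      have h1 : (P a j (Fin.castAdd m i) : ℕ) = P a' j' (Fin.castAdd m i) := by rw [h]
      rw [hPl, hPl] at h1
      have h2 := (q j i).2
      have h3 := (q j' i).2
      have h4 := geo_dm (b := b) (a := a i) (a' := a' i) (r := q j i) (r' := q j' i)
        (by omega) (by omega) (by omega)
      exact ⟨Fin.ext h4.1, Fin.ext h4.2⟩
    exact ⟨funext fun i => (hc i).1, q.injective (funext fun i => (hc i).2)⟩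
  have hQinj : Function.Injective Q := by
    intro t t' h
    have hc : ∀ i : Fin k, (e t).1 i = (e t').1 i ∧ q (e t).2 i = q (e t').2 i := by
      intro i
      have h1 : (Q t (Fin.castAdd m i) : ℕ) = Q t' (Fin.castAdd m i) := by rw [h]
      rw [hQl, hQl] at h1
      have h2 := (q (e t).2 i).2
      have h3 := (q (e t').2 i).2
      have h4 := geo_dm (b := b) (a := (e t).1 i) (a' := (e t').1 i) (r := q (e t).2 i)
        (r' := q (e t').2 i) (by omega) (by omega) (by omega)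
      exact ⟨Fin.ext h4.1, Fin.ext h4.2⟩
    exact e.injective (Prod.ext (funext fun i => (hc i).1)
      (q.injective (funext fun i => (hc i).2)))
  have hPQ : ∀ a j t, P a j ≠ Q t := by
    intro a j t h
    have h1 : (P a j (Fin.castAdd m ⟨0, hk⟩) : ℕ) = Q t (Fin.castAdd m ⟨0, hk⟩) := by rw [h]
    rw [hPl, hQl] at h1
    have h2 := (q j ⟨0, hk⟩).2
    have h3 := (q (e t).2 ⟨0, hk⟩).2
    have h4 := geo_dm (b := b) (a := a ⟨0, hk⟩) (a' := (e t).1 ⟨0, hk⟩) (r := q j ⟨0, hk⟩)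
      (r' := w + q (e t).2 ⟨0, hk⟩) (by omega) (by omega) (by omega)
    omega
  -- the fixed points
  let A : Finset (Grid Δ (k + m)) := (univ.image fun p : Grid n k × Fin (w ^ k) => P p.1 p.2) ∪
    univ.image Q
  have hA : A.card ≤ n ^ k * w ^ k + n ^ k * w ^ k := by
    refine (Finset.card_union_le _ _).trans (add_le_add ?_ ?_)
    · refine Finset.card_image_le.trans ?_
      rw [Finset.card_univ]; simp
    · refine Finset.card_image_le.trans ?_
      rw [Finset.card_univ]; simp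
  have hcA : s - n ^ k * w ^ k ≤ Aᶜ.card := by
    rw [Finset.card_compl]
    have : Fintype.card (Grid Δ (k + m)) = Δ ^ (k + m) := by simp
    rw [this]
    omega
  obtain ⟨Z, hZA, hZc⟩ := Finset.exists_subset_card_eq hcA
  have hPA : ∀ a j, P a j ∈ A := fun a j =>
    Finset.mem_union_left _ (Finset.mem_image.2 ⟨(a, j), Finset.mem_univ _, rfl⟩)
  have hQA : ∀ t, Q t ∈ A := fun t =>
    Finset.mem_union_right _ (Finset.mem_image.2 ⟨t, Finset.mem_univ _, rfl⟩)
  refine ⟨⟨P, Q, Z, hPinj, hQinj, hPQ, fun a j h => ?_, fun t h => ?_, ?_⟩, ?_, ?_, ?_, ?_⟩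
  · exact (Finset.mem_compl.1 (hZA h)) (hPA a j)
  · exact (Finset.mem_compl.1 (hZA h)) (hQA t)
  · rw [hZc]
    have : Fintype.card (Grid n k) = n ^ k := by simp
    rw [this]
    omega
  · intro a j t
    change rho1 (P a j) (Q t) ≤ _
    rw [geo_rho1 _ _ (hPr a j) (hQr t)]
    have h1 : ∀ i : Fin k, |((P a j (Fin.castAdd m i) : ℕ) : ℝ) -
        ((Q t (Fin.castAdd m i) : ℕ) : ℝ)| ≤ (n * (4 * k * w) : ℝ) := by
      intro i
      have h2 : (P a j (Fin.castAdd m i) : ℕ) < n * b := by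
        rw [hPl]
        have h3 := (q j i).2
        have h4 : b * ((a i : ℕ) + 1) ≤ b * n := Nat.mul_le_mul_left b (a i).2
        have h5 : b * ((a i : ℕ) + 1) = b * (a i : ℕ) + b := by ring
        have h6 : b * n = n * b := by ring
        omega
      have h2' : (Q t (Fin.castAdd m i) : ℕ) < n * b := by
        rw [hQl]
        have h3 := (q (e t).2 i).2
        have h4 : b * (((e t).1 i : ℕ) + 1) ≤ b * n := Nat.mul_le_mul_left b ((e t).1 i).2
        have h5 : b * (((e t).1 i : ℕ) + 1) = b * ((e t).1 i : ℕ) + b := by ring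
        have h6 : b * n = n * b := by ring
        omega
      have h3 := geo_abs h2 h2'
      rw [hbdef] at h3
      push_cast at h3
      linarith [h3]
    calc _ ≤ ∑ _i : Fin k, (n * (4 * k * w) : ℝ) := Finset.sum_le_sum fun i _ => h1 i
      _ = _ := by simp
  · intro a j a' j'
    change rho1 (P a j) (P a' j') ≤ _
    rw [geo_rho1 _ _ (hPr a j) (hPr a' j')]
    have h1 : ∀ i : Fin k, |((P a j (Fin.castAdd m i) : ℕ) : ℝ) -
        ((P a' j' (Fin.castAdd m i) : ℕ) : ℝ)| ≤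
          (4 * k * w : ℝ) * |((a i : ℕ) : ℝ) - ((a' i : ℕ) : ℝ)| + w := by
      intro i
      rw [hPl, hPl]
      have h2 := geo_abs (q j i).2 (q j' i).2
      have h3 : ((b * (a i : ℕ) + 0 + (q j i : ℕ) : ℕ) : ℝ) -
          ((b * (a' i : ℕ) + 0 + (q j' i : ℕ) : ℕ) : ℝ) =
          (4 * k * w : ℝ) * (((a i : ℕ) : ℝ) - ((a' i : ℕ) : ℝ)) +
            (((q j i : ℕ) : ℝ) - ((q j' i : ℕ) : ℝ)) := by
        rw [hbdef]; push_cast; ring
      rw [h3]
      refine (abs_add_le _ _).trans ?_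
      rw [abs_mul, abs_of_nonneg (by positivity : (0 : ℝ) ≤ 4 * k * w)]
      linarith
    calc _ ≤ ∑ i : Fin k, ((4 * k * w : ℝ) * |((a i : ℕ) : ℝ) - ((a' i : ℕ) : ℝ)| + w) :=
          Finset.sum_le_sum fun i _ => h1 i
      _ = _ := by
        rw [Finset.sum_add_distrib, ← Finset.mul_sum]
        simp [rho1]
  · intro a j a' j'
    change _ ≤ rho1 (P a j) (P a' j')
    rw [geo_rho1 _ _ (hPr a j) (hPr a' j')]
    have h1 : ∀ i : Fin k, (4 * k * w : ℝ) * |((a i : ℕ) : ℝ) - ((a' i : ℕ) : ℝ)| - w ≤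
        |((P a j (Fin.castAdd m i) : ℕ) : ℝ) - ((P a' j' (Fin.castAdd m i) : ℕ) : ℝ)| := by
      intro i
      rw [hPl, hPl]
      have h2 := geo_abs (q j i).2 (q j' i).2
      have h3 : ((b * (a i : ℕ) + 0 + (q j i : ℕ) : ℕ) : ℝ) -
          ((b * (a' i : ℕ) + 0 + (q j' i : ℕ) : ℕ) : ℝ) =
          (4 * k * w : ℝ) * (((a i : ℕ) : ℝ) - ((a' i : ℕ) : ℝ)) -
            -(((q j i : ℕ) : ℝ) - ((q j' i : ℕ) : ℝ)) := by
        rw [hbdef]; push_cast; ring
      rw [h3]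
      refine le_trans ?_ (abs_sub_abs_le_abs_sub _ _)
      rw [abs_mul, abs_of_nonneg (by positivity : (0 : ℝ) ≤ 4 * k * w), abs_neg]
      linarith
    calc _ = ∑ i : Fin k, ((4 * k * w : ℝ) * |((a i : ℕ) : ℝ) - ((a' i : ℕ) : ℝ)| - w) := by
          rw [Finset.sum_sub_distrib, ← Finset.mul_sum]
          simp [rho1]
      _ ≤ _ := Finset.sum_le_sum fun i _ => h1 i
  · intro a j a' j'
    change _ ≤ rho2 (P a j) (P a' j')
    rw [geo_rho2 _ _ (hPr a j) (hPr a' j')]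
    unfold rho2
    refine geo_low2 (4 * k * w : ℝ) (w : ℝ) (by positivity) (by positivity)
      (fun i => ((a i : ℕ) : ℝ) - ((a' i : ℕ) : ℝ))
      (fun i => ((q j i : ℕ) : ℝ) - ((q j' i : ℕ) : ℝ)) _ (fun i => ?_)
      (fun i => geo_abs (q j i).2 (q j' i).2)
    simp only [hPl]
    rw [hbdef]; push_cast; ring

end Pool.Agent.GrO
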