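import Mathlib

/-!
MODULE LW (M). The Loomis-Whitney inequality.

Proof. Induction on the number of indices, Hoelder. Write `q = card ι - 1`. For `card ι ≤ 1` the left
side is `1` and the factors are `≥ 1` (`A` is nonempty). For the step choose an index `o`, let `A_t` be
the fibre over `x o = t`. By induction `|A_t|^(q-1) ≤ ∏_{j ≠ o} |π_j A_t|`, and `|A_t| ≤ |π_o A|`, so
`|A_t| ≤ |π_o A|^(1/q) ∏_{j ≠ o} |π_j A_t|^(1/q)`; sum over `t` with the generalized Hoelder inequality
(`ENNReal.lintegral_prod_norm_pow_le` for the counting measure, or `Finset.inner_le_Lp...` and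
induction) and use `∑_t |π_j A_t| = |π_j A|` for `j ≠ o`. It may be easier to prove it for
`ι = Fin m` (`Fin.cons`) and then transfer with `Fintype.equivFin`.
-/

set_option autoImplicit false

namespace Pool.Agent.GrO

private theorem LW_holder {ι T : Type} (s : Finset ι) (hs : s.Nonempty) (R : Finset T) (C : ℝ)
    (hC : 0 ≤ C) (N : T → ℝ) (hN : ∀ t ∈ R, 0 ≤ N t) (a : ι → T → ℝ)
    (ha : ∀ j ∈ s, ∀ t ∈ R, 0 ≤ a j t)
    (h : ∀ t ∈ R, N t ^ s.card ≤ C * ∏ j ∈ s, a j t) :
    (∑ t ∈ R, N t) ^ s.card ≤ C * ∏ j ∈ s, ∑ t ∈ R, a j t := by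
  have hm : s.card ≠ 0 := Finset.card_ne_zero.2 hs
  have hm' : (0 : ℝ) < s.card := by exact_mod_cast Nat.pos_of_ne_zero hm
  have hS0 : ∀ j ∈ s, 0 ≤ ∑ t ∈ R, a j t := fun j hj => Finset.sum_nonneg (ha j hj)
  by_cases hz : ∃ j ∈ s, ∑ t ∈ R, a j t = 0
  · obtain ⟨j, hj, hj0⟩ := hz
    have h0 : ∀ t ∈ R, N t = 0 := by
      intro t ht
      have h1 : a j t = 0 := (Finset.sum_eq_zero_iff_of_nonneg (ha j hj)).1 hj0 t ht
      have h2 : N t ^ s.card ≤ 0 := by
        have := h t ht
        rwa [Finset.prod_eq_zero hj h1, mul_zero] at this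
      have h3 : N t ^ s.card = 0 := le_antisymm h2 (pow_nonneg (hN t ht) _)
      exact pow_eq_zero_iff hm |>.1 h3
    rw [Finset.sum_eq_zero h0, zero_pow hm]
    exact mul_nonneg hC (Finset.prod_nonneg hS0)
  · push Not at hz
    have hS : ∀ j ∈ s, 0 < ∑ t ∈ R, a j t := fun j hj => lt_of_le_of_ne (hS0 j hj) (hz j hj).symm
    set S : ι → ℝ := fun j => ∑ t ∈ R, a j t with hSdef
    have hP : 0 < ∏ j ∈ s, S j := Finset.prod_pos hS
    set Q : ℝ := (C * ∏ j ∈ s, S j) ^ ((s.card : ℝ)⁻¹) with hQ
    have hQ0 : 0 ≤ Q := Real.rpow_nonneg (mul_nonneg hC hP.le) _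
    have hQm : Q ^ s.card = C * ∏ j ∈ s, S j := Real.rpow_inv_natCast_pow (mul_nonneg hC hP.le) hm
    have key : ∀ t ∈ R, N t ≤ Q * ∑ j ∈ s, (s.card : ℝ)⁻¹ * (a j t / S j) := by
      intro t ht
      have h1 : N t ≤ Q * ∏ j ∈ s, (a j t / S j) ^ ((s.card : ℝ)⁻¹) := by
        have hb0 : 0 ≤ ∏ j ∈ s, (a j t / S j) ^ ((s.card : ℝ)⁻¹) :=
          Finset.prod_nonneg fun j hj =>
            Real.rpow_nonneg (div_nonneg (ha j hj t ht) (hS0 j hj)) _
        refine le_of_pow_le_pow_left₀ hm (mul_nonneg hQ0 hb0) ?_
        rw [mul_pow, hQm, ← Finset.prod_pow]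
        have h2 : ∏ j ∈ s, ((a j t / S j) ^ ((s.card : ℝ)⁻¹)) ^ s.card
            = (∏ j ∈ s, a j t) / ∏ j ∈ s, S j := by
          rw [← Finset.prod_div_distrib]
          refine Finset.prod_congr rfl fun j hj => ?_
          exact Real.rpow_inv_natCast_pow (div_nonneg (ha j hj t ht) (hS0 j hj)) hm
        rw [h2]
        calc N t ^ s.card ≤ C * ∏ j ∈ s, a j t := h t ht
          _ = C * (∏ j ∈ s, S j) * ((∏ j ∈ s, a j t) / ∏ j ∈ s, S j) := by
              field_simp
      refine h1.trans (mul_le_mul_of_nonneg_left ?_ hQ0)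
      refine Real.geom_mean_le_arith_mean_weighted s (fun _ => (s.card : ℝ)⁻¹)
        (fun j => a j t / S j) (fun _ _ => inv_nonneg.2 hm'.le) ?_
        (fun j hj => div_nonneg (ha j hj t ht) (hS0 j hj))
      rw [Finset.sum_const, nsmul_eq_mul, mul_inv_cancel₀ hm'.ne']
    have h3 : ∑ t ∈ R, N t ≤ Q := by
      calc ∑ t ∈ R, N t ≤ ∑ t ∈ R, Q * ∑ j ∈ s, (s.card : ℝ)⁻¹ * (a j t / S j) :=
            Finset.sum_le_sum key
        _ = Q * ∑ j ∈ s, ∑ t ∈ R, (s.card : ℝ)⁻¹ * (a j t / S j) := by
            rw [← Finset.mul_sum, Finset.sum_comm]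
        _ = Q * ∑ j ∈ s, (s.card : ℝ)⁻¹ := by
            congr 1
            refine Finset.sum_congr rfl fun j hj => ?_
            rw [← Finset.mul_sum, ← Finset.sum_div, div_self (hS j hj).ne', mul_one]
        _ = Q := by
            rw [Finset.sum_const, nsmul_eq_mul, mul_inv_cancel₀ hm'.ne', mul_one]
    calc (∑ t ∈ R, N t) ^ s.card ≤ Q ^ s.card :=
          pow_le_pow_left₀ (Finset.sum_nonneg hN) h3 _
      _ = C * ∏ j ∈ s, S j := hQm

private theorem LW_aux {ι X : Type} [DecidableEq ι] [DecidableEq X] [Fintype ι] (z : X)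
    (s : Finset ι) : ∀ A : Finset (ι → X), A.Nonempty →
      A.card ^ (s.card - 1) ≤ ∏ j ∈ s, (A.image fun x => Function.update x j z).card := by
  induction s using Finset.induction_on with
  | empty => intro A _; simp
  | insert o s ho ih =>
    intro A hA
    rw [Finset.card_insert_of_notMem ho, Nat.add_sub_cancel, Finset.prod_insert ho]
    rcases s.eq_empty_or_nonempty with hs | hs
    · subst hs
      simp only [Finset.card_empty, pow_zero, Finset.prod_empty, mul_one]
      exact Finset.card_pos.2 (hA.image _)
    · set T : Finset X := A.image fun x => x o with hT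
      have hm : s.card ≠ 0 := Finset.card_ne_zero.2 hs
      have hcardA : A.card = ∑ t ∈ T, (A.filter fun x => x o = t).card :=
        Finset.card_eq_sum_card_image _ _
      have hcardj : ∀ j ∈ s, (A.image fun x => Function.update x j z).card
          = ∑ t ∈ T, ((A.filter fun x => x o = t).image fun x => Function.update x j z).card := by
        intro j hj
        have hjo : o ≠ j := fun h => ho (h ▸ hj)
        have h1 : ∀ x ∈ (A.image fun x => Function.update x j z), x o ∈ T := by
          intro x hx
          obtain ⟨y, hy, rfl⟩ := Finset.mem_image.1 hx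
          rw [Function.update_of_ne hjo]
          exact Finset.mem_image_of_mem _ hy
        rw [Finset.card_eq_sum_card_fiberwise h1]
        refine Finset.sum_congr rfl fun t _ => ?_
        congr 1
        ext x
        simp only [Finset.mem_filter, Finset.mem_image]
        constructor
        · rintro ⟨⟨y, hy, rfl⟩, hxt⟩
          rw [Function.update_of_ne hjo] at hxt
          exact ⟨y, ⟨hy, hxt⟩, rfl⟩
        · rintro ⟨y, ⟨hy, hyt⟩, rfl⟩
          refine ⟨⟨y, hy, rfl⟩, ?_⟩
          rw [Function.update_of_ne hjo, hyt]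
      have hfib : ∀ t ∈ T, ((A.filter fun x => x o = t).card : ℝ) ^ s.card
          ≤ ((A.image fun x => Function.update x o z).card : ℝ) *
            ∏ j ∈ s, (((A.filter fun x => x o = t).image fun x => Function.update x j z).card : ℝ) := by
        intro t ht
        obtain ⟨y, hy, hyt⟩ := Finset.mem_image.1 ht
        have hne : (A.filter fun x => x o = t).Nonempty := ⟨y, Finset.mem_filter.2 ⟨hy, hyt⟩⟩
        have h1 := ih _ hne
        have h2 : (A.filter fun x => x o = t).card
            ≤ (A.image fun x => Function.update x o z).card := by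
          have hinj : Set.InjOn (fun x : ι → X => Function.update x o z)
              (A.filter fun x => x o = t : Finset (ι → X)) := by
            intro x hx y hy hxy
            have hx' := (Finset.mem_filter.1 (Finset.mem_coe.1 hx)).2
            have hy' := (Finset.mem_filter.1 (Finset.mem_coe.1 hy)).2
            funext i
            by_cases hi : i = o
            · rw [hi, hx', hy']
            · have := congrFun hxy i
              simpa [Function.update_of_ne hi] using this
          rw [← Finset.card_image_of_injOn hinj]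
          exact Finset.card_le_card (Finset.image_subset_image (Finset.filter_subset _ _))
        have h3 : (A.filter fun x => x o = t).card ^ s.card
            ≤ (A.image fun x => Function.update x o z).card *
            ∏ j ∈ s, ((A.filter fun x => x o = t).image fun x => Function.update x j z).card := by
          calc (A.filter fun x => x o = t).card ^ s.card
              = (A.filter fun x => x o = t).card * (A.filter fun x => x o = t).card ^ (s.card - 1) := by
                rw [← pow_succ', Nat.sub_add_cancel (Nat.one_le_iff_ne_zero.2 hm)]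
            _ ≤ _ := Nat.mul_le_mul h2 h1
        exact_mod_cast h3
      have hH := LW_holder s hs T ((A.image fun x => Function.update x o z).card : ℝ)
        (Nat.cast_nonneg _) (fun t => ((A.filter fun x => x o = t).card : ℝ))
        (fun _ _ => Nat.cast_nonneg _)
        (fun j t => (((A.filter fun x => x o = t).image fun x => Function.update x j z).card : ℝ))
        (fun _ _ _ _ => Nat.cast_nonneg _) hfib
      have h4 : ((A.card : ℝ)) ^ s.card ≤ ((A.image fun x => Function.update x o z).card : ℝ) *
          ∏ j ∈ s, ((A.image fun x => Function.update x j z).card : ℝ) := by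
        have e1 : (A.card : ℝ) = ∑ t ∈ T, ((A.filter fun x => x o = t).card : ℝ) := by
          rw [hcardA]; push_cast; rfl
        have e2 : ∏ j ∈ s, ((A.image fun x => Function.update x j z).card : ℝ)
            = ∏ j ∈ s, ∑ t ∈ T,
              (((A.filter fun x => x o = t).image fun x => Function.update x j z).card : ℝ) := by
          refine Finset.prod_congr rfl fun j hj => ?_
          rw [hcardj j hj]; push_cast; rfl
        rw [e1, e2]
        exact hH
      exact_mod_cast h4

theorem loomis_whitney {ι X : Type} [Fintype ι] [DecidableEq ι] [DecidableEq X] (z : X)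
    (A : Finset (ι → X)) (hA : A.Nonempty) :
    A.card ^ (Fintype.card ι - 1) ≤
      ∏ j, (A.image fun x => Function.update x j z).card := by
  exact LW_aux z Finset.univ A hA

end Pool.Agent.GrO
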