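import Pool.Agent.GrO.Basic
import Pool.Agent.GrO.LW

/-!
MODULE Iso (M). Edge isoperimetry in the grid `[n]^k`.

Proof. `A = ∅`: the left side is `0` (`0 ^ (1 - 1/k) = 0` as `k ≥ 2`). Otherwise `n ≥ 1`; fix `z = 0`. For a direction
`j` the set `A` is the disjoint union of its intersections with the lines `{x | update x j 0 = p}`,
`p ∈ π_j A` (the image of `A` under `update · j 0`). A line which is contained in `A` has `n` points of
`A`; on every other line that meets `A` there is at least one `t` with `t + 1 < n` such that exactly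
one of the points with coordinate `t`, `t + 1` lies in `A`, i.e. `‖ind A (upd x j h) - ind A x‖ = 1`.
So the part of `grad (ind A)` in direction `j` is at least `|π_j A| - |A| / n`. Sum over `j` and use
AM-GM (`Real.inner_le_nnorm_mul_nnorm`.. or `Real.geom_mean_le_arith_mean_weighted`):
`∑_j |π_j A| ≥ k (∏_j |π_j A|)^(1/k) ≥ k (|A|^(k-1))^(1/k) = k |A|^(1 - 1/k)` by `loomis_whitney`.
-/

set_option autoImplicit false

namespace Pool.Agent.GrO

open Finset Pool.Agent.MP_12e089_an

/-- A predicate on `Fin n` which takes both values changes somewhere. -/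
private theorem exists_change {n : ℕ} (b : Fin n → Prop) (t₀ t₁ : Fin n) (h₀ : b t₀)
    (h₁ : ¬ b t₁) :
    ∃ (t : Fin n) (h : (t : ℕ) + 1 < n), ¬ (b t ↔ b ⟨(t : ℕ) + 1, h⟩) := by
  by_contra hcon
  push Not at hcon
  have key : ∀ (m : ℕ) (hm : m < n), b ⟨m, hm⟩ ↔ b ⟨0, by omega⟩ := by
    intro m
    induction m with
    | zero => intro hm; exact Iff.rfl
    | succ m ih =>
      intro hm
      have h1 := hcon ⟨m, by omega⟩ hm
      exact h1.symm.trans (ih (by omega))
  exact h₁ ((key t₁ t₁.2).2 ((key t₀ t₀.2).1 h₀))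

/-- The edge term of `grad (ind A)` in direction `j`. -/
private noncomputable def et {n k : ℕ} (A : Finset (Grid n k)) (j : Fin k) (x : Grid n k) : ℝ :=
  if h : (x j : ℕ) + 1 < n then ‖ind A (upd x j h) - ind A x‖ else 0

private theorem et_nonneg {n k : ℕ} (A : Finset (Grid n k)) (j : Fin k) (x : Grid n k) :
    0 ≤ et A j x := by
  unfold et
  split_ifs
  · exact norm_nonneg _
  · exact le_rfl

/-- On a line which meets `A` the edge terms sum up to at least `1 - a / n`. -/
private theorem line {n k : ℕ} (A : Finset (Grid n k)) (j : Fin k) (p : Grid n k)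
    (hp : ∃ t, Function.update p j t ∈ A) :
    1 - ((univ.filter fun t => Function.update p j t ∈ A).card : ℝ) / n ≤
      ∑ t, et A j (Function.update p j t) := by
  have hn : (0 : ℝ) < n := by
    obtain ⟨t, -⟩ := hp
    exact_mod_cast (Nat.pos_of_ne_zero (by have := t.2; omega))
  by_cases hall : ∀ t, Function.update p j t ∈ A
  · have h1 : (univ.filter fun t => Function.update p j t ∈ A).card = n := by
      rw [Finset.filter_true_of_mem (fun t _ => hall t)]
      simp
    rw [h1, div_self hn.ne']
    have : 0 ≤ ∑ t, et A j (Function.update p j t) :=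
      Finset.sum_nonneg fun t _ => et_nonneg A j _
    linarith
  · push Not at hall
    obtain ⟨t₁, ht₁⟩ := hall
    obtain ⟨t₀, ht₀⟩ := hp
    obtain ⟨t, h, hne⟩ := exists_change (fun t => Function.update p j t ∈ A) t₀ t₁ ht₀ ht₁
    have h2 : et A j (Function.update p j t) = 1 := by
      have h3 : ((Function.update p j t) j : ℕ) + 1 < n := by simpa using h
      unfold et
      rw [dif_pos h3]
      have h4 : upd (Function.update p j t) j h3 = Function.update p j ⟨(t : ℕ) + 1, h⟩ := by
        unfold upd
        rw [Function.update_idem]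
        congr 1
        apply Fin.ext
        simp
      rw [h4]
      unfold ind
      by_cases h5 : Function.update p j t ∈ A
      · have h6 : Function.update p j ⟨(t : ℕ) + 1, h⟩ ∉ A := fun h7 => hne (by simp [h5, h7])
        rw [if_neg h6, if_pos h5]
        norm_num
      · have h6 : Function.update p j ⟨(t : ℕ) + 1, h⟩ ∈ A := by
          by_contra h7
          exact hne (by simp [h5, h7])
        rw [if_pos h6, if_neg h5]
        norm_num
    have h8 : et A j (Function.update p j t) ≤ ∑ t, et A j (Function.update p j t) :=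
      Finset.single_le_sum (f := fun t => et A j (Function.update p j t))
        (fun t _ => et_nonneg A j _) (Finset.mem_univ t)
    have h9 : 0 ≤ ((univ.filter fun t => Function.update p j t ∈ A).card : ℝ) / n := by
      positivity
    linarith

private theorem dir {n k : ℕ} (A : Finset (Grid n k)) (j : Fin k) (z : Fin n) :
    ((A.image fun x => Function.update x j z).card : ℝ) - (A.card : ℝ) / n ≤
      ∑ x, et A j x := by
  classical
  set P := A.image fun x => Function.update x j z with hP
  have hn : (0 : ℝ) < n := by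
    exact_mod_cast (Nat.pos_of_ne_zero (by have := z.2; omega))
  have hPz : ∀ p ∈ P, ∀ t : Fin n, Function.update (Function.update p j t) j z = p := by
    intro p hp t
    obtain ⟨x, -, rfl⟩ := Finset.mem_image.1 hp
    rw [Function.update_idem, Function.update_idem]
  have hinj : Set.InjOn (fun q : Grid n k × Fin n => Function.update q.1 j q.2)
      (P ×ˢ (univ : Finset (Fin n)) : Finset (Grid n k × Fin n)) := by
    rintro ⟨p, t⟩ hq ⟨p', t'⟩ hq' heq
    have hp : p ∈ P := (Finset.mem_product.1 (Finset.mem_coe.1 hq)).1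
    have hp' : p' ∈ P := (Finset.mem_product.1 (Finset.mem_coe.1 hq')).1
    simp only at heq
    have h1 : p = p' := by
      rw [← hPz p hp t, ← hPz p' hp' t', heq]
    have h2 : t = t' := by
      have := congrFun heq j
      simpa using this
    rw [h1, h2]
  -- the sum over the lines
  have h1 : ∑ p ∈ P, ∑ t, et A j (Function.update p j t) ≤ ∑ x, et A j x := by
    rw [← Finset.sum_product' (s := P) (t := univ)
      (f := fun p t => et A j (Function.update p j t))]
    rw [← Finset.sum_image (s := P ×ˢ univ) (g := fun q : Grid n k × Fin n =>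
      Function.update q.1 j q.2) (f := et A j) hinj]
    exact Finset.sum_le_sum_of_subset_of_nonneg (Finset.subset_univ _)
      (fun x _ _ => et_nonneg A j x)
  have h2 : ∑ p ∈ P, (1 - ((univ.filter fun t => Function.update p j t ∈ A).card : ℝ) / n) ≤
      ∑ p ∈ P, ∑ t, et A j (Function.update p j t) := by
    apply Finset.sum_le_sum
    intro p hp
    apply line
    obtain ⟨x, hx, rfl⟩ := Finset.mem_image.1 hp
    refine ⟨x j, ?_⟩
    rw [Function.update_idem, Function.update_eq_self]
    exact hx
  have h3 : ∑ p ∈ P, (univ.filter fun t => Function.update p j t ∈ A).card ≤ A.card := by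
    have h4 : ∑ p ∈ P, (univ.filter fun t => Function.update p j t ∈ A).card =
        (P.sigma fun p => univ.filter fun t => Function.update p j t ∈ A).card := by
      rw [Finset.card_sigma]
    rw [h4]
    apply Finset.card_le_card_of_injOn
      (fun q : (Σ _ : Grid n k, Fin n) => Function.update q.1 j q.2)
    · intro q hq
      exact (Finset.mem_filter.1 (Finset.mem_sigma.1 (Finset.mem_coe.1 hq)).2).2
    · rintro ⟨p, t⟩ hq ⟨p', t'⟩ hq' heq
      have hp : p ∈ P := (Finset.mem_sigma.1 (Finset.mem_coe.1 hq)).1
      have hp' : p' ∈ P := (Finset.mem_sigma.1 (Finset.mem_coe.1 hq')).1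
      have hq1 : (p, t) ∈ ((P ×ˢ (univ : Finset (Fin n)) : Finset (Grid n k × Fin n)) :
          Set (Grid n k × Fin n)) :=
        Finset.mem_coe.2 (Finset.mem_product.2 ⟨hp, Finset.mem_univ _⟩)
      have hq2 : (p', t') ∈ ((P ×ˢ (univ : Finset (Fin n)) : Finset (Grid n k × Fin n)) :
          Set (Grid n k × Fin n)) :=
        Finset.mem_coe.2 (Finset.mem_product.2 ⟨hp', Finset.mem_univ _⟩)
      have := hinj hq1 hq2 heq
      simp only [Prod.mk.injEq] at this
      rw [this.1, this.2]
  have h5 : ∑ p ∈ P, (1 - ((univ.filter fun t => Function.update p j t ∈ A).card : ℝ) / n) =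
      (P.card : ℝ) -
        ((∑ p ∈ P, (univ.filter fun t => Function.update p j t ∈ A).card : ℕ) : ℝ) / n := by
    rw [Finset.sum_sub_distrib, Finset.sum_const, nsmul_eq_mul, mul_one, Nat.cast_sum,
      Finset.sum_div]
  have h6 : ((∑ p ∈ P, (univ.filter fun t => Function.update p j t ∈ A).card : ℕ) : ℝ) / n ≤
      (A.card : ℝ) / n := by
    apply div_le_div_of_nonneg_right _ hn.le
    exact_mod_cast h3
  linarith

/-- AM-GM and the Loomis-Whitney inequality. -/
private theorem amgm {n k : ℕ} (hk : 2 ≤ k) (A : Finset (Grid n k)) (hA : A.Nonempty)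
    (z : Fin n) :
    (k : ℝ) * (A.card : ℝ) ^ (1 - 1 / (k : ℝ)) ≤
      ∑ j, ((A.image fun x => Function.update x j z).card : ℝ) := by
  have hk0 : (0 : ℝ) < k := by
    have : 0 < k := by omega
    exact_mod_cast this
  have hLW := loomis_whitney z A hA
  rw [Fintype.card_fin] at hLW
  have hLWr : (A.card : ℝ) ^ (k - 1) ≤
      ∏ j, ((A.image fun x => Function.update x j z).card : ℝ) := by
    exact_mod_cast hLW
  have hg := Real.geom_mean_le_arith_mean_weighted (univ : Finset (Fin k))
    (fun _ => 1 / (k : ℝ)) (fun j => ((A.image fun x => Function.update x j z).card : ℝ))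
    (fun _ _ => by positivity) (by simp [hk0.ne']) (fun _ _ => by positivity)
  have h1 : ∏ j : Fin k, ((A.image fun x => Function.update x j z).card : ℝ) ^ (1 / (k : ℝ)) =
      (∏ j : Fin k, ((A.image fun x => Function.update x j z).card : ℝ)) ^ (1 / (k : ℝ)) :=
    Real.finsetProd_rpow _ _ (fun _ _ => by positivity) _
  rw [h1] at hg
  have h2 : ((A.card : ℝ) ^ (k - 1)) ^ (1 / (k : ℝ)) ≤
      (∏ j : Fin k, ((A.image fun x => Function.update x j z).card : ℝ)) ^ (1 / (k : ℝ)) :=
    Real.rpow_le_rpow (by positivity) hLWr (by positivity)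
  have h3 : ((A.card : ℝ) ^ (k - 1)) ^ (1 / (k : ℝ)) = (A.card : ℝ) ^ (1 - 1 / (k : ℝ)) := by
    rw [← Real.rpow_natCast, ← Real.rpow_mul (by positivity)]
    congr 1
    rw [Nat.cast_sub (by omega)]
    field_simp
    simp
  rw [h3] at h2
  have h4 : ∑ j : Fin k, 1 / (k : ℝ) * ((A.image fun x => Function.update x j z).card : ℝ) =
      (1 / (k : ℝ)) * ∑ j : Fin k, ((A.image fun x => Function.update x j z).card : ℝ) := by
    rw [Finset.mul_sum]
  rw [h4] at hg
  have h5 := h2.trans hg
  calc (k : ℝ) * (A.card : ℝ) ^ (1 - 1 / (k : ℝ))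
      ≤ k * (1 / (k : ℝ) *
          ∑ j : Fin k, ((A.image fun x => Function.update x j z).card : ℝ)) :=
        mul_le_mul_of_nonneg_left h5 hk0.le
    _ = ∑ j : Fin k, ((A.image fun x => Function.update x j z).card : ℝ) := by
        field_simp

theorem iso {n k : ℕ} (hk : 2 ≤ k) (A : Finset (Grid n k)) :
    (k : ℝ) * ((A.card : ℝ) ^ (1 - 1 / (k : ℝ)) - (A.card : ℝ) / n) ≤ grad (ind A) := by
  have hk0 : (0 : ℝ) < k := by
    have : 0 < k := by omega
    exact_mod_cast this
  have hgrad : grad (ind A) = ∑ j, ∑ x, et A j x := by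
    unfold grad et
    rw [Finset.sum_comm]
  rw [hgrad]
  rcases A.eq_empty_or_nonempty with rfl | hA
  · have h1 : (1 - 1 / (k : ℝ)) ≠ 0 := by
      have h2 : (2 : ℝ) ≤ k := by exact_mod_cast hk
      have h3 : 1 / (k : ℝ) ≤ 1 / 2 := by
        apply one_div_le_one_div_of_le <;> linarith
      linarith
    rw [Finset.card_empty, Nat.cast_zero, Real.zero_rpow h1, zero_div, sub_zero, mul_zero]
    exact Finset.sum_nonneg fun j _ => Finset.sum_nonneg fun x _ => et_nonneg _ j x
  · obtain ⟨x, hx⟩ := hA
    have z : Fin n := x ⟨0, by omega⟩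
    have h1 := amgm hk A ⟨x, hx⟩ z
    have h2 : ∑ j, (((A.image fun x => Function.update x j z).card : ℝ) - (A.card : ℝ) / n) ≤
        ∑ j, ∑ x, et A j x := Finset.sum_le_sum fun j _ => dir A j z
    rw [Finset.sum_sub_distrib, Finset.sum_const, Finset.card_univ, Fintype.card_fin,
      nsmul_eq_mul] at h2
    rw [mul_sub]
    linarith

end Pool.Agent.GrO
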