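import Pool.Agent.GrO.Basic

/-!
MODULE Lin1 (M). The box means are almost affine.

`ϕ` is a function on `G → ℤ` with `‖ϕ (z + e_a) - ϕ z‖ ≤ A` for all `z`, `a`.
`smo_close`: every `u ∈ [0, ρ)^G` is a sum of at most `|G| ρ` unit vectors, so `‖ϕ (z+u) - ϕ z‖ ≤ |G| ρ A`.
`Ld_step`: `Ld z a = ρ^(-|G|) ∑_{u ∈ box} g (z + u)` with `g z = ϕ (z + e_a) - ϕ z`, `‖g‖ ≤ A`. The boxes
`z + e_c + [0,ρ)^G` and `z + [0,ρ)^G` differ in two faces with `ρ^(|G|-1)` points each, so the means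
differ by at most `2 A / ρ`.
`smo_lin`: `z + mu x y` is reached from `z` by `K` steps `+ e_{x_j}` and `K` steps `- e_{y_j}`; each step
changes `smo` by `± Ld w a` with `w` at `ℓ_1` distance at most `2 K` from `z`, and
`‖Ld w a - Ld z a‖ ≤ 2K · 2A/ρ`, in total at most `2K · 2K · 2A/ρ = 8 K^2 A / ρ`.
`smo_step`: `‖smo (z + e_a) - smo z‖ ≤ A`; `smo_mu`: `‖smo (z + mu x y) - smo z‖ ≤ 2 K A`.
-/

set_option autoImplicit false

namespace Pool.Agent.GrO

open Finset

variable {G : Type} [Fintype G] [DecidableEq G] {E : Type} [NormedAddCommGroup E] [NormedSpace ℝ E]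

theorem lin1_box_card (R0 : ℤ) (R' : ℕ) :
    (box G R0 (R0 + R')).card = R' ^ Fintype.card G := by
  rw [box, Fintype.card_piFinset]
  simp

theorem lin1_box_card' (ρ : ℕ) : (box G 0 (ρ : ℤ)).card = ρ ^ Fintype.card G := by
  have := lin1_box_card (G := G) 0 ρ
  rwa [zero_add] at this

/-- A shift by `v` moves few points of a box out of the box. -/
theorem lin1_box_shift (R0 : ℤ) (R' : ℕ) (v : G → ℤ) :
    ((box G R0 (R0 + R')).filter fun z => z + v ∉ box G R0 (R0 + R')).card * R' ≤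
      (∑ a, (v a).natAbs) * R' ^ Fintype.card G := by
  classical
  have hsub : ((box G R0 (R0 + R')).filter fun z => z + v ∉ box G R0 (R0 + R')) ⊆
      univ.biUnion fun a : G => Fintype.piFinset fun b : G =>
        if b = a then (Finset.Ico R0 (R0 + R')).filter fun t => t + v a ∉ Finset.Ico R0 (R0 + R')
        else Finset.Ico R0 (R0 + R') := by
    intro z hz
    rw [mem_filter] at hz
    obtain ⟨hz1, hz2⟩ := hz
    rw [box, Fintype.mem_piFinset] at hz1 hz2
    push Not at hz2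
    obtain ⟨a, ha⟩ := hz2
    rw [mem_biUnion]
    refine ⟨a, mem_univ _, ?_⟩
    rw [Fintype.mem_piFinset]
    intro b
    by_cases hb : b = a
    · subst hb
      rw [if_pos rfl, mem_filter]
      exact ⟨hz1 b, ha⟩
    · rw [if_neg hb]
      exact hz1 b
  have hfil : ∀ w : ℤ, ((Finset.Ico R0 (R0 + R')).filter
      fun t => t + w ∉ Finset.Ico R0 (R0 + R')).card ≤ w.natAbs := by
    intro w
    rcases le_total 0 w with hw | hw
    · have : ((Finset.Ico R0 (R0 + R')).filter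
          fun t => t + w ∉ Finset.Ico R0 (R0 + R')) ⊆ Finset.Ico (R0 + R' - w) (R0 + R') := by
        intro t ht
        simp only [mem_filter, Finset.mem_Ico, not_and, not_lt] at ht ⊢
        have := ht.2 (by linarith [ht.1.1])
        omega
      refine (card_le_card this).trans ?_
      rw [Int.card_Ico]
      omega
    · have : ((Finset.Ico R0 (R0 + R')).filter
          fun t => t + w ∉ Finset.Ico R0 (R0 + R')) ⊆ Finset.Ico R0 (R0 - w) := by
        intro t ht
        simp only [mem_filter, Finset.mem_Ico, not_and, not_lt] at ht ⊢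
        by_contra hcon
        have h1 : R0 ≤ t + w := by omega
        have := ht.2 h1
        omega
      refine (card_le_card this).trans ?_
      rw [Int.card_Ico]
      omega
  have hone : ∀ a : G, (Fintype.piFinset fun b : G =>
        if b = a then (Finset.Ico R0 (R0 + R')).filter fun t => t + v a ∉ Finset.Ico R0 (R0 + R')
        else Finset.Ico R0 (R0 + R')).card * R' ≤ (v a).natAbs * R' ^ Fintype.card G := by
    intro a
    rw [Fintype.card_piFinset]
    rw [← mul_prod_erase univ _ (mem_univ a)]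
    rw [if_pos rfl]
    have h1 : ∏ x ∈ univ.erase a, (if x = a then (Finset.Ico R0 (R0 + R')).filter
        fun t => t + v a ∉ Finset.Ico R0 (R0 + R')
        else Finset.Ico R0 (R0 + (R' : ℤ))).card = R' ^ (Fintype.card G - 1) := by
      rw [prod_congr rfl (g := fun _ => R')]
      · rw [prod_const, card_erase_of_mem (mem_univ a), card_univ]
      · intro b hb
        rw [if_neg (ne_of_mem_erase hb)]
        simp
    rw [h1]
    have hG : 1 ≤ Fintype.card G := Fintype.card_pos_iff.mpr ⟨a⟩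
    have h2 : R' ^ (Fintype.card G - 1) * R' = R' ^ Fintype.card G := by
      rw [← pow_succ]
      congr 1
      omega
    rw [mul_assoc, h2]
    exact Nat.mul_le_mul_right _ (hfil (v a))
  calc _ ≤ (univ.biUnion fun a : G => Fintype.piFinset fun b : G =>
        if b = a then (Finset.Ico R0 (R0 + R')).filter fun t => t + v a ∉ Finset.Ico R0 (R0 + R')
        else Finset.Ico R0 (R0 + R')).card * R' := Nat.mul_le_mul_right _ (card_le_card hsub)
    _ ≤ (∑ a : G, (Fintype.piFinset fun b : G =>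
        if b = a then (Finset.Ico R0 (R0 + R')).filter fun t => t + v a ∉ Finset.Ico R0 (R0 + R')
        else Finset.Ico R0 (R0 + R')).card) * R' := Nat.mul_le_mul_right _ card_biUnion_le
    _ = ∑ a : G, (Fintype.piFinset fun b : G =>
        if b = a then (Finset.Ico R0 (R0 + R')).filter fun t => t + v a ∉ Finset.Ico R0 (R0 + R')
        else Finset.Ico R0 (R0 + R')).card * R' := sum_mul _ _ _
    _ ≤ ∑ a : G, (v a).natAbs * R' ^ Fintype.card G := sum_le_sum fun a _ => hone a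
    _ = _ := (sum_mul _ _ _).symm

/-- Shifting a box changes the sum of a nonnegative bounded function by little. -/
theorem lin1_box_sum_shift_le {R0 : ℤ} {R' : ℕ} (hR : 1 ≤ R') (v : G → ℤ) {g : (G → ℤ) → ℝ} {A : ℝ}
    (hg0 : ∀ z, 0 ≤ g z) (hg : ∀ z, g z ≤ A) :
    ∑ z ∈ box G R0 (R0 + R'), g (z + v) ≤ ∑ z ∈ box G R0 (R0 + R'), g z +
      (∑ a, ((v a).natAbs : ℝ)) * (R' : ℝ) ^ Fintype.card G / R' * A := by
  classical
  have hA : 0 ≤ A := (hg0 0).trans (hg 0)
  have hR' : (0 : ℝ) < R' := by exact_mod_cast hR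
  set B := box G R0 (R0 + R') with hB
  have hcard : ((B.filter fun z => z + v ∉ B).card : ℝ) ≤
      (∑ a, ((v a).natAbs : ℝ)) * (R' : ℝ) ^ Fintype.card G / R' := by
    rw [le_div_iff₀ hR']
    have := lin1_box_shift (G := G) R0 R' v
    exact_mod_cast this
  rw [← sum_filter_add_sum_filter_not B (fun z => z + v ∈ B) (fun z => g (z + v))]
  have h1 : ∑ z ∈ B with z + v ∈ B, g (z + v) ≤ ∑ z ∈ B, g z := by
    have hinj : Set.InjOn (fun z : G → ℤ => z + v) (B.filter fun z => z + v ∈ B) := by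
      intro a _ b _ h
      exact add_right_cancel h
    rw [← sum_image (f := g) (g := fun z : G → ℤ => z + v) hinj]
    apply sum_le_sum_of_subset_of_nonneg
    · intro z hz
      rw [mem_image] at hz
      obtain ⟨w, hw, rfl⟩ := hz
      exact (mem_filter.mp hw).2
    · intro i _ _
      exact hg0 i
  have h2 : ∑ z ∈ B with ¬ z + v ∈ B, g (z + v) ≤
      ((B.filter fun z => z + v ∉ B).card : ℝ) * A := by
    rw [← nsmul_eq_mul]
    exact sum_le_card_nsmul _ _ _ fun z _ => hg _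
  have h3 := mul_le_mul_of_nonneg_right hcard hA
  linarith

/-- Shifting a box changes the sum of a bounded function by little. -/
theorem lin1_box_sum_shift {R0 : ℤ} {R' : ℕ} (hR : 1 ≤ R') (v : G → ℤ) {g : (G → ℤ) → E} {A : ℝ}
    (hg : ∀ z, ‖g z‖ ≤ A) :
    ‖∑ z ∈ box G R0 (R0 + R'), g (z + v) - ∑ z ∈ box G R0 (R0 + R'), g z‖ ≤
      2 * ((∑ a, ((v a).natAbs : ℝ)) * (R' : ℝ) ^ Fintype.card G / R' * A) := by
  classical
  have hA : 0 ≤ A := (norm_nonneg _).trans (hg 0)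
  have hR' : (0 : ℝ) < R' := by exact_mod_cast hR
  set B := box G R0 (R0 + R') with hB
  have hcard : ∀ w : G → ℤ, (∀ a, (w a).natAbs = (v a).natAbs) →
      ((B.filter fun z => z + w ∉ B).card : ℝ) ≤
      (∑ a, ((v a).natAbs : ℝ)) * (R' : ℝ) ^ Fintype.card G / R' := by
    intro w hw
    rw [le_div_iff₀ hR']
    have := lin1_box_shift (G := G) R0 R' w
    simp_rw [hw] at this
    exact_mod_cast this
  have e1 := sum_filter_add_sum_filter_not B (fun z => z + v ∈ B) (fun z => g (z + v))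
  have e2 := sum_filter_add_sum_filter_not B (fun z => z + (-v) ∈ B) (fun z => g z)
  have e3 : ∑ z ∈ B with z + v ∈ B, g (z + v) = ∑ z ∈ B with z + (-v) ∈ B, g z := by
    apply sum_nbij' (fun z => z + v) (fun z => z + (-v))
    · intro z hz
      rw [mem_filter] at hz ⊢
      exact ⟨hz.2, by simpa using hz.1⟩
    · intro z hz
      rw [mem_filter] at hz ⊢
      exact ⟨hz.2, by simpa using hz.1⟩
    · intro z _
      simp
    · intro z _
      simp
    · intro z _
      rfl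
  have h1 : ‖∑ z ∈ B with ¬ z + v ∈ B, g (z + v)‖ ≤
      ((B.filter fun z => z + v ∉ B).card : ℝ) * A := by
    refine (norm_sum_le _ _).trans ?_
    rw [← nsmul_eq_mul]
    exact sum_le_card_nsmul _ _ _ fun z _ => hg _
  have h2 : ‖∑ z ∈ B with ¬ z + (-v) ∈ B, g z‖ ≤
      ((B.filter fun z => z + (-v) ∉ B).card : ℝ) * A := by
    refine (norm_sum_le _ _).trans ?_
    rw [← nsmul_eq_mul]
    exact sum_le_card_nsmul _ _ _ fun z _ => hg _
  have h3 := mul_le_mul_of_nonneg_right (hcard v fun _ => rfl) hA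
  have h4 := mul_le_mul_of_nonneg_right (hcard (-v) fun a => by simp) hA
  have e4 : ∑ z ∈ B, g (z + v) - ∑ z ∈ B, g z =
      ∑ z ∈ B with ¬ z + v ∈ B, g (z + v) - ∑ z ∈ B with ¬ z + (-v) ∈ B, g z := by
    rw [← e1, ← e2, e3]
    abel
  rw [e4]
  refine (norm_sub_le _ _).trans ?_
  linarith

/-- A walk with `∑ u` steps. -/
theorem lin1_walk_le {ϕ : (G → ℤ) → E} {A : ℝ} (hA : ∀ z a, ‖ϕ (z + Pi.single a 1) - ϕ z‖ ≤ A)
    (z : G → ℤ) : ∀ (m : ℕ) (u : G → ℕ), ∑ a, u a = m →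
      ‖ϕ (z + fun a => (u a : ℤ)) - ϕ z‖ ≤ m * A := by
  intro m
  induction m with
  | zero =>
    intro u hu
    have h0 : ∀ a, u a = 0 := by
      intro a
      have := (sum_eq_zero_iff.mp hu) a (mem_univ a)
      exact this
    have : (z + fun a => (u a : ℤ)) = z := by
      funext a
      simp [h0 a]
    rw [this]
    simp
  | succ m ih =>
    intro u hu
    have hex : ∃ a, 0 < u a := by
      by_contra hcon
      push Not at hcon
      have : ∑ a, u a = 0 := sum_eq_zero fun a _ => Nat.le_zero.mp (hcon a)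
      omega
    obtain ⟨a, ha⟩ := hex
    set u' : G → ℕ := Function.update u a (u a - 1) with hu'
    have hsum : ∑ b, u' b = m := by
      have h1 := add_sum_erase univ u' (mem_univ a)
      have h2 := add_sum_erase univ u (mem_univ a)
      have h3 : ∑ x ∈ univ.erase a, u' x = ∑ x ∈ univ.erase a, u x := by
        apply sum_congr rfl
        intro b hb
        rw [hu', Function.update_of_ne (ne_of_mem_erase hb)]
      have h4 : u' a = u a - 1 := by rw [hu', Function.update_self]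
      omega
    have heq : (z + fun b => (u b : ℤ)) = (z + fun b => (u' b : ℤ)) + Pi.single a 1 := by
      funext b
      by_cases hb : b = a
      · subst hb
        simp only [Pi.add_apply, Pi.single_eq_same, hu', Function.update_self]
        omega
      · simp only [Pi.add_apply, Pi.single_eq_of_ne hb, hu', Function.update_of_ne hb, add_zero]
    have h1 := ih u' hsum
    have h2 := hA (z + fun b => (u' b : ℤ)) a
    rw [← heq] at h2
    calc ‖ϕ (z + fun b => (u b : ℤ)) - ϕ z‖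
        = ‖(ϕ (z + fun b => (u b : ℤ)) - ϕ (z + fun b => (u' b : ℤ))) +
          (ϕ (z + fun b => (u' b : ℤ)) - ϕ z)‖ := by congr 1; abel
      _ ≤ A + m * A := (norm_add_le _ _).trans (add_le_add h2 h1)
      _ = ((m + 1 : ℕ) : ℝ) * A := by push_cast; ring

/-- One exchange. -/
theorem lin1_exch_le {f : (G → ℤ) → E} {A : ℝ} (hA : ∀ z a, ‖f (z + Pi.single a 1) - f z‖ ≤ A)
    (z : G → ℤ) (y : G) : ‖f (z - Pi.single y 1) - f z‖ ≤ A := by
  have := hA (z - Pi.single y 1) y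
  rw [sub_add_cancel, norm_sub_rev] at this
  exact this

theorem lin1_part_le {f : (G → ℤ) → E} {A : ℝ} (hA : ∀ z a, ‖f (z + Pi.single a 1) - f z‖ ≤ A)
    (z : G → ℤ) {K : ℕ} (x y : Fin K → G) (s : Finset (Fin K)) :
    ‖f (z + ∑ j ∈ s, (Pi.single (x j) 1 - Pi.single (y j) 1)) - f z‖ ≤ 2 * s.card * A := by
  induction s using Finset.induction_on with
  | empty => simp
  | insert j s hj ih =>
    set w := z + ∑ j ∈ s, (Pi.single (x j) 1 - Pi.single (y j) 1 : G → ℤ) with hw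
    have heq : z + ∑ j ∈ insert j s, (Pi.single (x j) 1 - Pi.single (y j) 1 : G → ℤ) =
        (w - Pi.single (y j) 1) + Pi.single (x j) 1 := by
      rw [sum_insert hj, hw]
      abel
    rw [heq, card_insert_of_notMem hj]
    have h1 := hA (w - Pi.single (y j) 1) (x j)
    have h2 := lin1_exch_le hA w (y j)
    calc ‖f (w - Pi.single (y j) 1 + Pi.single (x j) 1) - f z‖
        = ‖(f (w - Pi.single (y j) 1 + Pi.single (x j) 1) - f (w - Pi.single (y j) 1)) +
          ((f (w - Pi.single (y j) 1) - f w) + (f w - f z))‖ := by congr 1; abel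
      _ ≤ A + (A + 2 * s.card * A) :=
        (norm_add_le _ _).trans (add_le_add h1 ((norm_add_le _ _).trans (add_le_add h2 ih)))
      _ = 2 * ((s.card + 1 : ℕ) : ℝ) * A := by push_cast; ring

theorem smo_close {ρ : ℕ} (hρ : 1 ≤ ρ) {ϕ : (G → ℤ) → E} {A : ℝ}
    (hA : ∀ z a, ‖ϕ (z + Pi.single a 1) - ϕ z‖ ≤ A) (hA0 : 0 ≤ A) (z : G → ℤ) :
    ‖smo ρ ϕ z - ϕ z‖ ≤ Fintype.card G * ρ * A := by
  have hρ' : (0 : ℝ) < (ρ : ℝ) ^ Fintype.card G := by positivity
  have hc : ((box G 0 (ρ : ℤ)).card : ℝ) = (ρ : ℝ) ^ Fintype.card G := by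
    rw [lin1_box_card']
    push_cast
    rfl
  have h1 : smo ρ ϕ z - ϕ z =
      ((ρ : ℝ) ^ Fintype.card G)⁻¹ • ∑ u ∈ box G 0 ρ, (ϕ (z + u) - ϕ z) := by
    rw [sum_sub_distrib, sum_const, smul_sub, smo, ← Nat.cast_smul_eq_nsmul ℝ, hc, smul_smul,
      inv_mul_cancel₀ hρ'.ne', one_smul]
  rw [h1, norm_smul, norm_inv, Real.norm_of_nonneg hρ'.le, inv_mul_le_iff₀ hρ', ← hc]
  refine (norm_sum_le _ _).trans ?_
  rw [← nsmul_eq_mul]
  apply sum_le_card_nsmul
  intro u hu
  rw [box, Fintype.mem_piFinset] at hu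
  have hu' : (z + u) = (z + fun a => (((u a).toNat : ℕ) : ℤ)) := by
    funext a
    have := hu a
    rw [Finset.mem_Ico] at this
    simp only [Pi.add_apply]
    omega
  have h2 := lin1_walk_le hA z _ (fun a => (u a).toNat) rfl
  rw [← hu'] at h2
  refine h2.trans ?_
  apply mul_le_mul_of_nonneg_right _ hA0
  have h3 : ∑ a, (u a).toNat ≤ Fintype.card G * ρ := by
    calc ∑ a, (u a).toNat ≤ ∑ _a : G, ρ := by
          apply sum_le_sum
          intro a _
          have := hu a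
          rw [Finset.mem_Ico] at this
          omega
      _ = _ := by rw [sum_const, card_univ, smul_eq_mul]
  exact_mod_cast h3

theorem lin1_Ld_eq {ρ : ℕ} {ϕ : (G → ℤ) → E} (z : G → ℤ) (a : G) :
    Ld ρ ϕ z a = ((ρ : ℝ) ^ Fintype.card G)⁻¹ •
      ∑ u ∈ box G 0 ρ, (ϕ (z + u + Pi.single a 1) - ϕ (z + u)) := by
  rw [Ld, smo, smo, ← smul_sub, ← sum_sub_distrib]
  congr 1
  apply sum_congr rfl
  intro u _
  congr 2
  abel

theorem Ld_step {ρ : ℕ} (hρ : 1 ≤ ρ) {ϕ : (G → ℤ) → E} {A : ℝ}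
    (hA : ∀ z a, ‖ϕ (z + Pi.single a 1) - ϕ z‖ ≤ A) (hA0 : 0 ≤ A) (z : G → ℤ) (a c : G) :
    ‖Ld ρ ϕ (z + Pi.single c 1) a - Ld ρ ϕ z a‖ ≤ 2 * A / ρ := by
  have hρ0 : (0 : ℝ) < ρ := by exact_mod_cast hρ
  have hρ' : (0 : ℝ) < (ρ : ℝ) ^ Fintype.card G := by positivity
  set g : (G → ℤ) → E := fun u => ϕ (z + u + Pi.single a 1) - ϕ (z + u) with hg
  have h1 : Ld ρ ϕ (z + Pi.single c 1) a - Ld ρ ϕ z a = ((ρ : ℝ) ^ Fintype.card G)⁻¹ •
      (∑ u ∈ box G 0 (0 + (ρ : ℤ)), g (u + Pi.single c 1) - ∑ u ∈ box G 0 (0 + (ρ : ℤ)), g u) := by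
    rw [lin1_Ld_eq, lin1_Ld_eq, ← smul_sub, zero_add]
    congr 2
    apply sum_congr rfl
    intro u _
    simp only [hg]
    have e : z + Pi.single c 1 + u = z + (u + Pi.single c 1) := by abel
    rw [e]
  rw [h1, norm_smul, norm_inv, Real.norm_of_nonneg hρ'.le, inv_mul_le_iff₀ hρ']
  refine (lin1_box_sum_shift hρ (Pi.single c 1) (g := g) (A := A) (fun u => hA _ _)).trans ?_
  have h2 : ∑ b : G, (((Pi.single c 1 : G → ℤ) b).natAbs : ℝ) = 1 := by
    rw [sum_eq_single c]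
    · simp
    · intro b _ hb
      simp [Pi.single_eq_of_ne hb]
    · intro h
      exact absurd (mem_univ c) h
  rw [h2]
  apply le_of_eq
  field_simp

theorem smo_step {ρ : ℕ} (hρ : 1 ≤ ρ) {ϕ : (G → ℤ) → E} {A : ℝ}
    (hA : ∀ z a, ‖ϕ (z + Pi.single a 1) - ϕ z‖ ≤ A) (z : G → ℤ) (a : G) :
    ‖smo ρ ϕ (z + Pi.single a 1) - smo ρ ϕ z‖ ≤ A := by
  have hρ' : (0 : ℝ) < (ρ : ℝ) ^ Fintype.card G := by positivity
  have hc : ((box G 0 (ρ : ℤ)).card : ℝ) = (ρ : ℝ) ^ Fintype.card G := by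
    rw [lin1_box_card']
    push_cast
    rfl
  have h1 := lin1_Ld_eq (ρ := ρ) (ϕ := ϕ) z a
  rw [Ld] at h1
  rw [h1, norm_smul, norm_inv, Real.norm_of_nonneg hρ'.le, inv_mul_le_iff₀ hρ', ← hc]
  refine (norm_sum_le _ _).trans ?_
  rw [← nsmul_eq_mul]
  exact sum_le_card_nsmul _ _ _ fun u _ => hA _ _

theorem smo_mu {ρ : ℕ} (hρ : 1 ≤ ρ) {ϕ : (G → ℤ) → E} {A : ℝ}
    (hA : ∀ z a, ‖ϕ (z + Pi.single a 1) - ϕ z‖ ≤ A) (z : G → ℤ) {K : ℕ} (x y : Fin K → G) :
    ‖smo ρ ϕ (z + mu x y) - smo ρ ϕ z‖ ≤ 2 * K * A := by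
  have := lin1_part_le (f := smo ρ ϕ) (fun z a => smo_step hρ hA z a) z x y univ
  rw [card_univ, Fintype.card_fin] at this
  exact this

theorem smo_lin {ρ : ℕ} (hρ : 1 ≤ ρ) {ϕ : (G → ℤ) → E} {A : ℝ}
    (hA : ∀ z a, ‖ϕ (z + Pi.single a 1) - ϕ z‖ ≤ A) (hA0 : 0 ≤ A) (z : G → ℤ) {K : ℕ}
    (x y : Fin K → G) :
    ‖smo ρ ϕ (z + mu x y) - smo ρ ϕ z - ∑ j, (Ld ρ ϕ z (x j) - Ld ρ ϕ z (y j))‖ ≤
      8 * K ^ 2 * A / ρ := by
  have hρ0 : (0 : ℝ) < ρ := by exact_mod_cast hρ
  have hstep : ∀ a, ∀ w c, ‖Ld ρ ϕ (w + Pi.single c 1) a - Ld ρ ϕ w a‖ ≤ 2 * A / ρ :=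
    fun a w c => Ld_step hρ hA hA0 w a c
  have hmain : ∀ s : Finset (Fin K),
      ‖smo ρ ϕ (z + ∑ j ∈ s, (Pi.single (x j) 1 - Pi.single (y j) 1)) - smo ρ ϕ z -
        ∑ j ∈ s, (Ld ρ ϕ z (x j) - Ld ρ ϕ z (y j))‖ ≤ s.card * (8 * K * A / ρ) := by
    intro s
    induction s using Finset.induction_on with
    | empty => simp
    | insert j s hj ih =>
      set w := z + ∑ j ∈ s, (Pi.single (x j) 1 - Pi.single (y j) 1 : G → ℤ) with hw
      have heq : z + ∑ j ∈ insert j s, (Pi.single (x j) 1 - Pi.single (y j) 1 : G → ℤ) =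
          (w - Pi.single (y j) 1) + Pi.single (x j) 1 := by
        rw [sum_insert hj, hw]
        abel
      have hsK : s.card + 1 ≤ K := by
        have := card_le_univ (insert j s)
        rwa [card_insert_of_notMem hj, Fintype.card_fin] at this
      have hsK' : (2 * s.card + 1 : ℝ) ≤ 2 * K := by
        have : 2 * s.card + 1 ≤ 2 * K := by omega
        exact_mod_cast this
      have hdist : ∀ a, ‖Ld ρ ϕ (w - Pi.single (y j) 1) a - Ld ρ ϕ z a‖ ≤ 4 * K * A / ρ := by
        intro a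
        have h1 := lin1_part_le (f := fun w => Ld ρ ϕ w a) (hstep a) z x y s
        have h2 := lin1_exch_le (f := fun w => Ld ρ ϕ w a) (hstep a) w (y j)
        simp only [← hw] at h1
        calc ‖Ld ρ ϕ (w - Pi.single (y j) 1) a - Ld ρ ϕ z a‖
            = ‖(Ld ρ ϕ (w - Pi.single (y j) 1) a - Ld ρ ϕ w a) +
              (Ld ρ ϕ w a - Ld ρ ϕ z a)‖ := by congr 1; abel
          _ ≤ 2 * A / ρ + 2 * s.card * (2 * A / ρ) := (norm_add_le _ _).trans (add_le_add h2 h1)
          _ = (2 * s.card + 1) * (2 * A / ρ) := by ring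
          _ ≤ 2 * K * (2 * A / ρ) := by
            apply mul_le_mul_of_nonneg_right hsK'
            positivity
          _ = 4 * K * A / ρ := by ring
      have e1 : smo ρ ϕ (w - Pi.single (y j) 1 + Pi.single (x j) 1) - smo ρ ϕ w =
          Ld ρ ϕ (w - Pi.single (y j) 1) (x j) - Ld ρ ϕ (w - Pi.single (y j) 1) (y j) := by
        rw [Ld, Ld, sub_add_cancel]
        abel
      rw [heq, sum_insert hj, card_insert_of_notMem hj]
      have e2 : smo ρ ϕ (w - Pi.single (y j) 1 + Pi.single (x j) 1) - smo ρ ϕ z -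
          (Ld ρ ϕ z (x j) - Ld ρ ϕ z (y j) + ∑ j ∈ s, (Ld ρ ϕ z (x j) - Ld ρ ϕ z (y j))) =
          ((Ld ρ ϕ (w - Pi.single (y j) 1) (x j) - Ld ρ ϕ z (x j)) -
            (Ld ρ ϕ (w - Pi.single (y j) 1) (y j) - Ld ρ ϕ z (y j))) +
          (smo ρ ϕ w - smo ρ ϕ z - ∑ j ∈ s, (Ld ρ ϕ z (x j) - Ld ρ ϕ z (y j))) := by
        have : smo ρ ϕ (w - Pi.single (y j) 1 + Pi.single (x j) 1) =
            smo ρ ϕ w + (Ld ρ ϕ (w - Pi.single (y j) 1) (x j) -
              Ld ρ ϕ (w - Pi.single (y j) 1) (y j)) := by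
          rw [← e1]
          abel
        rw [this]
        abel
      rw [e2]
      have h3 := (norm_sub_le (Ld ρ ϕ (w - Pi.single (y j) 1) (x j) - Ld ρ ϕ z (x j))
        (Ld ρ ϕ (w - Pi.single (y j) 1) (y j) - Ld ρ ϕ z (y j))).trans
        (add_le_add (hdist (x j)) (hdist (y j)))
      refine (norm_add_le _ _).trans ((add_le_add h3 ih).trans (le_of_eq ?_))
      push_cast
      ring
  have := hmain univ
  rw [card_univ, Fintype.card_fin] at this
  refine this.trans (le_of_eq ?_)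
  ring

end Pool.Agent.GrO
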