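import Pool.Agent.GrO.Lin1

/-!
MODULE Lin2 (M). The mean over a large box of base points.

Proof. Let `B = box G R0 (R0 + R')`, `|B| = R'^|G|`, `g z = ‖smo (z + mu) - smo z‖ ≤ 2 K A` (`smo_mu`).
For `t : ℕ`: `∑_{z ∈ B} g (z + t mu) ≤ ∑_{z ∈ B} g z + |(B + t mu) \ B| 2 K A`, and
`|(B + t mu) \ B| ≤ ∑_a |t mu_a| R'^(|G|-1) ≤ 2 K t R'^(|G|-1)`.
Sum over `t < κ`: `∑_{z ∈ B} ‖smo (z + κ mu) - smo z‖ ≤ κ ∑_B g + κ · 2 K κ R'^(|G|-1) · 2 K A`.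
By `smo_close` twice, `‖smo (z + κ mu) - smo z‖ ≥ Λ - 2 |G| ρ A` for `z ∈ B`. Hence
`(1/|B|) ∑_B g ≥ Λ/κ - 2 |G| ρ A / κ - 4 K^2 κ A / R'`. Finally `smo_lin`.
-/

set_option autoImplicit false

namespace Pool.Agent.GrO

open Finset

variable {G : Type} [Fintype G] [DecidableEq G] {E : Type} [NormedAddCommGroup E] [NormedSpace ℝ E]

theorem lin2_mu_abs {K : ℕ} (x y : Fin K → G) : ∑ a, (mu x y a).natAbs ≤ 2 * K := by
  classical
  have h1 : ∀ a, (mu x y a).natAbs ≤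
      ∑ j, ((Pi.single (x j) (1 : ℕ) : G → ℕ) a + (Pi.single (y j) (1 : ℕ) : G → ℕ) a) := by
    intro a
    have e : mu x y a = ∑ j, ((Pi.single (x j) (1 : ℤ) : G → ℤ) a -
        (Pi.single (y j) (1 : ℤ) : G → ℤ) a) := by
      simp [mu, Finset.sum_apply]
    rw [e]
    refine (Int.natAbs_sum_le _ _).trans ?_
    apply sum_le_sum
    intro j _
    by_cases h1 : a = x j <;> by_cases h2 : a = y j <;> simp [Pi.single_apply, h1, h2] <;>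
      (try split_ifs) <;> simp
  calc ∑ a, (mu x y a).natAbs ≤ ∑ a, ∑ j, ((Pi.single (x j) (1 : ℕ) : G → ℕ) a +
        (Pi.single (y j) (1 : ℕ) : G → ℕ) a) := sum_le_sum fun a _ => h1 a
    _ = ∑ j, ∑ a, ((Pi.single (x j) (1 : ℕ) : G → ℕ) a +
        (Pi.single (y j) (1 : ℕ) : G → ℕ) a) := sum_comm
    _ = ∑ _j : Fin K, 2 := by
      apply sum_congr rfl
      intro j _
      rw [sum_add_distrib]
      simp [Pi.single_apply]
    _ = 2 * K := by simp [mul_comm]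

theorem lin_main {ρ κ R' : ℕ} (hρ : 1 ≤ ρ) (hκ : 1 ≤ κ) (hR : 1 ≤ R') (R0 : ℤ)
    {ϕ : (G → ℤ) → E} {A : ℝ} (hA : ∀ z a, ‖ϕ (z + Pi.single a 1) - ϕ z‖ ≤ A) (hA0 : 0 ≤ A)
    {K : ℕ} (x y : Fin K → G) {Λ : ℝ}
    (hΛ : ∀ z ∈ box G R0 (R0 + R'), Λ ≤ ‖ϕ (z + (κ : ℤ) • mu x y) - ϕ z‖) :
    Λ / κ - A * (2 * Fintype.card G * ρ / κ + 4 * K ^ 2 * κ / R' + 8 * K ^ 2 / ρ) ≤
      (∑ z ∈ box G R0 (R0 + R'), ‖∑ j, (Ld ρ ϕ z (x j) - Ld ρ ϕ z (y j))‖) /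
        (R' : ℝ) ^ Fintype.card G := by
  have hρ0 : (0 : ℝ) < ρ := by exact_mod_cast hρ
  have hκ0 : (0 : ℝ) < κ := by exact_mod_cast hκ
  have hR0 : (0 : ℝ) < R' := by exact_mod_cast hR
  set B := box G R0 (R0 + R') with hB
  set g : (G → ℤ) → ℝ := fun z => ‖smo ρ ϕ (z + mu x y) - smo ρ ϕ z‖ with hg
  set V : ℝ := (R' : ℝ) ^ Fintype.card G with hV
  have hV0 : 0 < V := by rw [hV]; positivity
  have hBc : (B.card : ℝ) = V := by
    rw [hB, lin1_box_card, hV]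
    push_cast
    rfl
  have hg0 : ∀ z, 0 ≤ g z := fun z => norm_nonneg _
  have hgA : ∀ z, g z ≤ 2 * K * A := fun z => smo_mu hρ hA z x y
  have hmu : ∑ a, ((mu x y a).natAbs : ℝ) ≤ 2 * K := by
    have := lin2_mu_abs x y
    exact_mod_cast this
  -- one shift
  have hshift : ∀ t : ℕ, t < κ → ∑ z ∈ B, g (z + (t : ℤ) • mu x y) ≤
      ∑ z ∈ B, g z + 4 * K ^ 2 * κ * A * V / R' := by
    intro t ht
    have h1 := lin1_box_sum_shift_le (R0 := R0) hR ((t : ℤ) • mu x y) hg0 hgA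
    rw [← hB] at h1
    refine h1.trans ?_
    gcongr
    have h2 : ∑ a, ((((t : ℤ) • mu x y) a).natAbs : ℝ) = t * ∑ a, ((mu x y a).natAbs : ℝ) := by
      rw [mul_sum]
      apply sum_congr rfl
      intro a _
      rw [Pi.smul_apply, smul_eq_mul, Int.natAbs_mul]
      push_cast
      simp
    rw [h2]
    have ht' : (t : ℝ) ≤ κ := by exact_mod_cast ht.le
    calc (t : ℝ) * (∑ a, ((mu x y a).natAbs : ℝ)) * V / R' * (2 * K * A)
        ≤ κ * (2 * K) * V / R' * (2 * K * A) := by gcongr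
      _ = 4 * K ^ 2 * κ * A * V / R' := by ring
  -- telescoping
  have htel : ∀ z, ‖smo ρ ϕ (z + (κ : ℤ) • mu x y) - smo ρ ϕ z‖ ≤
      ∑ t ∈ range κ, g (z + (t : ℤ) • mu x y) := by
    intro z
    have hgen : ∀ m : ℕ, ‖smo ρ ϕ (z + (m : ℤ) • mu x y) - smo ρ ϕ z‖ ≤
        ∑ t ∈ range m, g (z + (t : ℤ) • mu x y) := by
      intro m
      induction m with
      | zero => simp
      | succ m ih =>
        rw [sum_range_succ]
        have e : z + ((m + 1 : ℕ) : ℤ) • mu x y = z + (m : ℤ) • mu x y + mu x y := by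
          push_cast
          rw [add_smul, one_smul]
          abel
        rw [e]
        calc ‖smo ρ ϕ (z + (m : ℤ) • mu x y + mu x y) - smo ρ ϕ z‖
            = ‖(smo ρ ϕ (z + (m : ℤ) • mu x y) - smo ρ ϕ z) +
              (smo ρ ϕ (z + (m : ℤ) • mu x y + mu x y) - smo ρ ϕ (z + (m : ℤ) • mu x y))‖ := by
              congr 1; abel
          _ ≤ _ := (norm_add_le _ _).trans (add_le_add ih le_rfl)
    exact hgen κ
  have hlow : ∀ z ∈ B, Λ - 2 * Fintype.card G * ρ * A ≤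
      ‖smo ρ ϕ (z + (κ : ℤ) • mu x y) - smo ρ ϕ z‖ := by
    intro z hz
    have h1 := hΛ z hz
    have h2 := smo_close hρ hA hA0 z
    have h3 := smo_close hρ hA hA0 (z + (κ : ℤ) • mu x y)
    have h4 : ‖ϕ (z + (κ : ℤ) • mu x y) - ϕ z‖ ≤
        ‖smo ρ ϕ (z + (κ : ℤ) • mu x y) - ϕ (z + (κ : ℤ) • mu x y)‖ +
        (‖smo ρ ϕ (z + (κ : ℤ) • mu x y) - smo ρ ϕ z‖ + ‖smo ρ ϕ z - ϕ z‖) := by
      calc ‖ϕ (z + (κ : ℤ) • mu x y) - ϕ z‖
          = ‖-(smo ρ ϕ (z + (κ : ℤ) • mu x y) - ϕ (z + (κ : ℤ) • mu x y)) +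
            ((smo ρ ϕ (z + (κ : ℤ) • mu x y) - smo ρ ϕ z) + (smo ρ ϕ z - ϕ z))‖ := by
            congr 1; abel
        _ ≤ _ := by
          refine (norm_add_le _ _).trans (add_le_add ?_ (norm_add_le _ _))
          rw [norm_neg]
    linarith
  have hsum1 : V * (Λ - 2 * Fintype.card G * ρ * A) ≤
      κ * (∑ z ∈ B, g z + 4 * K ^ 2 * κ * A * V / R') := by
    calc V * (Λ - 2 * Fintype.card G * ρ * A)
        = ∑ _z ∈ B, (Λ - 2 * Fintype.card G * ρ * A) := by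
          rw [sum_const, nsmul_eq_mul, hBc]
      _ ≤ ∑ z ∈ B, ‖smo ρ ϕ (z + (κ : ℤ) • mu x y) - smo ρ ϕ z‖ := sum_le_sum hlow
      _ ≤ ∑ z ∈ B, ∑ t ∈ range κ, g (z + (t : ℤ) • mu x y) := sum_le_sum fun z _ => htel z
      _ = ∑ t ∈ range κ, ∑ z ∈ B, g (z + (t : ℤ) • mu x y) := sum_comm
      _ ≤ ∑ _t ∈ range κ, (∑ z ∈ B, g z + 4 * K ^ 2 * κ * A * V / R') :=
          sum_le_sum fun t ht => hshift t (mem_range.mp ht)
      _ = κ * (∑ z ∈ B, g z + 4 * K ^ 2 * κ * A * V / R') := by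
          rw [sum_const, card_range, nsmul_eq_mul]
  have hsum2 : ∑ z ∈ B, g z ≤ ∑ z ∈ B, ‖∑ j, (Ld ρ ϕ z (x j) - Ld ρ ϕ z (y j))‖ +
      V * (8 * K ^ 2 * A / ρ) := by
    calc ∑ z ∈ B, g z ≤ ∑ z ∈ B, (‖∑ j, (Ld ρ ϕ z (x j) - Ld ρ ϕ z (y j))‖ +
          8 * K ^ 2 * A / ρ) := by
          apply sum_le_sum
          intro z _
          have h1 := smo_lin hρ hA hA0 z x y
          have h2 := norm_sub_norm_le (smo ρ ϕ (z + mu x y) - smo ρ ϕ z)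
            (∑ j, (Ld ρ ϕ z (x j) - Ld ρ ϕ z (y j)))
          simp only [hg]
          linarith
      _ = _ := by rw [sum_add_distrib, sum_const, nsmul_eq_mul, hBc]
  set S := ∑ z ∈ B, ‖∑ j, (Ld ρ ϕ z (x j) - Ld ρ ϕ z (y j))‖ with hS
  rw [le_div_iff₀ hV0]
  have h5 : V * (Λ - 2 * Fintype.card G * ρ * A) / κ ≤
      S + V * (8 * K ^ 2 * A / ρ) + 4 * K ^ 2 * κ * A * V / R' := by
    rw [div_le_iff₀ hκ0]
    calc V * (Λ - 2 * Fintype.card G * ρ * A)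
        ≤ κ * (∑ z ∈ B, g z + 4 * K ^ 2 * κ * A * V / R') := hsum1
      _ ≤ κ * (S + V * (8 * K ^ 2 * A / ρ) + 4 * K ^ 2 * κ * A * V / R') := by
          apply mul_le_mul_of_nonneg_left _ hκ0.le
          linarith
      _ = _ := by ring
  calc (Λ / κ - A * (2 * Fintype.card G * ρ / κ + 4 * K ^ 2 * κ / R' + 8 * K ^ 2 / ρ)) * V
      = V * (Λ - 2 * Fintype.card G * ρ * A) / κ - V * (8 * K ^ 2 * A / ρ) -
        4 * K ^ 2 * κ * A * V / R' := by ring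
    _ ≤ S := by linarith

end Pool.Agent.GrO
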