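import Pool.Agent.GrO.St0

/-!
MODULE St3 (M). The lower bound for the transportation cost of a large move.

Proof. `z' = z + κ mu`, `∑_a z' a = ∑_a z a`, all values in `[0, W]`, so `cl` is the identity and the
`Q`-parts of `St z` and `St z'` agree. Let `F = {j | ∀ l, r ≤ δ (x j) (y l)}` (`|F| = far`) and
`T = {P a i | a = x j for some j ∈ F, z a ≤ i < z' a}`. For `a = x j`, `j ∈ F`, no `y l` equals... note:
if `y l = a` then `r ≤ δ a a`; this is excluded by `hδ`. So `mu a = #{j | x j = a}`, all these `j` lie in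
`F`, and `|T| = ∑_a κ mu a = κ |F|`; `T ⊆ St z' \ St z`.
Every point of `St z \ St z'` is of the form `P c i` with `z' c < z c`, so `mu c < 0` and `c = y l` for some
`l`. Let `φ x = min t (inf_{q ∈ St z \ St z'} ρ x q)` (if `St z \ St z'` is empty, then also
`St z' \ St z` is empty by `card_St`, so `κ far = 0` and the claim is `0 ≤ W1`); it satisfies
`φ u - φ v ≤ ρ v u`, it is `≥ 0`, `= 0` on `St z \ St z'`, and `≥ t` on `T` by `ht`. `KhN.W1_ge` gives
`1/s (∑_{St z'} φ - ∑_{St z} φ) ≤ W1 (unif (St z)) (unif (St z'))` and the left side is at least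
`t κ far / s` (the common points cancel). The order of the two arguments of `W1` is the one in the
statement; use the symmetry of `ρ`.
-/

set_option autoImplicit false

namespace Pool.Agent.GrO

open Finset Pool.Agent.MP_12e089_an Pool.Agent.KhN

variable {G : Type} [Fintype G] [DecidableEq G] {W : ℕ} {M : Type} [Fintype M] [DecidableEq M]
  {s : ℕ}

private theorem mu_apply {G : Type} [DecidableEq G] {K : ℕ} (x y : Fin K → G) (a : G) :
    mu x y a = ∑ j, ((if a = x j then (1 : ℤ) else 0) - if a = y j then (1 : ℤ) else 0) := by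
  unfold mu
  rw [Finset.sum_apply]
  refine sum_congr rfl fun j _ => ?_
  rw [Pi.sub_apply, Pi.single_apply, Pi.single_apply]

private theorem mu_ge {G : Type} [DecidableEq G] {K : ℕ} (x y : Fin K → G) {a : G}
    (h : ∀ l, y l ≠ a) (F : Finset (Fin K)) :
    ((F.filter fun j => x j = a).card : ℤ) ≤ mu x y a := by
  have h0 : ∀ j, ((if a = x j then (1 : ℤ) else 0) - if a = y j then (1 : ℤ) else 0) =
      if x j = a then 1 else 0 := by
    intro j
    have h2 : ¬ a = y j := fun h' => h j h'.symm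
    rw [if_neg h2, sub_zero]
    by_cases h1 : x j = a
    · rw [if_pos h1, if_pos h1.symm]
    · rw [if_neg h1, if_neg (fun h' => h1 h'.symm)]
  rw [mu_apply, card_filter]
  simp only [h0]
  push_cast
  refine sum_le_sum_of_subset_of_nonneg (subset_univ F) fun j _ _ => ?_
  split_ifs <;> simp

private theorem mu_neg {G : Type} [DecidableEq G] {K : ℕ} (x y : Fin K → G) {a : G}
    (h : mu x y a < 0) : ∃ l, y l = a := by
  by_contra hc
  have h1 := mu_ge x y (fun l hl => hc ⟨l, hl⟩) ∅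
  simp at h1
  omega

private theorem sum_mu {K : ℕ} (x y : Fin K → G) : ∑ a, mu x y a = 0 := by
  simp only [mu_apply]
  rw [sum_comm]
  refine sum_eq_zero fun j _ => ?_
  rw [sum_sub_distrib]
  simp

private theorem cl_cast {W : ℕ} {t : ℤ} (h : 0 ≤ t ∧ t ≤ W) : (cl W t : ℤ) = t := by
  unfold cl
  omega

private theorem sum_cl_eq {K κ : ℕ} (x y : Fin K → G) (z : G → ℤ)
    (hz : ∀ a, 0 ≤ z a ∧ z a ≤ W)
    (hz' : ∀ a, 0 ≤ (z + (κ : ℤ) • mu x y) a ∧ (z + (κ : ℤ) • mu x y) a ≤ W) :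
    ∑ a, cl W (z a) = ∑ a, cl W ((z + (κ : ℤ) • mu x y : G → ℤ) a) := by
  have h1 : ((∑ a, cl W (z a) : ℕ) : ℤ) =
      ((∑ a, cl W ((z + (κ : ℤ) • mu x y : G → ℤ) a) : ℕ) : ℤ) := by
    push_cast
    rw [sum_congr rfl fun a _ => cl_cast (hz a), sum_congr rfl fun a _ => cl_cast (hz' a)]
    have h2 : ∀ a, (z + (κ : ℤ) • mu x y : G → ℤ) a = z a + κ * mu x y a := by
      intro a
      rw [Pi.add_apply, Pi.smul_apply, smul_eq_mul]
    simp only [h2]
    rw [sum_add_distrib, ← mul_sum, sum_mu, mul_zero, add_zero]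
  exact_mod_cast h1

/-- The truncated distance to a finite set. -/
private noncomputable def phi {M : Type} [DecidableEq M] (ρ : M → M → ℝ) (t : ℝ) (D : Finset M)
    (x : M) : ℝ :=
  (insert t (D.image (ρ x))).min' (insert_nonempty _ _)

private theorem phi_le {ρ : M → M → ℝ} {t : ℝ} {D : Finset M} (x : M) : phi ρ t D x ≤ t :=
  min'_le _ _ (mem_insert_self _ _)

private theorem phi_le' {ρ : M → M → ℝ} {t : ℝ} {D : Finset M} (x : M) {q : M} (hq : q ∈ D) :
    phi ρ t D x ≤ ρ x q :=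
  min'_le _ _ (mem_insert_of_mem (mem_image_of_mem _ hq))

private theorem le_phi {ρ : M → M → ℝ} {t : ℝ} {D : Finset M} {x : M} {u : ℝ} (h1 : u ≤ t)
    (h2 : ∀ q ∈ D, u ≤ ρ x q) : u ≤ phi ρ t D x := by
  refine le_min' _ _ _ fun v hv => ?_
  rcases mem_insert.1 hv with h | h
  · rw [h]
    exact h1
  · obtain ⟨q, hq, rfl⟩ := mem_image.1 h
    exact h2 q hq

private theorem W1_ge_card {ρ : M → M → ℝ} (hρ : IsMet ρ) (hs : 0 < s) {S S' T : Finset M}
    (hS : S.card = s) (hS' : S'.card = s) {t : ℝ} (ht0 : 0 ≤ t) (hT : T ⊆ S' \ S)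
    (hTD : ∀ p ∈ T, ∀ q ∈ S \ S', t ≤ ρ p q) :
    t * T.card / s ≤ W1 ρ (unif s S) (unif s S') := by
  refine le_trans ?_ (W1_ge hs hS hS' (phi ρ t (S \ S')) ?_)
  · have h0 : ∀ x, 0 ≤ phi ρ t (S \ S') x := fun x => le_phi ht0 fun q _ => hρ.nonneg _ _
    have h1 : ∑ y ∈ S', phi ρ t (S \ S') y - ∑ x ∈ S, phi ρ t (S \ S') x =
        ∑ y ∈ S' \ S, phi ρ t (S \ S') y := by
      rw [← sum_sdiff_sub_sum_sdiff]
      have h2 : ∑ x ∈ S \ S', phi ρ t (S \ S') x = 0 := by
        refine sum_eq_zero fun x hx => le_antisymm ?_ (h0 x)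
        exact (phi_le' x hx).trans (le_of_eq (hρ.self x))
      rw [h2, sub_zero]
    rw [h1]
    have h3 : t * T.card ≤ ∑ y ∈ S' \ S, phi ρ t (S \ S') y := by
      refine le_trans ?_ (sum_le_sum_of_subset_of_nonneg hT fun x _ _ => h0 x)
      rw [mul_comm, ← nsmul_eq_mul]
      exact card_nsmul_le_sum _ _ _ fun x hx => le_phi le_rfl (hTD x hx)
    have h4 : (0 : ℝ) < s := by exact_mod_cast hs
    rw [div_eq_mul_one_div, mul_comm (t * _)]
    exact mul_le_mul_of_nonneg_left h3 (by positivity)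
  · intro x y
    have h1 : phi ρ t (S \ S') y - ρ x y ≤ phi ρ t (S \ S') x := by
      refine le_phi ?_ fun q hq => ?_
      · have := phi_le (ρ := ρ) (t := t) (D := S \ S') y
        have := hρ.nonneg x y
        linarith
      · have h2 := phi_le' (ρ := ρ) (t := t) y hq
        have h3 := hρ.tri y x q
        have h4 := hρ.symm x y
        linarith
    linarith

theorem W1_far {ρ : M → M → ℝ} (hρ : IsMet ρ) (hs : 0 < s) (c : Cfg G W M s)
    (δ : G → G → ℝ) {r t : ℝ} (hδ : ∀ a, δ a a < r) (ht0 : 0 ≤ t)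
    (ht : ∀ a a' j j', r ≤ δ a a' → t ≤ ρ (c.P a j) (c.P a' j'))
    {K κ : ℕ} (x y : Fin K → G) (z : G → ℤ) (hz : ∀ a, 0 ≤ z a ∧ z a ≤ W)
    (hz' : ∀ a, 0 ≤ (z + (κ : ℤ) • mu x y) a ∧ (z + (κ : ℤ) • mu x y) a ≤ W) :
    t * κ * (far δ r x y : ℝ) / s ≤
      W1 ρ (unif s (c.St z)) (unif s (c.St (z + (κ : ℤ) • mu x y))) := by
  classical
  have hv : ∀ a, (z + (κ : ℤ) • mu x y : G → ℤ) a = z a + κ * mu x y a := by
    intro a
    rw [Pi.add_apply, Pi.smul_apply, smul_eq_mul]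
  have hsum := sum_cl_eq x y z hz hz'
  generalize hz1 : (z + (κ : ℤ) • mu x y : G → ℤ) = z' at hz' hv hsum ⊢
  obtain ⟨F, hF, hfar⟩ : ∃ F : Finset (Fin K), (∀ j, j ∈ F ↔ ∀ l, r ≤ δ (x j) (y l)) ∧
      far δ r x y = F.card := by
    refine ⟨univ.filter fun j => ∀ l, r ≤ δ (x j) (y l), fun j => ?_, ?_⟩
    · rw [mem_filter]
      exact ⟨fun h => h.2, fun h => ⟨mem_univ _, h⟩⟩
    · unfold far
      congr
  have hy : ∀ j ∈ F, ∀ l, y l ≠ x j := by
    intro j hj l h
    have h1 := (hF j).1 hj l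
    rw [h] at h1
    exact absurd (hδ (x j)) (not_lt.2 h1)
  let U : Finset (G × Fin W) := univ.filter fun p : G × Fin W =>
    p.1 ∈ F.image x ∧ z p.1 ≤ (p.2 : ℕ) ∧ ((p.2 : ℕ) : ℤ) < z' p.1
  have hU : κ * F.card ≤ U.card := by
    have h1 : U.card = ∑ a, (univ.filter fun i : Fin W =>
        a ∈ F.image x ∧ z a ≤ (i : ℕ) ∧ ((i : ℕ) : ℤ) < z' a).card := by
      simp only [U, card_filter]
      rw [Fintype.sum_prod_type]
    rw [h1, card_eq_sum_card_image x F, mul_sum]
    refine le_trans ?_ (sum_le_sum_of_subset_of_nonneg (subset_univ (F.image x))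
      fun a _ _ => Nat.zero_le _)
    refine sum_le_sum fun a ha => ?_
    obtain ⟨j, hj, hja⟩ := mem_image.1 ha
    have h2 : ((F.filter fun j => x j = a).card : ℤ) ≤ mu x y a :=
      mu_ge x y (fun l hl => hy j hj l (hl.trans hja.symm)) F
    have h3 : ((κ * (F.filter fun j => x j = a).card : ℕ) : ℤ) ≤ z' a - z a := by
      rw [hv a]
      push_cast
      have := mul_le_mul_of_nonneg_left h2 (Int.natCast_nonneg κ)
      linarith
    have h4 : κ * (F.filter fun j => x j = a).card ≤ (Ico (z a).toNat (z' a).toNat).card := by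
      rw [Nat.card_Ico]
      have := hz a
      have := hz' a
      omega
    refine h4.trans (le_trans (card_le_card ?_) (card_image_le (f := fun i : Fin W => (i : ℕ))))
    intro i hi
    rw [mem_Ico] at hi
    have h5 := hz a
    have h6 := hz' a
    rw [mem_image]
    refine ⟨⟨i, by omega⟩, ?_, rfl⟩
    rw [mem_filter]
    refine ⟨mem_univ _, ha, ?_, ?_⟩
    · dsimp only
      omega
    · dsimp only
      omega
  have hT : (U.image fun p => c.P p.1 p.2).card = U.card := by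
    refine card_image_of_injective _ fun p q h => ?_
    obtain ⟨h1, h2⟩ := c.P_inj _ _ _ _ h
    exact Prod.ext h1 h2
  have h1 := W1_ge_card hρ hs (card_St c z) (card_St c z') (T := U.image fun p => c.P p.1 p.2)
    ht0 ?_ ?_
  · refine le_trans ?_ h1
    rw [hT, hfar]
    have h2 : ((κ * F.card : ℕ) : ℝ) ≤ U.card := by exact_mod_cast hU
    push_cast at h2
    refine div_le_div_of_nonneg_right ?_ (Nat.cast_nonneg _)
    rw [mul_assoc]
    exact mul_le_mul_of_nonneg_left h2 ht0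
  · intro p hp
    obtain ⟨⟨a, i⟩, hai, rfl⟩ := mem_image.1 hp
    obtain ⟨-, h2, h3, h4⟩ := mem_filter.1 hai
    dsimp only at h2 h3 h4
    have h5 := cl_cast (hz a)
    have h6 := cl_cast (hz' a)
    rw [mem_sdiff]
    refine ⟨(mem_St c z' _).2 (Or.inl ⟨a, i, by omega, rfl⟩), fun h => ?_⟩
    rcases (mem_St c z _).1 h with ⟨b, i', hi', h7⟩ | ⟨t', -, h7⟩ | h7
    · obtain ⟨rfl, rfl⟩ := c.P_inj _ _ _ _ h7
      omega
    · exact c.PQ _ _ _ h7.symm
    · exact c.PZ _ _ h7
  · intro p hp q hq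
    obtain ⟨⟨a, i⟩, hai, rfl⟩ := mem_image.1 hp
    obtain ⟨-, h2, -, -⟩ := mem_filter.1 hai
    dsimp only at h2
    obtain ⟨j, hj, rfl⟩ := mem_image.1 h2
    obtain ⟨hq1, hq2⟩ := mem_sdiff.1 hq
    rcases (mem_St c z _).1 hq1 with ⟨b, i', hi', rfl⟩ | ⟨t', ht', rfl⟩ | h7
    · have h3 : mu x y b < 0 := by
        by_contra hc
        refine hq2 ((mem_St c z' _).2 (Or.inl ⟨b, i', ?_, rfl⟩))
        have h5 := cl_cast (hz b)
        have h6 := cl_cast (hz' b)
        have h8 : z b ≤ z' b := by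
          rw [hv b]
          have := mul_nonneg (Int.natCast_nonneg κ) (not_lt.1 hc)
          linarith
        omega
      obtain ⟨l, rfl⟩ := mu_neg x y h3
      exact ht _ _ _ _ ((hF j).1 hj l)
    · exact absurd ((mem_St c z' _).2 (Or.inr (Or.inl ⟨t', hsum ▸ ht', rfl⟩))) hq2
    · exact absurd ((mem_St c z' _).2 (Or.inr (Or.inr h7))) hq2

end Pool.Agent.GrO
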