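import Pool.Agent.GrO.Basic

/-!
MODULE Mom (M). First and second moment of the test functional on an indicator function.

`p = |A| / |G|`. First bound: `|∑_j (1_A(x_j) - 1_A(y_j))| ≤ ∑_j |1_A(x_j) - 1_A(y_j)|` and
`1/|G|^2 ∑_{x,y} |1_A(x) - 1_A(y)| = 2 p (1 - p) ≤ 2 p`. Second bound: Cauchy-Schwarz over all
`(x, y)` and `1/|G|^(2K) ∑_{x,y} (∑_j (1_A(x_j) - 1_A(y_j)))^2 = K · 2 p (1 - p) ≤ 2 K p`
(expand the square; for `i ≠ j` the mixed term factorizes and vanishes because
`∑_{a,b} (1_A(a) - 1_A(b)) = 0`).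
-/

set_option autoImplicit false

namespace Pool.Agent.GrO

open Finset

private theorem sum_coord {P : Type} [Fintype P] {K : ℕ} (f : P → ℝ) (i : Fin K) :
    (Fintype.card P : ℝ) * ∑ z : Fin K → P, f (z i) = (∑ p, f p) * (Fintype.card P : ℝ) ^ K := by
  classical
  have h1 : ∑ z : Fin K → P, f (z i) =
      (∑ p, f p) * (Fintype.card ({j : Fin K // j ≠ i} → P) : ℝ) := by
    rw [Fintype.sum_equiv (Equiv.funSplitAt i P) (fun z => f (z i)) (fun w => f w.1)
      (fun z => rfl), Fintype.sum_prod_type]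
    simp only [sum_const, card_univ, nsmul_eq_mul]
    rw [← mul_sum, mul_comm]
  have h2 : (Fintype.card P : ℝ) ^ K =
      (Fintype.card P : ℝ) * (Fintype.card ({j : Fin K // j ≠ i} → P) : ℝ) := by
    have h3 := Fintype.card_congr (Equiv.funSplitAt i P)
    rw [Fintype.card_prod, Fintype.card_fun, Fintype.card_fin] at h3
    exact_mod_cast h3
  rw [h1, h2]
  ring

private theorem sum_mixed {P : Type} [Fintype P] {K : ℕ} (f : P → ℝ) (hf : ∑ p, f p = 0)
    (i j : Fin K) (hij : j ≠ i) : ∑ z : Fin K → P, f (z i) * f (z j) = 0 := by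
  classical
  rw [Fintype.sum_equiv (Equiv.funSplitAt i P) (fun z => f (z i) * f (z j))
    (fun w => f w.1 * f (w.2 ⟨j, hij⟩)) (fun z => rfl), Fintype.sum_prod_type]
  simp only [← mul_sum]
  rw [← sum_mul, hf, zero_mul]

private theorem sum_sq {P : Type} [Fintype P] {K : ℕ} (f : P → ℝ) (hf : ∑ p, f p = 0) :
    (Fintype.card P : ℝ) * ∑ z : Fin K → P, (∑ j, f (z j)) ^ 2 =
      K * (∑ p, f p ^ 2) * (Fintype.card P : ℝ) ^ K := by
  have h1 : ∑ z : Fin K → P, (∑ j, f (z j)) ^ 2 =
      ∑ i : Fin K, ∑ z : Fin K → P, f (z i) ^ 2 := by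
    have h2 : ∀ z : Fin K → P, (∑ j, f (z j)) ^ 2 = ∑ i, ∑ j, f (z i) * f (z j) := by
      intro z
      rw [sq, sum_mul_sum]
    simp only [h2]
    rw [sum_comm]
    refine sum_congr rfl fun i _ => ?_
    rw [sum_comm]
    rw [← add_sum_erase _ _ (mem_univ i)]
    rw [sum_eq_zero (s := univ.erase i), add_zero]
    · exact sum_congr rfl fun z _ => by rw [sq]
    · intro j hj
      exact sum_mixed f hf i j (ne_of_mem_erase hj)
  rw [h1, mul_sum]
  have h3 : ∀ i : Fin K, (Fintype.card P : ℝ) * ∑ z : Fin K → P, f (z i) ^ 2 =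
      (∑ p, f p ^ 2) * (Fintype.card P : ℝ) ^ K := fun i => sum_coord (fun p => f p ^ 2) i
  simp only [h3, sum_const, card_univ, Fintype.card_fin, nsmul_eq_mul]
  ring

private theorem ind_nonneg {G : Type} [DecidableEq G] (A : Finset G) (x : G) : 0 ≤ ind A x := by
  unfold ind
  split_ifs <;> norm_num

private theorem ind_le_one {G : Type} [DecidableEq G] (A : Finset G) (x : G) : ind A x ≤ 1 := by
  unfold ind
  split_ifs <;> norm_num

private theorem sum_ind {G : Type} [Fintype G] [DecidableEq G] (A : Finset G) :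
    ∑ x, ind A x = A.card := by
  simp [ind]

theorem tst_ind_le {G : Type} [Fintype G] [DecidableEq G] [Nonempty G] (K : ℕ) (A : Finset G) :
    tst K (ind A) ≤ min (2 * (K * A.card / (Fintype.card G : ℝ)))
      (Real.sqrt (2 * (K * A.card / (Fintype.card G : ℝ)))) := by
  classical
  set N : ℝ := (Fintype.card G : ℝ) with hN
  have hNpos : 0 < N := by
    rw [hN]
    exact_mod_cast Fintype.card_pos
  let h : G × G → ℝ := fun p => ind A p.1 - ind A p.2
  have hcard : (Fintype.card (G × G) : ℝ) = N ^ 2 := by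
    rw [Fintype.card_prod]
    push_cast
    rw [← hN, sq]
  -- the sum over pairs
  have htst : tst K (ind A) = (∑ z : Fin K → G × G, |∑ j, h (z j)|) / N ^ (2 * K) := by
    unfold tst
    congr 1
    rw [← Fintype.sum_prod_type' (f := fun x y : Fin K → G => ‖∑ j, (ind A (x j) - ind A (y j))‖)]
    symm
    refine Fintype.sum_equiv (Equiv.arrowProdEquivProdArrow (Fin K) (fun _ => G) (fun _ => G))
      _ _ ?_
    intro z
    rw [Real.norm_eq_abs]
    rfl
  have hsum0 : ∑ p, h p = 0 := by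
    rw [Fintype.sum_prod_type]
    simp only [h, sum_sub_distrib, sum_const, card_univ, nsmul_eq_mul]
    rw [← mul_sum]
    ring
  have hbd : ∑ p : G × G, (ind A p.1 + ind A p.2) = 2 * A.card * N := by
    rw [Fintype.sum_prod_type]
    simp only [sum_add_distrib, sum_const, card_univ, nsmul_eq_mul]
    rw [← mul_sum, sum_ind]
    ring
  have habs : ∑ p, |h p| ≤ 2 * A.card * N := by
    rw [← hbd]
    refine sum_le_sum fun p _ => ?_
    have h1 := ind_nonneg A p.1
    have h2 := ind_nonneg A p.2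
    rw [abs_le]
    constructor <;> simp only [h] <;> linarith
  have hsq : ∑ p, h p ^ 2 ≤ 2 * A.card * N := by
    refine le_trans (sum_le_sum fun p _ => ?_) habs
    have h1 := ind_nonneg A p.1
    have h2 := ind_nonneg A p.2
    have h3 := ind_le_one A p.1
    have h4 := ind_le_one A p.2
    have h5 : |h p| ≤ 1 := by
      rw [abs_le]
      constructor <;> simp only [h] <;> linarith
    rw [← sq_abs]
    nlinarith [abs_nonneg (h p)]
  have hP : (0 : ℝ) < N ^ (2 * K) := by positivity
  refine le_min ?_ ?_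
  · rw [htst, div_le_iff₀ hP]
    have h1 : ∑ z : Fin K → G × G, |∑ j, h (z j)| ≤ ∑ j : Fin K, ∑ z : Fin K → G × G, |h (z j)| := by
      rw [sum_comm]
      exact sum_le_sum fun z _ => abs_sum_le_sum_abs _ _
    have h2 : ∀ j : Fin K, N ^ 2 * ∑ z : Fin K → G × G, |h (z j)| ≤
        (2 * A.card * N) * N ^ (2 * K) := by
      intro j
      have h3 := sum_coord (fun p : G × G => |h p|) j
      rw [hcard, ← pow_mul] at h3
      rw [h3]
      exact mul_le_mul_of_nonneg_right habs hP.le
    have h4 : N ^ 2 * ∑ z : Fin K → G × G, |∑ j, h (z j)| ≤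
        K * ((2 * A.card * N) * N ^ (2 * K)) := by
      calc N ^ 2 * ∑ z : Fin K → G × G, |∑ j, h (z j)|
          ≤ N ^ 2 * ∑ j : Fin K, ∑ z : Fin K → G × G, |h (z j)| := by
            exact mul_le_mul_of_nonneg_left h1 (by positivity)
        _ = ∑ j : Fin K, N ^ 2 * ∑ z : Fin K → G × G, |h (z j)| := by rw [mul_sum]
        _ ≤ ∑ _j : Fin K, (2 * A.card * N) * N ^ (2 * K) := sum_le_sum fun j _ => h2 j
        _ = K * ((2 * A.card * N) * N ^ (2 * K)) := by simp
    have h5 : N ^ 2 * (2 * (K * A.card / N) * N ^ (2 * K)) =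
        K * ((2 * A.card * N) * N ^ (2 * K)) := by
      field_simp
    rw [← h5] at h4
    exact le_of_mul_le_mul_left h4 (by positivity)
  · refine Real.le_sqrt_of_sq_le ?_
    rw [htst, div_pow, div_le_iff₀ (by positivity)]
    have hcs : (∑ z : Fin K → G × G, |∑ j, h (z j)|) ^ 2 ≤
        N ^ (2 * K) * ∑ z : Fin K → G × G, (∑ j, h (z j)) ^ 2 := by
      have h1 := sq_sum_le_card_mul_sum_sq (s := (univ : Finset (Fin K → G × G)))
        (f := fun z => |∑ j, h (z j)|)
      simp only [sq_abs] at h1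
      refine h1.trans (le_of_eq ?_)
      congr 1
      rw [card_univ, Fintype.card_fun, Fintype.card_fin]
      push_cast
      rw [hcard, pow_mul]
    have h3 := sum_sq (K := K) h hsum0
    rw [hcard, ← pow_mul] at h3
    have h4 : N ^ 2 * (∑ z : Fin K → G × G, |∑ j, h (z j)|) ^ 2 ≤
        N ^ (2 * K) * (K * (2 * A.card * N) * N ^ (2 * K)) := by
      calc N ^ 2 * (∑ z : Fin K → G × G, |∑ j, h (z j)|) ^ 2
          ≤ N ^ 2 * (N ^ (2 * K) * ∑ z : Fin K → G × G, (∑ j, h (z j)) ^ 2) :=
            mul_le_mul_of_nonneg_left hcs (by positivity)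
        _ = N ^ (2 * K) * (K * (∑ p, h p ^ 2) * N ^ (2 * K)) := by rw [← h3]; ring
        _ ≤ N ^ (2 * K) * (K * (2 * A.card * N) * N ^ (2 * K)) := by
            refine mul_le_mul_of_nonneg_left ?_ hP.le
            refine mul_le_mul_of_nonneg_right ?_ hP.le
            exact mul_le_mul_of_nonneg_left hsq (Nat.cast_nonneg _)
    have h5 : N ^ 2 * (2 * (K * A.card / N) * (N ^ (2 * K)) ^ 2) =
        N ^ (2 * K) * (K * (2 * A.card * N) * N ^ (2 * K)) := by
      field_simp
    rw [← h5] at h4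
    exact le_of_mul_le_mul_left h4 (by positivity)

end Pool.Agent.GrO
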