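import Mathlib

/-!
MODULE Sum1 (M). The sum over the scales; pure real analysis.

Write `θ = v^(1/k)`, `ℓ = 2^i`, `u = v / ℓ^k`. The `i`-th term is at most `2 v / ℓ` (first entry of the
minimum) and at most `√2 √v ℓ^(k/2 - 1)` (second entry: `ℓ^(k-1) √(2 v / ℓ^k)`).
`sum1`: over the `i` with `ℓ ≥ θ` the first bound sums to at most `2 v · 2/θ = 4 θ^(k-1)` (geometric
series, the smallest such `ℓ` is `≥ θ`); over the `i` with `ℓ < θ` the second bound is a geometric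
series with ratio `2^(k/2-1) ≥ √2`, its sum is at most `√2 √v θ^(k/2-1) / (1 - 2^(-1/2)) ≤ 5 θ^(k-1)`
(`√2/(1 - 1/√2) = 4.83`). The case `v = 0` is trivial (both sides are `0`, note `1 - 1/k > 0`).
`sum2`: all `ℓ ≤ 2^(b-1) ≤ θ / 16`, the second bound sums to at most
`4.83 √v (θ/16)^(k/2-1) = 4.83 θ^(k-1) 4^(-(k-2))`.
(If it is easier, prove bounds for the terms by `θ^(k-1) · 4 · 2^(-|i - i₀|/2)`-like expressions;
only the constants 9 and 5 matter.)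
-/

set_option autoImplicit false

namespace Pool.Agent.GrO

open Finset

private theorem Sum1_term (m : ℕ) {T c : ℝ} (hT : 0 < T) (hc : 0 < c) :
    (c ^ 2) ^ (m + 2) * min (2 * ((T ^ 2) ^ (m + 3) / (c ^ 2) ^ (m + 3)))
      (Real.sqrt (2 * ((T ^ 2) ^ (m + 3) / (c ^ 2) ^ (m + 3)))) =
    (T ^ 2) ^ (m + 2) * min (2 * (T / c) ^ 2) (Real.sqrt 2 * (c / T) ^ (m + 1)) := by
  have h1 : Real.sqrt (2 * ((T ^ 2) ^ (m + 3) / (c ^ 2) ^ (m + 3))) =
      Real.sqrt 2 * (T / c) ^ (m + 3) := by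
    rw [← div_pow, ← div_pow, ← pow_mul, mul_comm 2 (m + 3), pow_mul,
      Real.sqrt_mul (by norm_num), Real.sqrt_sq (by positivity)]
  rw [h1, mul_min_of_nonneg _ _ (by positivity), mul_min_of_nonneg _ _ (by positivity)]
  congr 1
  · field_simp
    ring
  · rw [div_pow, div_pow]
    field_simp
    ring

private theorem Sum1_sq {x y : ℝ} (h : x ^ 2 ≤ y ^ 2) (hy : 0 < y) :
    x ≤ y := by
  nlinarith

private theorem Sum1_r : 1 < Real.sqrt 2 ∧ Real.sqrt 2 * Real.sqrt 2 = 2 ∧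
    2 + 2 * Real.sqrt 2 ≤ 5 := by
  have h1 : Real.sqrt 2 * Real.sqrt 2 = 2 := Real.mul_self_sqrt (by norm_num)
  have h0 := Real.sqrt_nonneg 2
  refine ⟨?_, h1, ?_⟩
  · nlinarith
  · nlinarith

private theorem Sum1_inv (m : ℕ) {T : ℝ} (hT : 0 < T) (b : ℕ) :
    (Real.sqrt 2 ^ b / T ≤ 1 → ∑ i ∈ range b, min (2 * (T / Real.sqrt 2 ^ i) ^ 2)
      (Real.sqrt 2 * (Real.sqrt 2 ^ i / T) ^ (m + 1)) ≤ (2 + Real.sqrt 2) * (Real.sqrt 2 ^ b / T)) ∧
    (1 ≤ Real.sqrt 2 ^ b / T → ∑ i ∈ range b, min (2 * (T / Real.sqrt 2 ^ i) ^ 2)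
      (Real.sqrt 2 * (Real.sqrt 2 ^ i / T) ^ (m + 1)) ≤ 9 - 4 / (Real.sqrt 2 ^ b / T) ^ 2) := by
  obtain ⟨hr1, hr2, hr5⟩ := Sum1_r
  have hr0 : 0 < Real.sqrt 2 := by linarith
  induction b with
  | zero =>
    have hq : 0 < Real.sqrt 2 ^ 0 / T := by positivity
    refine ⟨fun _ => ?_, fun h => ?_⟩
    · rw [Finset.sum_range_zero]
      positivity
    · rw [Finset.sum_range_zero]
      have h2 : 4 / (Real.sqrt 2 ^ 0 / T) ^ 2 ≤ 4 := by
        rw [div_le_iff₀ (by positivity)]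
        nlinarith
      linarith
  | succ b ih =>
    rw [Finset.sum_range_succ]
    set S := ∑ i ∈ range b, min (2 * (T / Real.sqrt 2 ^ i) ^ 2)
      (Real.sqrt 2 * (Real.sqrt 2 ^ i / T) ^ (m + 1)) with hS
    set q := Real.sqrt 2 ^ b / T with hq
    have hq0 : 0 < q := by positivity
    have hq1 : Real.sqrt 2 ^ (b + 1) / T = Real.sqrt 2 * q := by
      rw [hq, pow_succ]
      ring
    have hq2 : T / Real.sqrt 2 ^ b = 1 / q := by
      rw [hq, one_div_div]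
    rw [hq1, hq2]
    rcases le_total q 1 with hle | hge
    · have h1 := ih.1 hle
      have h2 : min (2 * (1 / q) ^ 2) (Real.sqrt 2 * q ^ (m + 1)) ≤ Real.sqrt 2 * q := by
        refine (min_le_right _ _).trans ?_
        have h3 : q ^ (m + 1) ≤ q := pow_le_of_le_one hq0.le hle (by omega)
        exact mul_le_mul_of_nonneg_left h3 hr0.le
      have h4 : S + min (2 * (1 / q) ^ 2) (Real.sqrt 2 * q ^ (m + 1)) ≤
          (2 + 2 * Real.sqrt 2) * q := by linarith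
      refine ⟨fun _ => ?_, fun h => ?_⟩
      · have h5 : (2 + Real.sqrt 2) * (Real.sqrt 2 * q) = (2 + 2 * Real.sqrt 2) * q := by
          linear_combination q * hr2
        rw [h5]
        exact h4
      · have h6 : 4 / (Real.sqrt 2 * q) ^ 2 ≤ 4 := by
          rw [div_le_iff₀ (by positivity)]
          nlinarith
        nlinarith
    · have h1 := ih.2 hge
      refine ⟨fun h => ?_, fun _ => ?_⟩
      · exfalso
        nlinarith
      · have h2 : min (2 * (1 / q) ^ 2) (Real.sqrt 2 * q ^ (m + 1)) ≤ 2 / q ^ 2 := by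
          refine (min_le_left _ _).trans (le_of_eq ?_)
          rw [div_pow, one_pow]
          ring
        have h3 : 4 / (Real.sqrt 2 * q) ^ 2 = 2 / q ^ 2 := by
          rw [mul_pow, pow_two (Real.sqrt 2), hr2, div_eq_div_iff (by positivity) (by positivity)]
          ring
        have h4 : 4 / q ^ 2 = 2 / q ^ 2 + 2 / q ^ 2 := by ring
        rw [h3]
        linarith

private theorem Sum1_inv2 (m : ℕ) {T : ℝ} (hT : 0 < T) (b : ℕ) :
    ∑ i ∈ range (b + 1), min (2 * (T / Real.sqrt 2 ^ i) ^ 2)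
      (Real.sqrt 2 * (Real.sqrt 2 ^ i / T) ^ (m + 1)) ≤ 5 * (Real.sqrt 2 ^ b / T) ^ (m + 1) := by
  obtain ⟨hr1, hr2, hr5⟩ := Sum1_r
  have hr0 : 0 < Real.sqrt 2 := by linarith
  have key : ∑ i ∈ range (b + 1), min (2 * (T / Real.sqrt 2 ^ i) ^ 2)
      (Real.sqrt 2 * (Real.sqrt 2 ^ i / T) ^ (m + 1)) ≤
      (2 + 2 * Real.sqrt 2) * (Real.sqrt 2 ^ b / T) ^ (m + 1) := by
    induction b with
    | zero =>
      rw [Finset.sum_range_one]
      refine (min_le_right _ _).trans ?_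
      have h : 0 < (Real.sqrt 2 ^ 0 / T) ^ (m + 1) := by positivity
      nlinarith
    | succ b ih =>
      rw [Finset.sum_range_succ]
      set q := Real.sqrt 2 ^ b / T with hq
      have hq0 : 0 < q := by positivity
      have hq1 : Real.sqrt 2 ^ (b + 1) / T = Real.sqrt 2 * q := by
        rw [hq, pow_succ]
        ring
      rw [hq1]
      have h2 : min (2 * (T / Real.sqrt 2 ^ (b + 1)) ^ 2)
          (Real.sqrt 2 * (Real.sqrt 2 * q) ^ (m + 1)) ≤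
          Real.sqrt 2 * (Real.sqrt 2 * q) ^ (m + 1) := min_le_right _ _
      have h3 : Real.sqrt 2 * q ^ (m + 1) ≤ (Real.sqrt 2 * q) ^ (m + 1) := by
        rw [mul_pow]
        have h4 : Real.sqrt 2 ≤ Real.sqrt 2 ^ (m + 1) := le_self_pow₀ hr1.le (by omega)
        exact mul_le_mul_of_nonneg_right h4 (by positivity)
      have h5 : (2 + 2 * Real.sqrt 2) * q ^ (m + 1) =
          (2 + Real.sqrt 2) * (Real.sqrt 2 * q ^ (m + 1)) := by
        linear_combination (-(q ^ (m + 1))) * hr2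
      have h6 : (2 + Real.sqrt 2) * (Real.sqrt 2 * q ^ (m + 1)) ≤
          (2 + Real.sqrt 2) * (Real.sqrt 2 * q) ^ (m + 1) :=
        mul_le_mul_of_nonneg_left h3 (by linarith)
      linarith
  refine key.trans ?_
  exact mul_le_mul_of_nonneg_right hr5 (by positivity)

private theorem Sum1_red (m : ℕ) {v : ℝ} (hv : 0 < v) (a b : ℕ) :
    ∃ T : ℝ, 0 < T ∧ T ^ 2 = v ^ (1 / ((m + 3 : ℕ) : ℝ)) ∧
    (T ^ 2) ^ (m + 2) = v ^ (1 - 1 / ((m + 3 : ℕ) : ℝ)) ∧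
    ∑ i ∈ Finset.Ico a b, (2 : ℝ) ^ (i * (m + 3 - 1)) *
      min (2 * (v / 2 ^ (i * (m + 3)))) (Real.sqrt (2 * (v / 2 ^ (i * (m + 3))))) ≤
    (T ^ 2) ^ (m + 2) * ∑ i ∈ range b, min (2 * (T / Real.sqrt 2 ^ i) ^ 2)
      (Real.sqrt 2 * (Real.sqrt 2 ^ i / T) ^ (m + 1)) := by
  obtain ⟨hr1, hr2, hr5⟩ := Sum1_r
  have hr0 : 0 < Real.sqrt 2 := by linarith
  have hθ : 0 < v ^ (1 / ((m + 3 : ℕ) : ℝ)) := Real.rpow_pos_of_pos hv _
  have hk : ((m + 3 : ℕ) : ℝ) ≠ 0 := by positivity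
  have hT2 : Real.sqrt (v ^ (1 / ((m + 3 : ℕ) : ℝ))) ^ 2 = v ^ (1 / ((m + 3 : ℕ) : ℝ)) :=
    Real.sq_sqrt hθ.le
  have hT0 : 0 < Real.sqrt (v ^ (1 / ((m + 3 : ℕ) : ℝ))) := Real.sqrt_pos.2 hθ
  set T := Real.sqrt (v ^ (1 / ((m + 3 : ℕ) : ℝ))) with hT
  have hTv : (T ^ 2) ^ (m + 3) = v := by
    rw [hT2, ← Real.rpow_natCast, ← Real.rpow_mul hv.le, one_div, inv_mul_cancel₀ hk,
      Real.rpow_one]
  refine ⟨T, hT0, hT2, ?_, ?_⟩
  · rw [hT2, ← Real.rpow_natCast, ← Real.rpow_mul hv.le]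
    congr 1
    push_cast
    have : (m : ℝ) + 3 ≠ 0 := by positivity
    field_simp
    ring
  · rw [Finset.mul_sum]
    have h1 : ∀ i : ℕ, (2 : ℝ) ^ (i * (m + 3 - 1)) *
        min (2 * (v / 2 ^ (i * (m + 3)))) (Real.sqrt (2 * (v / 2 ^ (i * (m + 3))))) =
        (T ^ 2) ^ (m + 2) * min (2 * (T / Real.sqrt 2 ^ i) ^ 2)
      (Real.sqrt 2 * (Real.sqrt 2 ^ i / T) ^ (m + 1)) := by
      intro i
      have h2 : ∀ j : ℕ, (2 : ℝ) ^ (i * j) = ((Real.sqrt 2 ^ i) ^ 2) ^ j := by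
        intro j
        rw [pow_mul, ← pow_mul (Real.sqrt 2) i 2, mul_comm i 2, pow_mul (Real.sqrt 2) 2 i,
          pow_two (Real.sqrt 2), hr2]
      have h3 : m + 3 - 1 = m + 2 := by omega
      rw [h3, h2 (m + 2), h2 (m + 3), ← Sum1_term m hT0 (by positivity), hTv]
    rw [Finset.sum_congr rfl fun i _ => h1 i]
    refine Finset.sum_le_sum_of_subset_of_nonneg ?_ ?_
    · intro i hi
      rw [Finset.mem_Ico] at hi
      rw [Finset.mem_range]
      exact hi.2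
    · intro i _ _
      have h4 : 0 ≤ min (2 * (T / Real.sqrt 2 ^ i) ^ 2)
        (Real.sqrt 2 * (Real.sqrt 2 ^ i / T) ^ (m + 1)) := le_min (by positivity) (by positivity)
      positivity

theorem sum1 {k : ℕ} (hk : 3 ≤ k) {v : ℝ} (hv : 0 ≤ v) (a b : ℕ) :
    ∑ i ∈ Finset.Ico a b, (2 : ℝ) ^ (i * (k - 1)) *
      min (2 * (v / 2 ^ (i * k))) (Real.sqrt (2 * (v / 2 ^ (i * k)))) ≤
    9 * v ^ (1 - 1 / (k : ℝ)) := by
  obtain ⟨m, rfl⟩ : ∃ m, k = m + 3 := ⟨k - 3, by omega⟩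
  rcases hv.eq_or_lt with h0 | hpos
  · subst h0
    have h1 : ∑ i ∈ Finset.Ico a b, (2 : ℝ) ^ (i * (m + 3 - 1)) *
      min (2 * ((0 : ℝ) / 2 ^ (i * (m + 3)))) (Real.sqrt (2 * ((0 : ℝ) / 2 ^ (i * (m + 3))))) = 0 := by
      refine Finset.sum_eq_zero fun i _ => ?_
      rw [zero_div, mul_zero, Real.sqrt_zero, min_self, mul_zero]
    rw [h1]
    have h2 : (0 : ℝ) ≤ 0 ^ (1 - 1 / ((m + 3 : ℕ) : ℝ)) := Real.rpow_nonneg le_rfl _
    linarith
  · obtain ⟨T, hT0, hT2, hT3, hT4⟩ := Sum1_red m hpos a b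
    refine hT4.trans ?_
    rw [← hT3, mul_comm (9 : ℝ)]
    refine mul_le_mul_of_nonneg_left ?_ (by positivity)
    obtain ⟨hr1, hr2, hr5⟩ := Sum1_r
    have hq0 : 0 < Real.sqrt 2 ^ b / T := by positivity
    rcases le_total (Real.sqrt 2 ^ b / T) 1 with hle | hge
    · have h5 := (Sum1_inv m hT0 b).1 hle
      nlinarith
    · have h5 := (Sum1_inv m hT0 b).2 hge
      have h6 : 0 ≤ 4 / (Real.sqrt 2 ^ b / T) ^ 2 := by positivity
      linarith

theorem sum2 {k : ℕ} (hk : 3 ≤ k) {v : ℝ} (hv : 0 ≤ v) (a b : ℕ)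
    (hb : (2 : ℝ) ^ (b + 3) ≤ v ^ (1 / (k : ℝ))) :
    ∑ i ∈ Finset.Ico a b, (2 : ℝ) ^ (i * (k - 1)) *
      min (2 * (v / 2 ^ (i * k))) (Real.sqrt (2 * (v / 2 ^ (i * k)))) ≤
    5 * v ^ (1 - 1 / (k : ℝ)) / 4 ^ (k - 2) := by
  obtain ⟨m, rfl⟩ : ∃ m, k = m + 3 := ⟨k - 3, by omega⟩
  rcases hv.eq_or_lt with h0 | hpos
  · exfalso
    subst h0
    rw [Real.zero_rpow (by positivity)] at hb
    have : (0 : ℝ) < 2 ^ (b + 3) := by positivity
    linarith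
  · obtain ⟨T, hT0, hT2, hT3, hT4⟩ := Sum1_red m hpos a b
    refine hT4.trans ?_
    rw [← hT3]
    have h1 : 5 * (T ^ 2) ^ (m + 2) / 4 ^ (m + 3 - 2) =
        (T ^ 2) ^ (m + 2) * (5 / 4 ^ (m + 1)) := by
      have : m + 3 - 2 = m + 1 := by omega
      rw [this]
      ring
    rw [h1]
    refine mul_le_mul_of_nonneg_left ?_ (by positivity)
    obtain ⟨hr1, hr2, hr5⟩ := Sum1_r
    have hr0 : 0 < Real.sqrt 2 := by linarith
    cases b with
    | zero =>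
      rw [Finset.sum_range_zero]
      positivity
    | succ b =>
      refine (Sum1_inv2 m hT0 b).trans ?_
      rw [← hT2] at hb
      have h2 : (Real.sqrt 2 ^ b * 4) ^ 2 ≤ T ^ 2 := by
        refine le_trans (le_of_eq ?_) hb
        rw [mul_pow, ← pow_mul, mul_comm b 2, pow_mul, pow_two (Real.sqrt 2), hr2]
        ring
      have h3 : Real.sqrt 2 ^ b * 4 ≤ T := Sum1_sq h2 hT0
      have h4 : Real.sqrt 2 ^ b / T ≤ 1 / 4 := by
        rw [div_le_div_iff₀ hT0 (by norm_num)]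
        linarith
      have h5 : (Real.sqrt 2 ^ b / T) ^ (m + 1) ≤ (1 / 4) ^ (m + 1) :=
        pow_le_pow_left₀ (by positivity) h4 _
      calc 5 * (Real.sqrt 2 ^ b / T) ^ (m + 1) ≤ 5 * (1 / 4) ^ (m + 1) := by linarith
        _ = 5 / 4 ^ (m + 1) := by
            rw [div_pow, one_pow]
            ring

end Pool.Agent.GrO
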