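import Pool.Agent.GrO.Iso
import Pool.Agent.GrO.Sum1

/-!
MODULE Scale (S). The scale sum is bounded by the perimeter.

Proof. `v = |A|`, `n = 2^J`, `θ = v^(1/k)`, `v / n = v^(1-1/k) · θ / n`. If `A = ∅` use `sum1` with
`v = 0` (or all terms vanish) and `0 ≤ grad`. If `θ ≤ n / 4`: `iso` gives
`grad ≥ k v^(1-1/k) (1 - θ/n) ≥ (3/4) k v^(1-1/k)`, and `sum1` gives at most
`9 v^(1-1/k) = 12/k · (3/4) k v^(1-1/k)`. If `θ > n / 4 = 2^(J-2)`: if `J < 5` the sum is empty; else
`sum2` with `b = J - 5` gives at most `5 v^(1-1/k) / 4^(k-2)`; as `v ≤ n^k / 2`, `θ / n ≤ 2^(-1/k) ≤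
1 - 1/(2k)` (Bernoulli: `(1 - 1/(2k))^k ≥ 1/2`), so `iso` gives `grad ≥ v^(1-1/k) / 2` and
`12/k · 1/2 ≥ 5 / 4^(k-2)` because `6 · 4^(k-2) ≥ 5 k` for `k ≥ 3`.
-/

set_option autoImplicit false

namespace Pool.Agent.GrO

open Finset Pool.Agent.MP_12e089_an

private lemma Scale_grad_nonneg {n k : ℕ} (φ : Grid n k → ℝ) : 0 ≤ grad φ := by
  unfold grad
  refine Finset.sum_nonneg fun x _ => Finset.sum_nonneg fun j _ => ?_
  split_ifs
  · exact norm_nonneg _
  · exact le_refl _

private lemma Scale_five {m : ℕ} : 5 * (m + 3) ≤ 6 * 4 ^ (m + 1) := by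
  induction m with
  | zero => norm_num
  | succ m ih =>
    have : 4 ^ (m + 1 + 1) = 4 * 4 ^ (m + 1) := by ring
    omega

theorem scale_sum {J k : ℕ} (hk : 3 ≤ k) (A : Finset (Grid (2 ^ J) k))
    (hA : 2 * A.card ≤ (2 ^ J) ^ k) :
    ∑ i ∈ Finset.Ico 5 (J - 5), (2 : ℝ) ^ (i * (k - 1)) *
      min (2 * ((A.card : ℝ) / 2 ^ (i * k))) (Real.sqrt (2 * ((A.card : ℝ) / 2 ^ (i * k)))) ≤
    12 / (k : ℝ) * grad (ind A) := by
  have hk0 : (0 : ℝ) < k := by
    have : 0 < k := by omega
    exact_mod_cast this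
  have hk3 : (3 : ℝ) ≤ k := by exact_mod_cast hk
  have hgrad := Scale_grad_nonneg (ind A)
  have hv0 : (0 : ℝ) ≤ (A.card : ℝ) := Nat.cast_nonneg _
  have hexp : (0 : ℝ) < 1 - 1 / (k : ℝ) := by
    have : 1 / (k : ℝ) ≤ 1 / 3 := one_div_le_one_div_of_le (by norm_num) hk3
    linarith
  have hs1 := sum1 hk hv0 5 (J - 5)
  rcases Nat.eq_zero_or_pos A.card with h0 | hpos
  · have h1 : ((A.card : ℝ)) ^ (1 - 1 / (k : ℝ)) = 0 := by
      rw [h0, Nat.cast_zero, Real.zero_rpow hexp.ne']
    rw [h1, mul_zero] at hs1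
    exact hs1.trans (by positivity)
  · have hv : (0 : ℝ) < (A.card : ℝ) := by exact_mod_cast hpos
    have hiso := iso (n := 2 ^ J) (k := k) (by omega) A
    have hn : (0 : ℝ) < ((2 ^ J : ℕ) : ℝ) := by positivity
    set n : ℝ := ((2 ^ J : ℕ) : ℝ) with hndef
    set v : ℝ := (A.card : ℝ) with hvdef
    set w : ℝ := v ^ (1 - 1 / (k : ℝ)) with hwdef
    set θ : ℝ := v ^ (1 / (k : ℝ)) with hθdef
    have hw : 0 < w := Real.rpow_pos_of_pos hv _
    have hθ : 0 < θ := Real.rpow_pos_of_pos hv _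
    have hvw : v = w * θ := by
      rw [hwdef, hθdef, ← Real.rpow_add hv]
      norm_num
    have hθk : θ ^ k = v := by
      rw [hθdef, ← Real.rpow_natCast, ← Real.rpow_mul hv.le]
      rw [one_div, inv_mul_cancel₀ hk0.ne', Real.rpow_one]
    have hgr : (k : ℝ) * w * (1 - θ / n) ≤ grad (ind A) := by
      refine le_trans (le_of_eq ?_) hiso
      rw [hvw]
      ring
    rcases le_or_gt θ (n / 4) with hle | hgt
    · -- small sets
      have h1 : θ / n ≤ 1 / 4 := by
        rw [div_le_iff₀ hn]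
        linarith
      have h2 : (k : ℝ) * w * (3 / 4) ≤ grad (ind A) := by
        refine le_trans ?_ hgr
        apply mul_le_mul_of_nonneg_left _ (mul_pos hk0 hw).le
        linarith
      refine hs1.trans ?_
      have h3 : 12 / (k : ℝ) * ((k : ℝ) * w * (3 / 4)) = 9 * w := by
        field_simp
        ring
      rw [← h3]
      exact mul_le_mul_of_nonneg_left h2 (by positivity)
    · -- large sets
      rcases Nat.lt_or_ge J 11 with hJ | hJ
      · have : Finset.Ico 5 (J - 5) = ∅ := Finset.Ico_eq_empty (by omega)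
        rw [this, Finset.sum_empty]
        positivity
      · have hb : (2 : ℝ) ^ (J - 5 + 3) ≤ v ^ (1 / (k : ℝ)) := by
          rw [← hθdef]
          refine le_trans (le_of_eq ?_) hgt.le
          rw [hndef]
          have hJJ : J = (J - 5 + 3) + 2 := by omega
          have hJ2 : (2 : ℝ) ^ J = 2 ^ (J - 5 + 3) * 4 := by
            calc (2 : ℝ) ^ J = 2 ^ (J - 5 + 3 + 2) := by rw [← hJJ]
              _ = 2 ^ (J - 5 + 3) * 2 ^ 2 := pow_add _ _ _
              _ = 2 ^ (J - 5 + 3) * 4 := by norm_num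
          rw [Nat.cast_pow, Nat.cast_ofNat, hJ2]
          ring
        have hs2 := sum2 hk hv0 5 (J - 5) hb
        refine hs2.trans ?_
        have h1 : θ / n ≤ 1 - 1 / (2 * (k : ℝ)) := by
          have hq : (0 : ℝ) ≤ 1 - 1 / (2 * (k : ℝ)) := by
            have : 1 / (2 * (k : ℝ)) ≤ 1 := by
              rw [div_le_one (by positivity)]
              linarith
            linarith
          have hbern : (1 : ℝ) / 2 ≤ (1 - 1 / (2 * (k : ℝ))) ^ k := by
            have hb1 := one_add_mul_le_pow (a := -(1 / (2 * (k : ℝ)))) (by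
              have : 1 / (2 * (k : ℝ)) ≤ 1 := by
                rw [div_le_one (by positivity)]
                linarith
              linarith) k
            have hb2 : (1 : ℝ) + (k : ℝ) * -(1 / (2 * (k : ℝ))) = 1 / 2 := by
              field_simp
              ring
            rw [hb2] at hb1
            simpa [sub_eq_add_neg] using hb1
          have hle2 : (θ / n) ^ k ≤ 1 / 2 := by
            rw [div_pow, hθk, div_le_iff₀ (by positivity)]
            have : (2 : ℝ) * v ≤ n ^ k := by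
              rw [hvdef, hndef]
              exact_mod_cast hA
            linarith
          have hk' : k ≠ 0 := by omega
          exact le_of_pow_le_pow_left₀ hk' hq (hle2.trans hbern)
        have h2 : w / 2 ≤ grad (ind A) := by
          refine le_trans ?_ hgr
          have h3 : (k : ℝ) * w * (1 / (2 * (k : ℝ))) = w / 2 := by
            field_simp
          rw [← h3]
          apply mul_le_mul_of_nonneg_left _ (mul_pos hk0 hw).le
          linarith
        have h4 : 5 * w / 4 ^ (k - 2) ≤ 12 / (k : ℝ) * (w / 2) := by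
          obtain ⟨m, rfl⟩ : ∃ m, k = m + 3 := ⟨k - 3, by omega⟩
          have h5 : (5 : ℝ) * ((m : ℝ) + 3) ≤ 6 * 4 ^ (m + 1) := by
            exact_mod_cast Scale_five (m := m)
          have h6 : m + 3 - 2 = m + 1 := by omega
          rw [h6, div_le_iff₀ (by positivity)]
          have h7 : (12 : ℝ) / ((m + 3 : ℕ) : ℝ) * (w / 2) * 4 ^ (m + 1)
              = w / ((m + 3 : ℕ) : ℝ) * (6 * 4 ^ (m + 1)) := by ring
          rw [h7]
          have h8 : 5 * w = w / ((m + 3 : ℕ) : ℝ) * (5 * ((m : ℝ) + 3)) := by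
            push_cast
            field_simp
          rw [h8]
          exact mul_le_mul_of_nonneg_left h5 (div_nonneg hw.le (Nat.cast_nonneg _))
        exact h4.trans (mul_le_mul_of_nonneg_left h2 (by positivity))

end Pool.Agent.GrO
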