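import Pool.Agent.GrO.Scale
import Pool.Agent.GrO.Mom

/-!
MODULE SetI (S). The multi-scale inequality for sets.

Proof. Replacing `A` by its complement changes neither `tst K (ind A)` (`ind Aᶜ = 1 - ind A`, the
differences change sign) nor `grad (ind A)`; so assume `2 |A| ≤ (2^J)^k`. For `i ∈ Ico 5 (J - 5)` and
`K = 2^(k (J-i))`: `K |A| / |G| = |A| / 2^(i k)` since `|G| = (2^J)^k` and `i ≤ J`. Use `tst_ind_le`
and `scale_sum`.
-/

set_option autoImplicit false

namespace Pool.Agent.GrO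

open Finset Pool.Agent.MP_12e089_an

private lemma SetI_ind_compl {G : Type} [Fintype G] [DecidableEq G] (A : Finset G) (x : G) :
    ind Aᶜ x = 1 - ind A x := by
  unfold ind
  by_cases h : x ∈ A
  · simp [h]
  · simp [h]

private lemma SetI_tst_compl {G : Type} [Fintype G] [DecidableEq G] (K : ℕ) (A : Finset G) :
    tst K (ind Aᶜ) = tst K (ind A) := by
  unfold tst
  congr 1
  refine Finset.sum_congr rfl fun x _ => Finset.sum_congr rfl fun y _ => ?_
  rw [← norm_neg, ← Finset.sum_neg_distrib]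
  congr 1
  refine Finset.sum_congr rfl fun j _ => ?_
  rw [SetI_ind_compl, SetI_ind_compl]
  ring

private lemma SetI_grad_compl {n k : ℕ} (A : Finset (Grid n k)) :
    grad (ind Aᶜ) = grad (ind A) := by
  unfold grad
  refine Finset.sum_congr rfl fun x _ => Finset.sum_congr rfl fun j _ => ?_
  split_ifs with h
  · rw [← norm_neg]
    congr 1
    rw [SetI_ind_compl, SetI_ind_compl]
    ring
  · rfl

private lemma SetI_small {J k : ℕ} (hk : 3 ≤ k) (A : Finset (Grid (2 ^ J) k))
    (hA : 2 * A.card ≤ (2 ^ J) ^ k) :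
    ∑ i ∈ Finset.Ico 5 (J - 5), (2 : ℝ) ^ (i * (k - 1)) * tst (2 ^ (k * (J - i))) (ind A) ≤
    12 / (k : ℝ) * grad (ind A) := by
  refine le_trans ?_ (scale_sum hk A hA)
  refine Finset.sum_le_sum fun i hi => ?_
  apply mul_le_mul_of_nonneg_left _ (by positivity)
  rw [Finset.mem_Ico] at hi
  have hiJ : i ≤ J := by omega
  have : Nonempty (Grid (2 ^ J) k) := ⟨fun _ => ⟨0, by positivity⟩⟩
  have h := tst_ind_le (2 ^ (k * (J - i))) A
  have hcard : (Fintype.card (Grid (2 ^ J) k) : ℝ) = 2 ^ (J * k) := by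
    rw [Fintype.card_fun, Fintype.card_fin, Fintype.card_fin]
    push_cast
    rw [← pow_mul]
  have hkey : (((2 ^ (k * (J - i)) : ℕ) : ℝ) * (A.card : ℝ) /
      (Fintype.card (Grid (2 ^ J) k) : ℝ)) = (A.card : ℝ) / 2 ^ (i * k) := by
    rw [hcard]
    have e : (2 : ℝ) ^ (J * k) = 2 ^ (k * (J - i)) * 2 ^ (i * k) := by
      rw [← pow_add]
      congr 1
      obtain ⟨m, rfl⟩ : ∃ m, J = i + m := ⟨J - i, by omega⟩
      have : i + m - i = m := by omega
      rw [this]
      ring
    rw [e]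
    push_cast
    rw [mul_div_mul_left _ _ (by positivity)]
  rw [hkey] at h
  exact h

theorem set_ineq {J k : ℕ} (hk : 3 ≤ k) (A : Finset (Grid (2 ^ J) k)) :
    ∑ i ∈ Finset.Ico 5 (J - 5), (2 : ℝ) ^ (i * (k - 1)) * tst (2 ^ (k * (J - i))) (ind A) ≤
    12 / (k : ℝ) * grad (ind A) := by
  rcases le_or_gt (2 * A.card) ((2 ^ J) ^ k) with h | h
  · exact SetI_small hk A h
  · have hc : Aᶜ.card = (2 ^ J) ^ k - A.card := by
      rw [Finset.card_compl, Fintype.card_fun, Fintype.card_fin, Fintype.card_fin]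
    have h2 := SetI_small hk Aᶜ (by rw [hc]; omega)
    rw [SetI_grad_compl] at h2
    simp only [SetI_tst_compl] at h2
    exact h2

end Pool.Agent.GrO
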